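import Pool.Agent.X291.DR.Tilt

/-! The Galois action on the generator `ω` of the kernel of `θ`. -/

set_option autoImplicit false

open Ideal WittVector

namespace Pool.Agent.X291.DR

variable {p : ℕ} [hp : Fact p.Prime]

theorem tiltMap_T (f : 𝓞_ℂ_[p] →+* 𝓞_ℂ_[p]) (y : Perfection 𝓞_ℂ_[p] p) :
    tiltMap f (T y) = T (Perfection.mapMonoidHom p (f : 𝓞_ℂ_[p] →* 𝓞_ℂ_[p]) y) := by
  apply Perfection.ext
  intro n
  rfl

theorem exists_nat_approx (c : ℤ_[p]) (n : ℕ) : ∃ a : ℕ, (p : ℤ_[p]) ^ n ∣ c - a := by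
  refine ⟨c.appr n, ?_⟩
  have h := PadicInt.appr_spec n c
  rwa [Ideal.mem_span_singleton] at h

theorem nat_dvd_of_padic {n a : ℕ} (h : (p : ℤ_[p]) ^ n ∣ (a : ℤ_[p])) : p ^ n ∣ a := by
  have h1 : (p : ℤ_[p]) ^ n ∣ ((a : ℤ) : ℤ_[p]) := by
    rw [Int.cast_natCast]
    exact h
  rw [PadicInt.pow_p_dvd_int_iff] at h1
  exact_mod_cast h1

theorem th_zpHom (a : ℤ_[p]) :
    ((th p (zpHom 𝓞_ℂ_[p] p a) : 𝓞_ℂ_[p]) : ℂ_[p]) = algebraMap ℚ_[p] ℂ_[p] (a : ℚ_[p]) := by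
  rw [← sub_eq_zero, ← norm_le_zero_iff]
  refine ge_of_tendsto' (pow_inv_tendsto (p := p)) (fun n => ?_)
  obtain ⟨m, b, hb⟩ := exists_nat_approx a n
  have h1 : a = m + p ^ n * b := by rw [← hb]; ring
  have h2 : ((th p (zpHom 𝓞_ℂ_[p] p a) : 𝓞_ℂ_[p]) : ℂ_[p]) =
      (m : ℂ_[p]) + (p : ℂ_[p]) ^ n * ((th p (zpHom 𝓞_ℂ_[p] p b) : 𝓞_ℂ_[p]) : ℂ_[p]) := by
    rw [h1, map_add, map_mul, map_pow, map_natCast, map_natCast, map_add, map_mul, map_pow,
      map_natCast, map_natCast]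
    push_cast
    rfl
  have h3 : algebraMap ℚ_[p] ℂ_[p] (a : ℚ_[p]) =
      (m : ℂ_[p]) + (p : ℂ_[p]) ^ n * algebraMap ℚ_[p] ℂ_[p] (b : ℚ_[p]) := by
    rw [h1, PadicInt.coe_add, PadicInt.coe_mul, PadicInt.coe_pow, PadicInt.coe_natCast,
      PadicInt.coe_natCast, map_add, map_mul, map_pow, map_natCast, map_natCast]
  rw [h2, h3, add_sub_add_left_eq_sub, ← mul_sub, norm_mul, norm_pow, norm_natC_p]
  have h4 : ‖((th p (zpHom 𝓞_ℂ_[p] p b) : 𝓞_ℂ_[p]) : ℂ_[p]) -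
      algebraMap ℚ_[p] ℂ_[p] (b : ℚ_[p])‖ ≤ 1 := by
    rw [sub_eq_add_neg]
    refine (IsUltrametricDist.norm_add_le_max _ _).trans (max_le (norm_le_one _) ?_)
    rw [norm_neg]
    rw [norm_algebraMapC]
    exact PadicInt.norm_le_one b
  have h5 : (0 : ℝ) ≤ (p : ℝ)⁻¹ ^ n := by
    have : (0 : ℝ) < p := by exact_mod_cast hp.out.pos
    positivity
  exact mul_le_of_le_one_right h5 h4

theorem gR_zR (σ : Gp p) (n a : ℕ) (h : σ (zf p n) = zf p n ^ a) : gR σ (zR p n) = zR p n ^ a := by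
  apply Subtype.ext
  rw [coe_gR, SubmonoidClass.coe_pow, coe_zR, gC_coe, h, coe_pow_C]

/-- `(1 + x) ^ m = 1 + m x` modulo `x ^ 2`. -/
theorem one_add_pow_aux {A : Type*} [CommRing A] (x : A) (m : ℕ) :
    ∃ y, (1 + x) ^ m = 1 + m * x + x ^ 2 * y := by
  induction m with
  | zero => exact ⟨0, by simp⟩
  | succ m ih =>
    obtain ⟨y, hy⟩ := ih
    refine ⟨m + y * (1 + x), ?_⟩
    rw [pow_succ, hy]
    push_cast
    ring

theorem act_om (σ : Gp p) (c : ℤ_[p]) (hc : CycAt σ c) (u : Ai p)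
    (hu : ainfMap (gR σ : 𝓞_ℂ_[p] →+* 𝓞_ℂ_[p]) (om p) = u * om p) :
    th p u * gR σ (zR p 1 - 1) = th p (zpHom 𝓞_ℂ_[p] p c) * (zR p 1 - 1) := by
  set f : 𝓞_ℂ_[p] →+* 𝓞_ℂ_[p] := (gR σ : 𝓞_ℂ_[p] →+* 𝓞_ℂ_[p]) with hf
  obtain ⟨ι, hι⟩ : ∃ ι : ℤ_[p] →+* Ai p, ι = zpHom 𝓞_ℂ_[p] p := ⟨_, rfl⟩
  obtain ⟨E, hE⟩ : ∃ E : Ai p, E = teichmuller p (T (eps p)) := ⟨_, rfl⟩
  obtain ⟨E1, hE1⟩ : ∃ E1 : Ai p, E1 = teichmuller p (T (eps1 p)) := ⟨_, rfl⟩
  have hE1p : E1 ^ p = E := by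
    rw [hE, hE1, ← map_pow, ← map_pow, eps1_pow]
  have hom : om p * (E1 - 1) = E - 1 := by
    rw [om, ← hE1, geom_sum_mul, hE1p]
  -- the difference
  set D : Ai p := u * ainfMap f (E1 - 1) - ι c * (E1 - 1) with hD
  have hDom : om p * D = ainfMap f (E - 1) - ι c * (E - 1) := by
    rw [← hom, map_mul, hu, hD]
    ring
  have key : ∀ N : ℕ, ∃ y z : Ai p, D = om p * y + (p : Ai p) ^ N * z := by
    intro N
    obtain ⟨a, ha⟩ := exists_nat_approx (-c) N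
    obtain ⟨b, hb⟩ := exists_nat_approx c N
    have hab : p ^ N ∣ a + b := by
      apply nat_dvd_of_padic
      have h1 := dvd_neg.2 (dvd_add ha hb)
      have h2 : -(-c - (a : ℤ_[p]) + (c - b)) = ((a + b : ℕ) : ℤ_[p]) := by
        push_cast
        ring
      rwa [h2] at h1
    -- the sequence `g`
    let g : Perfection 𝓞_ℂ_[p] p := ⟨fun n => gR σ (zR p (n + N)) * zR p (n + N) ^ a, by
      intro n
      rw [mul_pow, ← map_pow, ← pow_mul, mul_comm a p, pow_mul,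
        show n + 1 + N = (n + N) + 1 by ring, zR_succ]⟩
    have hg : ∀ n, Perfection.coeffMonoidHom 𝓞_ℂ_[p] p n g =
        gR σ (zR p (n + N)) * zR p (n + N) ^ a := fun n => rfl
    have hg0 : Perfection.coeffMonoidHom 𝓞_ℂ_[p] p 0 g = 1 := by
      rw [hg, zero_add, gR_zR σ N b (hc N b hb _ (zf_prim N).pow_eq_one), ← pow_add, add_comm b a]
      obtain ⟨k, hk⟩ := hab
      rw [hk, pow_mul]
      have h1 : zR p N ^ p ^ N = 1 := by
        apply Subtype.ext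
        rw [SubmonoidClass.coe_pow, coe_zR, ← coe_pow_C, (zf_prim N).pow_eq_one]
        rfl
      rw [h1, one_pow]
    have hpow : ∀ n : ℕ, zR p (n + N) ^ p ^ N = zR p n := by
      intro n
      have h1 := Perfection.coeffMonoidHom_pow_p_pow' (eps p) n N
      exact h1
    have hgN : Perfection.mapMonoidHom p (f : 𝓞_ℂ_[p] →* 𝓞_ℂ_[p]) (eps p) * eps p ^ a =
        g ^ p ^ N := by
      apply Perfection.extMonoid
      intro n
      rw [map_mul, map_pow, map_pow, hg, Perfection.coeffMonoidHom_mapMonoidHom, coeff_eps,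
        mul_pow, ← map_pow, ← pow_mul, mul_comm a, pow_mul, hpow]
      rfl
    obtain ⟨G, hG⟩ : ∃ G : Ai p, G = teichmuller p (T g) := ⟨_, rfl⟩
    have hGN : ainfMap f E * E ^ a = G ^ p ^ N := by
      rw [hE, hG, ainfMap, WittVector.map_teichmuller, tiltMap_T, ← map_pow, ← map_pow,
        ← map_mul, ← map_mul, hgN, map_pow, map_pow]
    have hGth : th p (G - 1) = 0 := by
      rw [map_sub, map_one, hG, th_teich, hg0, sub_self]
    obtain ⟨j, hj⟩ := om_dvd hGth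
    obtain ⟨y1, hy1⟩ := one_add_pow_aux (E - 1) a
    obtain ⟨y2, hy2⟩ := one_add_pow_aux (G - 1) (p ^ N)
    have hσ1 : th p (ainfMap f (E - 1)) = 0 := by
      rw [th, theta_ainfMap, ← th, map_sub, hE, th_teich, coeff_eps, zR_zero, map_one, sub_self,
        map_zero]
    obtain ⟨s, hs⟩ := om_dvd hσ1
    obtain ⟨d, hd⟩ := ha
    -- combine everything
    have e1 : (1 + ainfMap f (E - 1)) * (1 + (a : Ai p) * (E - 1) + (E - 1) ^ 2 * y1) =
        1 + (p : Ai p) ^ N * (G - 1) + (G - 1) ^ 2 * y2 := by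
      have h1 : 1 + ainfMap f (E - 1) = ainfMap f E := by
        rw [map_sub, map_one]
        ring
      rw [h1, ← hy1, show 1 + (E - 1) = E by ring, hGN]
      have h2 := hy2
      rw [show 1 + (G - 1) = G by ring] at h2
      rw [h2]
      push_cast
      ring
    have e2 : ι c = - (a : Ai p) - (p : Ai p) ^ N * ι d := by
      have h1 : c = - (a : ℤ_[p]) - (p : ℤ_[p]) ^ N * d := by
        rw [← hd]
        ring
      rw [h1, map_sub, map_neg, map_mul, map_pow, map_natCast, map_natCast]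
    have e3 : om p * D = om p * (om p * (-((a : Ai p) * (s * (E1 - 1))) -
        (1 + om p * s) * (E1 - 1) ^ 2 * y1 + j ^ 2 * y2) +
          (p : Ai p) ^ N * (j + ι d * (E1 - 1))) := by
      rw [hDom, e2]
      have h3 : G - 1 = om p * j := hj
      have h4 : ainfMap f (E - 1) = om p * s := hs
      rw [h3, h4, ← hom] at e1
      rw [h4, ← hom]
      linear_combination e1
    have e4 := mul_left_cancel₀ om_ne_zero e3
    exact ⟨_, _, e4⟩
  have hthD : th p D = 0 := by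
    apply eq_zero_of_pow_dvd
    intro n
    obtain ⟨y, z, hyz⟩ := key n
    rw [hyz, map_add, map_mul, map_mul, th_om, zero_mul, zero_add, map_pow, map_natCast]
    exact Dvd.intro _ rfl
  rw [hD, map_sub, map_mul, map_mul, th, theta_ainfMap, ← th, hE1, map_sub, map_one, th_teich,
    coeff_eps1, sub_eq_zero, hι] at hthD
  exact hthD

end Pool.Agent.X291.DR
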