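import Mathlib

/-!
# Ax's lemma

If the conjugates of an algebraic element `α` over a field `K`, `ℚ_p ⊆ K ⊆ ℚ_p^alg`, are close to
`α`, then `α` is close to an element of `K`, with a constant which does not depend on the degree.
-/

set_option autoImplicit false

open Polynomial

namespace Pool.Agent.X291.DR

section coeffs

variable {L : Type*} [NormedField L] [IsUltrametricDist L]

theorem norm_add_le_of {a b : L} {r : ℝ} (ha : ‖a‖ ≤ r) (hb : ‖b‖ ≤ r) : ‖a + b‖ ≤ r :=
  (IsUltrametricDist.norm_add_le_max a b).trans (max_le ha hb)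

theorem norm_sub_le_of {a b : L} {r : ℝ} (ha : ‖a‖ ≤ r) (hb : ‖b‖ ≤ r) : ‖a - b‖ ≤ r := by
  rw [sub_eq_add_neg]
  exact norm_add_le_of ha (by rwa [norm_neg])

theorem norm_coeff_le (t : Multiset L) (r : ℝ) (hr : 0 ≤ r) (ht : ∀ b ∈ t, ‖b‖ ≤ r) :
    ∀ k ≤ t.card, ‖((t.map fun b => X + C b).prod).coeff k‖ ≤ r ^ (t.card - k) := by
  induction t using Multiset.induction_on with
  | empty =>
    intro k hk
    rw [Multiset.card_zero, Nat.le_zero] at hk
    subst hk
    simp
  | cons b t ih =>
    intro k hk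
    have ih' := ih fun b' hb' => ht b' (Multiset.mem_cons_of_mem hb')
    have hb : ‖b‖ ≤ r := ht b (Multiset.mem_cons_self b t)
    rw [Multiset.map_cons, Multiset.prod_cons, Multiset.card_cons, add_mul, coeff_add]
    rw [Multiset.card_cons] at hk
    have hdeg : ((t.map fun b => X + C b).prod).natDegree ≤ t.card := by
      have := natDegree_multiset_prod_le (t.map fun b : L => X + C b)
      rw [Multiset.map_map] at this
      refine this.trans ?_
      have h2 : (t.map (natDegree ∘ fun b : L => X + C b)) = t.map fun _ => 1 := by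
        apply Multiset.map_congr rfl
        intro x _
        simp
      rw [h2]
      simp
    apply norm_add_le_of
    · cases k with
      | zero =>
        rw [mul_comm, mul_coeff_zero, coeff_X_zero, mul_zero, norm_zero]
        positivity
      | succ k =>
        rw [mul_comm, coeff_mul_X]
        refine (ih' k (by omega)).trans (le_of_eq ?_)
        congr 1
        omega
    · rw [coeff_C_mul, norm_mul]
      rcases Nat.lt_or_ge t.card k with h | h
      · rw [coeff_eq_zero_of_natDegree_lt (lt_of_le_of_lt hdeg h), norm_zero, mul_zero]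
        positivity
      · calc ‖b‖ * ‖((t.map fun b => X + C b).prod).coeff k‖ ≤ r * r ^ (t.card - k) :=
              mul_le_mul hb (ih' k h) (norm_nonneg _) hr
          _ = r ^ (t.card + 1 - k) := by
              rw [← pow_succ']
              congr 1
              omega

theorem pow_card_le_prod (t : Multiset ℝ) (m : ℝ) (hm : 0 ≤ m) (h : ∀ x ∈ t, m ≤ x) :
    m ^ t.card ≤ t.prod := by
  induction t using Multiset.induction_on with
  | empty => simp
  | cons b t ih =>
    rw [Multiset.card_cons, Multiset.prod_cons, pow_succ']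
    have h1 := ih fun x hx => h x (Multiset.mem_cons_of_mem hx)
    have h2 := h b (Multiset.mem_cons_self b t)
    exact mul_le_mul h2 h1 (pow_nonneg hm _) (hm.trans h2)

/-- A root of the `q`-th divided derivative near a point which is near to all the roots. -/
theorem exists_near [CharZero L] [IsAlgClosed L] (P : L[X]) (hP : P.Monic) (α : L) (r : ℝ)
    (hr : 0 ≤ r) (hα : ∀ a ∈ P.roots, ‖α - a‖ ≤ r) (q : ℕ) (hq : q < P.natDegree) :
    ∃ β : L, (hasseDeriv q P).IsRoot β ∧
      ‖α - β‖ ^ (P.natDegree - q) * ‖((P.natDegree.choose q : ℕ) : L)‖ ≤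
        r ^ (P.natDegree - q) := by
  classical
  set n := P.natDegree with hn
  set D := hasseDeriv q P with hD
  have hDdeg : D.natDegree = n - q := natDegree_hasseDeriv P q
  have hch : ((n.choose q : ℕ) : L) ≠ 0 := by
    exact_mod_cast (Nat.choose_pos hq.le).ne'
  have hDlead : D.leadingCoeff = ((n.choose q : ℕ) : L) := by
    rw [leadingCoeff, hDdeg, hD, hasseDeriv_coeff, Nat.sub_add_cancel hq.le]
    have : P.coeff n = 1 := hP.coeff_natDegree
    rw [this, mul_one]
  have hD0 : D ≠ 0 := by
    intro h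
    rw [h, leadingCoeff_zero] at hDlead
    exact hch hDlead.symm
  have hsplit : D = C D.leadingCoeff * (D.roots.map fun a => X - C a).prod :=
    (IsAlgClosed.splits D).eq_prod_roots
  have hcard : D.roots.card = n - q := by
    rw [← hDdeg]
    exact (IsAlgClosed.splits D).natDegree_eq_card_roots.symm
  have hne : D.roots.toFinset.Nonempty := by
    rw [Finset.nonempty_iff_ne_empty]
    intro h
    rw [Multiset.toFinset_eq_empty] at h
    rw [h, Multiset.card_zero] at hcard
    omega
  obtain ⟨β, hβ, hmin⟩ := D.roots.toFinset.exists_min_image (fun b => ‖α - b‖) hne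
  rw [Multiset.mem_toFinset] at hβ
  refine ⟨β, (mem_roots hD0).1 hβ, ?_⟩
  -- the value of `D` at `α`
  have h1 : D.eval α = (taylor α P).coeff q := (taylor_coeff α P q).symm
  have h2 : taylor α P = ((P.roots.map fun a => α - a).map fun b => X + C b).prod := by
    conv_lhs => rw [(IsAlgClosed.splits P).eq_prod_roots]
    rw [hP.leadingCoeff, C_1, one_mul, taylor_apply, multiset_prod_comp, Multiset.map_map,
      Multiset.map_map]
    congr 1
    apply Multiset.map_congr rfl
    intro a _
    simp only [Function.comp_apply, sub_comp, X_comp, C_comp, C_sub]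
    ring
  have hcardP : P.roots.card = n := (IsAlgClosed.splits P).natDegree_eq_card_roots.symm
  have h3 : ‖D.eval α‖ ≤ r ^ (n - q) := by
    rw [h1, h2]
    have := norm_coeff_le (P.roots.map fun a => α - a) r hr (by
      intro b hb
      obtain ⟨a, ha, rfl⟩ := Multiset.mem_map.1 hb
      exact hα a ha) q (by rw [Multiset.card_map, hcardP]; exact hq.le)
    rwa [Multiset.card_map, hcardP] at this
  have h4 : D.eval α = ((n.choose q : ℕ) : L) * (D.roots.map fun a => α - a).prod := by
    conv_lhs => rw [hsplit]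
    rw [eval_mul, eval_C, hDlead, eval_multiset_prod, Multiset.map_map]
    congr 2
    apply Multiset.map_congr rfl
    intro a _
    simp
  have h5 : ‖α - β‖ ^ (n - q) ≤ ‖(D.roots.map fun a => α - a).prod‖ := by
    have h6 : ‖(D.roots.map fun a => α - a).prod‖ = (D.roots.map fun a => ‖α - a‖).prod := by
      have := map_multiset_prod (normHom (α := L)) (D.roots.map fun a => α - a)
      rw [Multiset.map_map] at this
      exact this
    rw [h6]
    have h7 := pow_card_le_prod (D.roots.map fun a => ‖α - a‖) ‖α - β‖ (norm_nonneg _) (by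
      intro x hx
      obtain ⟨b, hb, rfl⟩ := Multiset.mem_map.1 hx
      exact hmin b (Multiset.mem_toFinset.2 hb))
    rwa [Multiset.card_map, hcard] at h7
  calc ‖α - β‖ ^ (n - q) * ‖((n.choose q : ℕ) : L)‖
      ≤ ‖(D.roots.map fun a => α - a).prod‖ * ‖((n.choose q : ℕ) : L)‖ :=
        mul_le_mul_of_nonneg_right h5 (norm_nonneg _)
    _ = ‖D.eval α‖ := by rw [h4, norm_mul, mul_comm]
    _ ≤ r ^ (n - q) := h3

end coeffs

section main

variable {p : ℕ} [hp : Fact p.Prime]

theorem norm_gal (K : IntermediateField ℚ_[p] (PadicAlgCl p))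
    (σ : PadicAlgCl p ≃ₐ[K] PadicAlgCl p) (x : PadicAlgCl p) : ‖σ x‖ = ‖x‖ := by
  have h := spectralNorm_eq_of_equiv (σ.restrictScalars ℚ_[p]) x
  rw [PadicAlgCl.spectralNorm_eq, PadicAlgCl.spectralNorm_eq] at h
  exact h.symm

theorem norm_gal' (σ : Gal(PadicAlgCl p/ℚ_[p])) (x : PadicAlgCl p) : ‖σ x‖ = ‖x‖ := by
  have h := spectralNorm_eq_of_equiv σ x
  rw [PadicAlgCl.spectralNorm_eq, PadicAlgCl.spectralNorm_eq] at h
  exact h.symm

theorem norm_nat (m : ℕ) : ‖(m : PadicAlgCl p)‖ = ‖(m : ℚ_[p])‖ := by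
  rw [← PadicAlgCl.norm_extends p (m : ℚ_[p]), map_natCast]

theorem choose_coprime (j m : ℕ) (hm : ¬ p ∣ m) : ¬ p ∣ (p ^ j * m).choose (p ^ j) := by
  induction j with
  | zero => simpa using hm
  | succ j ih =>
    intro h
    apply ih
    have h1 := Choose.choose_modEq_choose_mod_mul_choose_div_nat (p := p)
      (n := p ^ (j + 1) * m) (k := p ^ (j + 1))
    have e1 : p ^ (j + 1) * m % p = 0 := by
      rw [pow_succ', mul_assoc]
      exact Nat.mul_mod_right _ _
    have e2 : p ^ (j + 1) % p = 0 := by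
      rw [pow_succ']
      exact Nat.mul_mod_right _ _
    have e3 : p ^ (j + 1) * m / p = p ^ j * m := by
      rw [pow_succ', mul_assoc]
      exact Nat.mul_div_cancel_left _ hp.out.pos
    have e4 : p ^ (j + 1) / p = p ^ j := by
      rw [pow_succ']
      exact Nat.mul_div_cancel_left _ hp.out.pos
    rw [e1, e2, e3, e4, Nat.choose_self, one_mul] at h1
    exact (Nat.ModEq.dvd_iff h1 dvd_rfl).1 h

/-- the exponents of the constants -/
noncomputable def E (k : ℕ) : ℝ := ∑ i ∈ Finset.range k, (1 / 2 : ℝ) ^ i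

theorem E_succ (k : ℕ) : E (k + 1) = E k + (1 / 2 : ℝ) ^ k := Finset.sum_range_succ _ _

theorem E_mono {j k : ℕ} (h : j ≤ k) : E j ≤ E k :=
  Finset.sum_le_sum_of_subset_of_nonneg (Finset.range_mono h) fun _ _ _ => by positivity

theorem E_nonneg (k : ℕ) : 0 ≤ E k := Finset.sum_nonneg fun _ _ => by positivity

theorem E_le (k : ℕ) : E k ≤ 2 := by
  have h : E k + 2 * (1 / 2 : ℝ) ^ k = 2 := by
    induction k with
    | zero => norm_num [E]
    | succ k ih =>
      rw [E_succ, pow_succ]
      linarith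
  have : (0 : ℝ) ≤ 2 * (1 / 2 : ℝ) ^ k := by positivity
  linarith

theorem le_rpow_of_pow_le {x y r : ℝ} {n : ℕ} (hn : n ≠ 0) (hy : 0 ≤ y) (hr : 0 ≤ r)
    (h : x ^ n ≤ y * r ^ n) : x ≤ y ^ (1 / n : ℝ) * r := by
  have h1 : (y ^ (1 / n : ℝ) * r) ^ n = y * r ^ n := by
    rw [mul_pow, ← Real.rpow_natCast (y ^ (1 / n : ℝ)), ← Real.rpow_mul hy]
    have : (1 / n : ℝ) * n = 1 := by
      have : (n : ℝ) ≠ 0 := Nat.cast_ne_zero.2 hn
      field_simp
    rw [this, Real.rpow_one]
  rw [← h1] at h
  exact le_of_pow_le_pow_left₀ hn (by positivity) h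

/-- **Ax's lemma.** -/
theorem ax_aux (K : IntermediateField ℚ_[p] (PadicAlgCl p)) :
    ∀ (n k : ℕ), n < p ^ (k + 1) → ∀ (α : PadicAlgCl p) (r : ℝ), 0 ≤ r →
      (minpoly K α).natDegree = n →
      (∀ σ : PadicAlgCl p ≃ₐ[K] PadicAlgCl p, ‖σ α - α‖ ≤ r) →
      ∃ a : K, ‖α - (a : PadicAlgCl p)‖ ≤ (p : ℝ) ^ E k * r := by
  have hp1 : (1 : ℝ) < p := by exact_mod_cast hp.out.one_lt
  have hp0 : (0 : ℝ) < p := by linarith
  have hBone : ∀ k, 1 ≤ (p : ℝ) ^ E k := fun k => Real.one_le_rpow hp1.le (E_nonneg k)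
  intro n
  induction n using Nat.strong_induction_on with
  | _ n ih =>
    intro k hnk α r hr hdeg hα
    have hint : IsIntegral K α := Algebra.IsIntegral.isIntegral α
    have hn0 : 0 < n := hdeg ▸ minpoly.natDegree_pos hint
    rcases Nat.lt_or_ge 1 n with hn1 | hn1
    swap
    · -- `α ∈ K`
      have h1 : (minpoly K α).natDegree = 1 := by omega
      obtain ⟨a, ha⟩ := minpoly.natDegree_eq_one_iff.1 h1
      refine ⟨a, ?_⟩
      have : (a : PadicAlgCl p) = α := ha
      rw [this, sub_self, norm_zero]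
      positivity
    -- the roots
    set P := (minpoly K α).map (algebraMap K (PadicAlgCl p)) with hP
    have hPm : P.Monic := (minpoly.monic hint).map _
    have hPdeg : P.natDegree = n := by rw [hP, natDegree_map, hdeg]
    have hroots : ∀ a ∈ P.roots, ‖α - a‖ ≤ r := by
      intro a ha
      have ha' : aeval a (minpoly K α) = 0 := by
        have := (mem_roots hPm.ne_zero).1 ha
        rwa [IsRoot.def, hP, eval_map_algebraMap] at this
      obtain ⟨σ, rfl⟩ := minpoly.exists_algEquiv_of_root' hint.isAlgebraic ha'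
      rw [norm_sub_rev]
      exact hα σ
    -- the step
    have step : ∀ (q : ℕ), 0 < q → q < n → ∀ c : ℝ, 1 ≤ c →
        ‖((n.choose q : ℕ) : PadicAlgCl p)‖⁻¹ ^ (1 / (n - q : ℕ) : ℝ) ≤ c → ∀ k' : ℕ,
        n - q < p ^ (k' + 1) → (p : ℝ) ^ E k' * c ≤ (p : ℝ) ^ E k →
        ∃ a : K, ‖α - (a : PadicAlgCl p)‖ ≤ (p : ℝ) ^ E k * r := by
      intro q hq0 hqn c hc1 hc k' hk' hkk
      obtain ⟨β, hβ, hαβ⟩ := exists_near P hPm α r hr hroots q (hPdeg ▸ hqn)
      rw [hPdeg] at hαβ
      have hch : ((n.choose q : ℕ) : PadicAlgCl p) ≠ 0 := by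
        exact_mod_cast (Nat.choose_pos hqn.le).ne'
      have hnear : ‖α - β‖ ≤ c * r := by
        have h1 : ‖α - β‖ ^ (n - q) ≤ ‖((n.choose q : ℕ) : PadicAlgCl p)‖⁻¹ * r ^ (n - q) := by
          rw [inv_mul_eq_div, le_div_iff₀ (norm_pos_iff.2 hch)]
          exact hαβ
        have h2 := le_rpow_of_pow_le (by omega) (by positivity) hr h1
        exact h2.trans (mul_le_mul_of_nonneg_right hc hr)
      have hrc : r ≤ c * r := by nlinarith
      -- the degree of `β`
      set D₀ := hasseDeriv q (minpoly K α) with hD₀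
      have hD₀deg : D₀.natDegree = n - q := by rw [hD₀, natDegree_hasseDeriv, hdeg]
      have hD₀ne : D₀ ≠ 0 := by
        intro h
        rw [h, natDegree_zero] at hD₀deg
        omega
      have hβ' : aeval β D₀ = 0 := by
        have h1 : hasseDeriv q P = D₀.map (algebraMap K (PadicAlgCl p)) := by
          ext i
          simp only [hP, hD₀, hasseDeriv_coeff, coeff_map, map_mul, map_natCast]
        rwa [IsRoot.def, h1, eval_map_algebraMap] at hβ
      have hβdeg : (minpoly K β).natDegree ≤ n - q := by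
        rw [← hD₀deg]
        exact natDegree_le_of_dvd (minpoly.dvd K β hβ') hD₀ne
      have hβσ : ∀ σ : PadicAlgCl p ≃ₐ[K] PadicAlgCl p, ‖σ β - β‖ ≤ c * r := by
        intro σ
        have h1 : σ β - β = (σ β - σ α) + ((σ α - α) + (α - β)) := by ring
        rw [h1]
        refine norm_add_le_of ?_ (norm_add_le_of ((hα σ).trans hrc) hnear)
        rw [← map_sub, norm_gal, norm_sub_rev]
        exact hnear
      obtain ⟨a, ha⟩ := ih (minpoly K β).natDegree (by omega) k' (by omega) β (c * r)
        (by positivity) rfl hβσ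
      refine ⟨a, ?_⟩
      have h2 : α - (a : PadicAlgCl p) = (α - β) + (β - a) := by ring
      rw [h2]
      have h3 : (p : ℝ) ^ E k' * (c * r) ≤ (p : ℝ) ^ E k * r := by
        rw [← mul_assoc]
        exact mul_le_mul_of_nonneg_right hkk hr
      refine norm_add_le_of (hnear.trans ?_) (ha.trans h3)
      calc c * r = 1 * (c * r) := (one_mul _).symm
        _ ≤ (p : ℝ) ^ E k' * (c * r) := mul_le_mul_of_nonneg_right (hBone k') (by positivity)
        _ ≤ _ := h3
    obtain ⟨j, m, hpm, hnm⟩ := Nat.exists_eq_pow_mul_and_not_dvd hn0.ne' p hp.out.ne_one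
    by_cases hm1 : m = 1
    · -- a power of `p`
      rw [hm1, mul_one] at hnm
      obtain ⟨i, rfl⟩ : ∃ i, j = i + 1 := by
        cases j with
        | zero =>
          rw [pow_zero] at hnm
          omega
        | succ i => exact ⟨i, rfl⟩
      have hik : i < k := by
        by_contra h
        push Not at h
        have : p ^ (k + 1) ≤ p ^ (i + 1) := Nat.pow_le_pow_right hp.out.pos (by omega)
        omega
      have hlt : p ^ i < n := by
        rw [hnm]
        exact Nat.pow_lt_pow_right hp.out.one_lt (by omega)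
      have hpi : 0 < p ^ i := pow_pos hp.out.pos i
      refine step (p ^ i) hpi hlt ((p : ℝ) ^ ((1 / 2 : ℝ) ^ i))
        (Real.one_le_rpow hp1.le (by positivity)) ?_ i (by omega) ?_
      · have hnorm : ‖((n.choose (p ^ i) : ℕ) : PadicAlgCl p)‖⁻¹ ≤ p := by
          rw [norm_nat]
          have hne : n.choose (p ^ i) ≠ 0 := (Nat.choose_pos hlt.le).ne'
          have hfac : (n.choose (p ^ i)).factorization p = 1 := by
            rw [hnm, Nat.factorization_choose_prime_pow hp.out (by
              exact Nat.pow_le_pow_right hp.out.pos (by omega)) hpi.ne',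
              Nat.Prime.factorization_pow hp.out]
            simp
          have h2 : ¬ (p : ℤ) ^ 2 ∣ ((n.choose (p ^ i) : ℕ) : ℤ) := by
            intro h
            have h3 : p ^ 2 ∣ n.choose (p ^ i) := by exact_mod_cast h
            have := (hp.out.pow_dvd_iff_le_factorization hne).1 h3
            omega
          have h4 := mt (Padic.norm_int_le_pow_iff_dvd (p := p)
            ((n.choose (p ^ i) : ℕ) : ℤ) 2).1 h2
          rw [not_le] at h4
          have h5 : (p : ℝ)⁻¹ ≤ ‖((n.choose (p ^ i) : ℕ) : ℚ_[p])‖ := by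
            by_contra hcon
            push Not at hcon
            have h6 := (Padic.norm_lt_pow_iff_norm_le_pow_sub_one
              (((n.choose (p ^ i) : ℕ) : ℚ_[p])) (-1)).1 (by
                rw [zpow_neg_one]
                exact hcon)
            have h7 : ((-1 : ℤ) - 1) = -((2 : ℕ) : ℤ) := by norm_num
            rw [h7] at h6
            exact absurd h6 (not_le.2 (by exact_mod_cast h4))
          rw [inv_le_comm₀ (lt_of_lt_of_le (by positivity) h5) hp0]
          exact h5
        have hexp : (1 / ((n - p ^ i : ℕ) : ℝ)) ≤ (1 / 2 : ℝ) ^ i := by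
          have h8 : 2 ^ i ≤ n - p ^ i := by
            have h9 : n - p ^ i = p ^ i * (p - 1) := by
              rw [hnm, pow_succ, Nat.mul_sub, mul_one]
            rw [h9]
            calc 2 ^ i = 2 ^ i * 1 := (mul_one _).symm
              _ ≤ p ^ i * (p - 1) := Nat.mul_le_mul (Nat.pow_le_pow_left hp.out.two_le i)
                (by have := hp.out.two_le; omega)
          rw [one_div_pow, one_div_le_one_div (by
            have : 0 < 2 ^ i := by positivity
            exact_mod_cast lt_of_lt_of_le this h8) (by positivity)]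
          exact_mod_cast h8
        calc ‖((n.choose (p ^ i) : ℕ) : PadicAlgCl p)‖⁻¹ ^ (1 / ((n - p ^ i : ℕ) : ℝ))
            ≤ (p : ℝ) ^ (1 / ((n - p ^ i : ℕ) : ℝ)) :=
              Real.rpow_le_rpow (by positivity) hnorm (by positivity)
          _ ≤ (p : ℝ) ^ ((1 / 2 : ℝ) ^ i) := Real.rpow_le_rpow_of_exponent_le hp1.le hexp
      · rw [← Real.rpow_add hp0, ← E_succ]
        exact Real.rpow_le_rpow_of_exponent_le hp1.le (E_mono hik)
    · -- not a power of `p`
      have hm0 : m ≠ 0 := by
        rintro rfl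
        rw [mul_zero] at hnm
        omega
      have hpi : 0 < p ^ j := pow_pos hp.out.pos j
      have hlt : p ^ j < n := by
        rw [hnm]
        have : 2 ≤ m := by omega
        nlinarith
      refine step (p ^ j) hpi hlt 1 le_rfl ?_ k (by omega) (by rw [mul_one])
      have h1 : ‖((n.choose (p ^ j) : ℕ) : PadicAlgCl p)‖ = 1 := by
        rw [norm_nat, Padic.norm_natCast_eq_one_iff, hnm]
        exact (Nat.Prime.coprime_iff_not_dvd hp.out).2 (choose_coprime j m hpm)
      rw [h1, inv_one, Real.one_rpow]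

theorem ax (K : IntermediateField ℚ_[p] (PadicAlgCl p)) (α : PadicAlgCl p) (r : ℝ) (hr : 0 ≤ r)
    (hα : ∀ σ : PadicAlgCl p ≃ₐ[K] PadicAlgCl p, ‖σ α - α‖ ≤ r) :
    ∃ a ∈ K, ‖α - a‖ ≤ (p : ℝ) ^ 2 * r := by
  have hp1 : (1 : ℝ) < p := by exact_mod_cast hp.out.one_lt
  obtain ⟨a, ha⟩ := ax_aux K (minpoly K α).natDegree (minpoly K α).natDegree
    (lt_of_lt_of_le (Nat.lt_pow_self hp.out.one_lt)
      (Nat.pow_le_pow_right hp.out.pos (Nat.le_succ _))) α r hr rfl hα
  refine ⟨a, a.2, ha.trans (mul_le_mul_of_nonneg_right ?_ hr)⟩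
  rw [← Real.rpow_natCast]
  exact Real.rpow_le_rpow_of_exponent_le hp1.le (by exact_mod_cast E_le _)

end main

end Pool.Agent.X291.DR
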