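import Pool.Agent.X291.DR.Act

/-! Eigenvectors of the Galois group in `B_dR`. -/

set_option autoImplicit false

open Ideal WittVector

namespace Pool.Agent.X291.DR

variable {p : ℕ} [hp : Fact p.Prime]

/-- `A_inf[1/p]` -/
abbrev A1 (p : ℕ) [Fact p.Prime] : Type := AInf1 𝓞_ℂ_[p] p

theorem p_ne_zero_Ai : (p : Ai p) ≠ 0 := by
  intro h
  have h1 := congrArg (th p) h
  rw [map_natCast, map_zero] at h1
  exact p_ne_zero_int h1

instance instDomA1 : IsDomain (A1 p) :=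
  IsLocalization.isDomain_localization (powers_le_nonZeroDivisors_of_noZeroDivisors p_ne_zero_Ai)

theorem alg_injective : Function.Injective (algebraMap (Ai p) (A1 p)) :=
  IsLocalization.injective _ (powers_le_nonZeroDivisors_of_noZeroDivisors p_ne_zero_Ai)

/-- `θ` with values in `ℂ_p` -/
noncomputable def thC (p : ℕ) [Fact p.Prime] : A1 p →+* ℂ_[p] :=
  Localization.awayLift ((PadicComplexInt p).subtype.comp (th p)) (p : Ai p) (by
    rw [RingHom.comp_apply, map_natCast, map_natCast, isUnit_iff_ne_zero]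
    have := (Fact.out : p.Prime).ne_zero
    exact_mod_cast this)

theorem thC_alg (x : Ai p) : thC p (algebraMap _ _ x) = ((th p x : 𝓞_ℂ_[p]) : ℂ_[p]) := by
  simp [thC, Localization.awayLift, IsLocalization.Away.lift_eq]

theorem exists_rep (x : A1 p) : ∃ (k : ℕ) (a : Ai p), x * algebraMap _ (A1 p) ((p : Ai p) ^ k) =
    algebraMap _ (A1 p) a := by
  obtain ⟨⟨a, ⟨_, k, rfl⟩⟩, h⟩ :=
    IsLocalization.surj (Submonoid.powers (p : WittVector p (PreTilt 𝓞_ℂ_[p] p))) x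
  exact ⟨k, a, h⟩

theorem alg_p_isUnit (k : ℕ) : IsUnit (algebraMap (Ai p) (A1 p) ((p : Ai p) ^ k)) := by
  rw [map_pow]
  exact (IsLocalization.Away.algebraMap_isUnit (p : Ai p)).pow k

theorem thC_gal (σ : Gp p) (x : A1 p) :
    thC p (ainf1Map (gR σ : 𝓞_ℂ_[p] →+* 𝓞_ℂ_[p]) x) = gC σ (thC p x) := by
  have h : (thC p).comp (ainf1Map (gR σ : 𝓞_ℂ_[p] →+* 𝓞_ℂ_[p])) = (gC σ).comp (thC p) := by
    apply IsLocalization.ringHom_ext (Submonoid.powers (p : WittVector p (PreTilt 𝓞_ℂ_[p] p)))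
    ext y
    simp only [RingHom.comp_apply]
    rw [ainf1Map_algebraMap, thC_alg, thC_alg, th, theta_ainfMap]
    rfl
  exact congrArg (fun k : A1 p →+* ℂ_[p] => k x) h

/-- `ω` in `A_inf[1/p]` -/
noncomputable def O1 (p : ℕ) [Fact p.Prime] : A1 p := algebraMap _ _ (om p)

theorem O1_ne_zero : O1 p ≠ 0 := by
  intro h
  rw [O1, ← map_zero (algebraMap (Ai p) (A1 p))] at h
  exact om_ne_zero (alg_injective h)

theorem mem_ker_iff (x : A1 p) : x ∈ kerTheta 𝓞_ℂ_[p] p ↔ thC p x = 0 := by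
  rw [RingHom.mem_ker]
  obtain ⟨k, a, h⟩ := exists_rep x
  have h1 : fontaineThetaInvertP 𝓞_ℂ_[p] p x = 0 ↔ th p a = 0 := by
    have h2 := congrArg (fontaineThetaInvertP 𝓞_ℂ_[p] p) h
    rw [map_mul, thetaInvertP_algebraMap a] at h2
    have h3 : IsUnit (fontaineThetaInvertP 𝓞_ℂ_[p] p (algebraMap (Ai p) (A1 p) ((p : Ai p) ^ k))) :=
      (alg_p_isUnit k).map _
    have h4 : Function.Injective (algebraMap 𝓞_ℂ_[p] (Localization.Away (p : 𝓞_ℂ_[p]))) :=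
      IsLocalization.injective _ (powers_le_nonZeroDivisors_of_noZeroDivisors p_ne_zero_int)
    constructor
    · intro h5
      rw [h5, zero_mul] at h2
      apply h4
      rw [map_zero]
      exact h2.symm
    · intro h5
      have h6 : fontaineThetaInvertP 𝓞_ℂ_[p] p x *
          fontaineThetaInvertP 𝓞_ℂ_[p] p (algebraMap (Ai p) (A1 p) ((p : Ai p) ^ k)) = 0 := by
        rw [h2]
        change algebraMap _ _ (th p a) = _
        rw [h5, map_zero]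
      exact (h3.mul_left_eq_zero).1 h6
  have h2 : thC p x = 0 ↔ th p a = 0 := by
    have h2 := congrArg (thC p) h
    rw [map_mul, thC_alg a] at h2
    have h3 : IsUnit (thC p (algebraMap (Ai p) (A1 p) ((p : Ai p) ^ k))) := (alg_p_isUnit k).map _
    constructor
    · intro h5
      rw [h5, zero_mul] at h2
      apply Subtype.ext
      exact h2.symm
    · intro h5
      rw [h5, ZeroMemClass.coe_zero] at h2
      exact (h3.mul_left_eq_zero).1 h2
  rw [h1, h2]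

theorem ker_eq : kerTheta 𝓞_ℂ_[p] p = Ideal.span {O1 p} := by
  apply le_antisymm
  · intro x hx
    rw [mem_ker_iff] at hx
    obtain ⟨k, a, h⟩ := exists_rep x
    have h2 := congrArg (thC p) h
    rw [map_mul, thC_alg a, hx, zero_mul] at h2
    have h3 : th p a = 0 := Subtype.ext h2.symm
    obtain ⟨b, hb⟩ := om_dvd h3
    obtain ⟨w, hw⟩ := (alg_p_isUnit (p := p) k)
    rw [Ideal.mem_span_singleton]
    refine ⟨algebraMap _ _ b * ((w⁻¹ : (A1 p)ˣ) : A1 p), ?_⟩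
    rw [← hw] at h
    rw [← mul_assoc, O1, ← map_mul, ← hb, ← h, mul_assoc, Units.mul_inv, mul_one]
  · rw [Ideal.span_le, Set.singleton_subset_iff, SetLike.mem_coe, mem_ker_iff, O1, thC_alg, th_om]
    rfl

theorem mem_pow_iff (n : ℕ) (x : A1 p) : x ∈ kerTheta 𝓞_ℂ_[p] p ^ n ↔ O1 p ^ n ∣ x := by
  rw [ker_eq, Ideal.span_singleton_pow, Ideal.mem_span_singleton]

theorem O1_dvd_iff (x : A1 p) : O1 p ∣ x ↔ thC p x = 0 := by
  rw [← mem_ker_iff, ker_eq, Ideal.mem_span_singleton]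

/-- The evaluation `B_dR⁺ → A_inf[1/p] / I ^ n`. -/
noncomputable def ev (n : ℕ) : BDeRhamPlus 𝓞_ℂ_[p] p →+* A1 p ⧸ kerTheta 𝓞_ℂ_[p] p ^ n :=
  (AdicCompletion.evalₐ (kerTheta 𝓞_ℂ_[p] p) n :
    AdicCompletion (kerTheta 𝓞_ℂ_[p] p) (A1 p) →+* A1 p ⧸ kerTheta 𝓞_ℂ_[p] p ^ n)

theorem ev_ext {x y : BDeRhamPlus 𝓞_ℂ_[p] p} (h : ∀ n, ev n x = ev n y) : x = y :=
  AdicCompletion.ext_evalₐ h

theorem ev_toPlus (n : ℕ) (a : A1 p) : ev n (toPlus 𝓞_ℂ_[p] p a) = Ideal.Quotient.mk _ a :=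
  AdicCompletion.evalₐ_of _ _ _

theorem ev_compat {m n : ℕ} (h : m ≤ n) (x : BDeRhamPlus 𝓞_ℂ_[p] p) (a : A1 p)
    (ha : ev n x = Ideal.Quotient.mk _ a) : ev m x = Ideal.Quotient.mk _ a := by
  obtain ⟨y, rfl⟩ := AdicCompletion.mk_surjective (kerTheta 𝓞_ℂ_[p] p) (A1 p) x
  change AdicCompletion.evalₐ _ n _ = _ at ha
  change AdicCompletion.evalₐ _ m _ = _
  rw [AdicCompletion.evalₐ_mk] at ha ⊢
  rw [← AdicCompletion.Ideal.mk_eq_mk _ h y]
  rw [Ideal.Quotient.eq] at ha ⊢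
  exact Ideal.pow_le_pow_right h ha

theorem ev_gal (σ : Gp p) (n : ℕ) (x : BDeRhamPlus 𝓞_ℂ_[p] p) (a : A1 p)
    (ha : ev n x = Ideal.Quotient.mk _ a) :
    ev n (bdrPlusMap (gR σ : 𝓞_ℂ_[p] →+* 𝓞_ℂ_[p]) x) =
      Ideal.Quotient.mk _ (ainf1Map (gR σ : 𝓞_ℂ_[p] →+* 𝓞_ℂ_[p]) a) := by
  have h := evalₐ_complMap (kerTheta 𝓞_ℂ_[p] p) (kerTheta 𝓞_ℂ_[p] p)
    (ainf1Map (gR σ : 𝓞_ℂ_[p] →+* 𝓞_ℂ_[p])) (kerTheta_le _) n x
  change ev n (bdrPlusMap (gR σ : 𝓞_ℂ_[p] →+* 𝓞_ℂ_[p]) x) = _ at h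
  rw [h]
  change Ideal.quotientMap _ _ _ (ev n x) = _
  rw [ha, Ideal.quotientMap_mk]

/-- The leading term of a nonzero element of `B_dR⁺`. -/
theorem leading (x : BDeRhamPlus 𝓞_ℂ_[p] p) (hx : x ≠ 0) :
    ∃ (n : ℕ) (l : ℂ_[p]), l ≠ 0 ∧ ∀ N > n, ∃ a : A1 p, thC p a = l ∧
      ev N x = Ideal.Quotient.mk _ (O1 p ^ n * a) := by
  classical
  have h1 : ∃ m, ev m x ≠ 0 := by
    by_contra hcon
    push Not at hcon
    exact hx (ev_ext fun n => by rw [hcon, map_zero])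
  obtain ⟨M, hM, hmin⟩ : ∃ M, ev M x ≠ 0 ∧ ∀ k < M, ev k x = 0 :=
    ⟨Nat.find h1, Nat.find_spec h1, fun k hk => by
      by_contra h2
      exact Nat.find_min h1 hk h2⟩
  have hM0 : M ≠ 0 := by
    rintro rfl
    apply hM
    obtain ⟨b, hb⟩ := Ideal.Quotient.mk_surjective (ev 0 x)
    rw [← hb, Ideal.Quotient.eq_zero_iff_mem, pow_zero, Ideal.one_eq_top]
    exact Submodule.mem_top
  obtain ⟨n, rfl⟩ := Nat.exists_eq_succ_of_ne_zero hM0
  have hn := hmin n (Nat.lt_succ_self n)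
  -- representatives
  have hrep : ∀ N > n, ∃ a : A1 p, ev N x = Ideal.Quotient.mk _ (O1 p ^ n * a) := by
    intro N hN
    obtain ⟨b, hb⟩ := Ideal.Quotient.mk_surjective (ev N x)
    have h2 := ev_compat hN.le x b hb.symm
    rw [hn, eq_comm, Ideal.Quotient.eq_zero_iff_mem, mem_pow_iff] at h2
    obtain ⟨a, ha⟩ := h2
    exact ⟨a, by rw [← ha, hb]⟩
  obtain ⟨a0, ha0⟩ := hrep (n + 1) (Nat.lt_succ_self n)
  refine ⟨n, thC p a0, ?_, ?_⟩
  · intro h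
    apply hM
    rw [Nat.succ_eq_add_one, ha0, Ideal.Quotient.eq_zero_iff_mem, mem_pow_iff, pow_succ]
    exact mul_dvd_mul_left _ ((O1_dvd_iff a0).2 h)
  · intro N hN
    obtain ⟨a, ha⟩ := hrep N hN
    refine ⟨a, ?_, ha⟩
    have h2 := ev_compat (Nat.succ_le_of_lt hN) x _ ha
    rw [Nat.succ_eq_add_one, ha0, Ideal.Quotient.eq, mem_pow_iff, ← mul_sub, pow_succ] at h2
    have h3 := (mul_dvd_mul_iff_left (pow_ne_zero n O1_ne_zero)).1 h2
    rw [O1_dvd_iff, map_sub, sub_eq_zero] at h3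
    exact h3.symm

/-- The elements of the multiplicative set. -/
theorem denom (s : BDeRhamPlus 𝓞_ℂ_[p] p) (hs : s ∈ bdrSubmonoid 𝓞_ℂ_[p] p) :
    ∃ (m : ℕ) (v : A1 p), thC p v ≠ 0 ∧ s = toPlus 𝓞_ℂ_[p] p (O1 p ^ m * v) := by
  let S : Submonoid (BDeRhamPlus 𝓞_ℂ_[p] p) :=
    { carrier := {s | ∃ (m : ℕ) (v : A1 p), thC p v ≠ 0 ∧ s = toPlus 𝓞_ℂ_[p] p (O1 p ^ m * v)}
      one_mem' := ⟨0, 1, by rw [map_one]; exact one_ne_zero, by rw [pow_zero, one_mul, map_one]⟩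
      mul_mem' := by
        rintro _ _ ⟨m, v, hv, rfl⟩ ⟨m', v', hv', rfl⟩
        refine ⟨m + m', v * v', ?_, ?_⟩
        · rw [map_mul]
          exact mul_ne_zero hv hv'
        · rw [← map_mul]
          congr 1
          ring }
  have h : bdrSubmonoid 𝓞_ℂ_[p] p ≤ S := by
    apply bdrSubmonoid_le_of
    intro a ha
    have h1 : O1 p ∣ a := by
      rw [← Ideal.mem_span_singleton, ← ker_eq, ha]
      exact Ideal.mem_span_singleton_self a
    have h2 : a ∣ O1 p := by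
      rw [← Ideal.mem_span_singleton, ← ha, ker_eq]
      exact Ideal.mem_span_singleton_self _
    obtain ⟨v, hv⟩ := h1
    obtain ⟨w, hw⟩ := h2
    have h3 : v * w = 1 := by
      apply mul_left_cancel₀ O1_ne_zero
      rw [← mul_assoc, ← hv, ← hw, mul_one]
    refine ⟨1, v, ?_, by rw [pow_one, ← hv]⟩
    intro h4
    have h5 := congrArg (thC p) h3
    rw [map_mul, h4, zero_mul, map_one] at h5
    exact zero_ne_one h5
  exact h hs

end Pool.Agent.X291.DR
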