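import Pool.Agent.X291.DR.Ax
import Pool.Agent.H707R3.OneSubZeta

/-!
# The normalised trace is bounded on the cyclotomic tower
-/

set_option autoImplicit false

open Polynomial IntermediateField Module

namespace Pool.Agent.X291.DR

variable {p : ℕ} [hp : Fact p.Prime]

theorem norm_one_sub {z : PadicAlgCl p} {n : ℕ} (hz : IsPrimitiveRoot z (p ^ (n + 1))) :
    ‖1 - z‖ ^ (Nat.totient (p ^ (n + 1))) = (p : ℝ)⁻¹ := by
  have h1 : IsPrimitiveRoot (algebraMap (PadicAlgCl p) ℂ_[p] z) (p ^ (n + 1)) :=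
    hz.map_of_injective (algebraMap (PadicAlgCl p) ℂ_[p]).injective
  have h2 := Pool.Agent.H707R3.norm_one_sub_pow_totient h1
  have h3 : ‖(1 : ℂ_[p]) - algebraMap (PadicAlgCl p) ℂ_[p] z‖ = ‖1 - z‖ := by
    rw [← map_one (algebraMap (PadicAlgCl p) ℂ_[p]), ← map_sub]
    exact PadicComplex.norm_extends p _
  rwa [h3] at h2

theorem norm_lam {z : PadicAlgCl p} {n : ℕ} (hz : IsPrimitiveRoot z (p ^ (n + 1))) :
    0 < ‖1 - z‖ ∧ ‖1 - z‖ ≤ 1 ∧ 0 < Nat.totient (p ^ (n + 1)) := by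
  have hp1 : (1 : ℝ) < p := by exact_mod_cast hp.out.one_lt
  have h := norm_one_sub hz
  have hφ : 0 < Nat.totient (p ^ (n + 1)) := Nat.totient_pos.2 (pow_pos hp.out.pos _)
  refine ⟨?_, ?_, hφ⟩
  · by_contra hcon
    have h0 : ‖1 - z‖ = 0 := le_antisymm (not_lt.1 hcon) (norm_nonneg _)
    rw [h0, zero_pow hφ.ne'] at h
    have : (0 : ℝ) < (p : ℝ)⁻¹ := by positivity
    linarith
  · by_contra hcon
    push Not at hcon
    have h1 := one_lt_pow₀ hcon hφ.ne'
    rw [h] at h1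
    have : (p : ℝ)⁻¹ < 1 := inv_lt_one_of_one_lt₀ hp1
    linarith

theorem norm_algebraMap (a : ℚ_[p]) : ‖algebraMap ℚ_[p] (PadicAlgCl p) a‖ = ‖a‖ :=
  PadicAlgCl.norm_extends p a

theorem term_ne {z : PadicAlgCl p} {n : ℕ} (hz : IsPrimitiveRoot z (p ^ (n + 1))) (a b : ℚ_[p])
    (ha : a ≠ 0) (hb : b ≠ 0) {i j : ℕ} (hi : i < Nat.totient (p ^ (n + 1)))
    (hj : j < Nat.totient (p ^ (n + 1))) (hij : i ≠ j) :
    ‖a‖ * ‖1 - z‖ ^ i ≠ ‖b‖ * ‖1 - z‖ ^ j := by
  intro h
  set φ := Nat.totient (p ^ (n + 1)) with hφ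
  have hp1 : (1 : ℝ) < p := by exact_mod_cast hp.out.one_lt
  have hp0 : (p : ℝ) ≠ 0 := by linarith
  have h1 := congrArg (fun x : ℝ => x ^ φ) h
  simp only [mul_pow] at h1
  rw [← pow_mul, ← pow_mul, mul_comm i, mul_comm j, pow_mul, pow_mul, norm_one_sub hz,
    Padic.norm_eq_zpow_neg_valuation ha, Padic.norm_eq_zpow_neg_valuation hb] at h1
  have e : ∀ (v : ℤ) (k : ℕ), ((p : ℝ) ^ (-v)) ^ φ * ((p : ℝ)⁻¹) ^ k =
      (p : ℝ) ^ (-v * φ - k) := by
    intro v k
    rw [zpow_sub₀ hp0, zpow_mul, zpow_natCast, zpow_natCast, inv_pow, div_eq_mul_inv]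
  rw [e, e] at h1
  have h2 := zpow_right_injective₀ (by linarith) hp1.ne' h1
  have hdvd : (φ : ℤ) ∣ ((j : ℤ) - (i : ℤ)) := ⟨a.valuation - b.valuation, by linarith⟩
  have habs : |(j : ℤ) - (i : ℤ)| < φ := by
    rw [abs_lt]
    constructor <;> omega
  have := Int.eq_zero_of_abs_lt_dvd hdvd habs
  omega

/-- The powers of `1 - ζ` are an orthogonal basis. -/
theorem ortho {z : PadicAlgCl p} {n : ℕ} (hz : IsPrimitiveRoot z (p ^ (n + 1))) (a : ℕ → ℚ_[p])
    (j : ℕ) (hj : j < Nat.totient (p ^ (n + 1))) :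
    ‖a j‖ * ‖1 - z‖ ^ j ≤
      ‖∑ i ∈ Finset.range (Nat.totient (p ^ (n + 1))),
        algebraMap ℚ_[p] (PadicAlgCl p) (a i) * (1 - z) ^ i‖ := by
  classical
  set φ := Nat.totient (p ^ (n + 1)) with hφ
  rcases eq_or_ne (a j) 0 with h0 | h0
  · rw [h0, norm_zero, zero_mul]
    exact norm_nonneg _
  set s := (Finset.range φ).filter fun i => a i ≠ 0 with hs
  have hjs : j ∈ s := Finset.mem_filter.2 ⟨Finset.mem_range.2 hj, h0⟩
  have hsum : ∑ i ∈ Finset.range φ, algebraMap ℚ_[p] (PadicAlgCl p) (a i) * (1 - z) ^ i =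
      ∑ i ∈ s, algebraMap ℚ_[p] (PadicAlgCl p) (a i) * (1 - z) ^ i := by
    rw [hs, Finset.sum_filter]
    refine Finset.sum_congr rfl fun i _ => ?_
    split_ifs with h
    · rfl
    · rw [not_not.1 h, map_zero, zero_mul]
  have hnorm : ∀ i, ‖algebraMap ℚ_[p] (PadicAlgCl p) (a i) * (1 - z) ^ i‖ =
      ‖a i‖ * ‖1 - z‖ ^ i := by
    intro i
    rw [norm_mul, norm_pow, norm_algebraMap]
  rw [hsum, IsUltrametricDist.norm_sum_eq_sup'_of_pairwise_ne ⟨j, hjs⟩]
  · rw [← hnorm j]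
    exact Finset.le_sup' (fun i => ‖algebraMap ℚ_[p] (PadicAlgCl p) (a i) * (1 - z) ^ i‖) hjs
  · intro i hi k hk hik
    simp only [hs, Finset.coe_filter, Finset.mem_range, Set.mem_ofPred_eq] at hi hk
    rw [hnorm, hnorm]
    exact term_ne hz _ _ hi.2 hk.2 hi.1 hk.1 hik

theorem minpoly_root {z : PadicAlgCl p} {n : ℕ} (hz : IsPrimitiveRoot z (p ^ (n + 1))) :
    minpoly ℚ_[p] z = cyclotomic (p ^ (n + 1)) ℚ_[p] := by
  set φ := Nat.totient (p ^ (n + 1)) with hφ
  have hint : IsIntegral ℚ_[p] z := Algebra.IsIntegral.isIntegral z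
  have hpos : 0 < p ^ (n + 1) := pow_pos hp.out.pos _
  have hroot : aeval z (cyclotomic (p ^ (n + 1)) ℚ_[p]) = 0 := by
    rw [← eval_map_algebraMap, map_cyclotomic]
    exact hz.isRoot_cyclotomic hpos
  have hdvd := minpoly.dvd ℚ_[p] z hroot
  have hcdeg : (cyclotomic (p ^ (n + 1)) ℚ_[p]).natDegree = φ := natDegree_cyclotomic _ _
  refine (eq_of_monic_of_dvd_of_natDegree_le (minpoly.monic hint) (cyclotomic.monic _ _)
    hdvd ?_).symm
  rw [hcdeg]
  by_contra hlt
  push Not at hlt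
  set g := (minpoly ℚ_[p] z).comp (1 - X) with hg
  have hgdeg : g.natDegree < φ := by
    have h1 : ((1 : ℚ_[p][X]) - X).natDegree ≤ 1 := by
      refine (natDegree_sub_le _ _).trans ?_
      simp
    calc g.natDegree ≤ (minpoly ℚ_[p] z).natDegree * ((1 : ℚ_[p][X]) - X).natDegree :=
          natDegree_comp_le
      _ ≤ (minpoly ℚ_[p] z).natDegree * 1 := Nat.mul_le_mul_left _ h1
      _ < φ := by omega
  have hgroot : aeval (1 - z) g = 0 := by
    rw [hg, aeval_comp]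
    have : aeval (1 - z) ((1 : ℚ_[p][X]) - X) = z := by simp
    rw [this, minpoly.aeval]
  have hg0 : g = 0 := by
    ext j
    rw [coeff_zero]
    rcases Nat.lt_or_ge j φ with hj | hj
    · have h1 := ortho hz g.coeff j hj
      have h2 : ∑ i ∈ Finset.range φ, algebraMap ℚ_[p] (PadicAlgCl p) (g.coeff i) * (1 - z) ^ i =
          aeval (1 - z) g := by
        rw [aeval_eq_sum_range' hgdeg]
        exact Finset.sum_congr rfl fun i _ => by rw [Algebra.smul_def]
      rw [← hφ, h2, hgroot, norm_zero] at h1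
      have h3 : 0 < ‖1 - z‖ ^ j := pow_pos (norm_lam hz).1 j
      have h4 : ‖g.coeff j‖ ≤ 0 := by
        by_contra hcon
        push Not at hcon
        have := mul_pos hcon h3
        linarith
      exact norm_le_zero_iff.1 h4
    · exact coeff_eq_zero_of_natDegree_lt (lt_of_lt_of_le hgdeg hj)
  have h5 : minpoly ℚ_[p] z = g.comp (1 - X) := by
    rw [hg, comp_assoc]
    have : ((1 : ℚ_[p][X]) - X).comp (1 - X) = X := by simp
    rw [this, comp_X]
  rw [hg0, zero_comp] at h5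
  exact minpoly.ne_zero hint h5

/-- the normalised trace -/
noncomputable abbrev tr (x : PadicAlgCl p) : ℚ_[p] := Algebra.normalizedTrace ℚ_[p] (PadicAlgCl p) x

theorem tr_gal (σ : Gal(PadicAlgCl p/ℚ_[p])) (x : PadicAlgCl p) : tr (σ x) = tr x := by
  rw [tr, tr, Algebra.normalizedTrace_minpoly, Algebra.normalizedTrace_minpoly, minpoly.algEquiv_eq]

theorem tr_one : tr (1 : PadicAlgCl p) = 1 := by
  rw [tr, Algebra.normalizedTrace_minpoly, minpoly.one]
  have h1 : ((X : ℚ_[p][X]) - 1).natDegree = 1 := by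
    rw [← C_1]
    exact natDegree_X_sub_C 1
  have h2 : ((X : ℚ_[p][X]) - 1).nextCoeff = -1 := by
    rw [← C_1]
    exact nextCoeff_X_sub_C 1
  rw [h1, h2]
  simp

theorem norm_tr_root {z : PadicAlgCl p} {s : ℕ} (hz : IsPrimitiveRoot z (p ^ s)) :
    ‖tr z‖ ≤ 1 := by
  cases s with
  | zero =>
    rw [pow_zero, IsPrimitiveRoot.one_right_iff] at hz
    rw [hz, tr_one, norm_one]
  | succ n =>
    rw [tr, Algebra.normalizedTrace_minpoly, minpoly_root hz, natDegree_cyclotomic]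
    have hφ : Nat.totient (p ^ (n + 1)) = p ^ n * (p - 1) := by
      rw [Nat.totient_prime_pow_succ hp.out]
    have hp2 := hp.out.two_le
    have hpn : 0 < p ^ n := pow_pos hp.out.pos n
    have hφ0 : 0 < p ^ n * (p - 1) := Nat.mul_pos hpn (by omega)
    have hnext : (cyclotomic (p ^ (n + 1)) ℚ_[p]).nextCoeff =
        if n = 0 then 1 else 0 := by
      rw [nextCoeff_of_natDegree_pos (by rw [natDegree_cyclotomic, hφ]; exact hφ0),
        natDegree_cyclotomic, hφ, cyclotomic_prime_pow_eq_geom_sum hp.out, finsetSum_coeff]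
      simp only [← pow_mul, coeff_X_pow]
      split_ifs with hn
      · subst hn
        rw [pow_zero, one_mul]
        have e : (∑ x ∈ Finset.range p, if p - 1 - 1 = 1 * x then (1 : ℚ_[p]) else 0) =
            ∑ x ∈ Finset.range p, if x = p - 2 then (1 : ℚ_[p]) else 0 := by
          refine Finset.sum_congr rfl fun x _ => ?_
          congr 1
          rw [one_mul]
          exact propext ⟨fun h => by omega, fun h => by omega⟩
        rw [e, Finset.sum_ite_eq' , if_pos (Finset.mem_range.2 (by omega))]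
      · refine Finset.sum_eq_zero fun x _ => ?_
        rw [if_neg]
        intro h
        have h1 : p ^ n ∣ p ^ n * (p - 1) - 1 := ⟨x, h⟩
        have h2 : p ^ n ∣ p ^ n * (p - 1) := ⟨_, rfl⟩
        have h3 : p ^ n ∣ 1 := by
          have := Nat.dvd_sub h2 h1
          rwa [Nat.sub_sub_self hφ0] at this
        have h4 := Nat.dvd_one.1 h3
        rcases Nat.pow_eq_one.1 h4 with h5 | h5
        · omega
        · exact hn h5
    rw [hnext]
    split_ifs with hn
    · subst hn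
      have h1 : ‖((Nat.totient (p ^ (0 + 1)) : ℕ) : ℚ_[p])‖ = 1 := by
        rw [hφ, pow_zero, one_mul]
        exact Padic.norm_natCast_p_sub_one
      rw [smul_eq_mul, norm_mul, norm_inv, norm_neg, norm_one, h1]
      norm_num
    · simp

theorem norm_tr_lam {z : PadicAlgCl p} {n : ℕ} (hz : IsPrimitiveRoot z (p ^ (n + 1))) (i : ℕ) :
    ‖tr ((1 - z) ^ i)‖ ≤ 1 := by
  have h1 : (1 - z) ^ i = ∑ k ∈ Finset.range (i + 1),
      ((-1 : ℤ) ^ k * (i.choose k : ℤ) : ℤ) • z ^ k := by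
    rw [sub_eq_neg_add, add_pow]
    refine Finset.sum_congr rfl fun k _ => ?_
    rw [one_pow, mul_one, neg_pow, zsmul_eq_mul]
    push_cast
    ring
  rw [h1, tr, map_sum]
  refine IsUltrametricDist.norm_sum_le_of_forall_le_of_nonneg zero_le_one fun k _ => ?_
  rw [map_zsmul, zsmul_eq_mul, norm_mul]
  have h2 : ‖tr (z ^ k)‖ ≤ 1 := by
    have h3 : orderOf (z ^ k) ∣ p ^ (n + 1) := by
      apply orderOf_dvd_of_pow_eq_one
      rw [← pow_mul, mul_comm, pow_mul, hz.pow_eq_one, one_pow]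
    obtain ⟨s, -, hs⟩ := (Nat.dvd_prime_pow hp.out).1 h3
    exact norm_tr_root (s := s) (hs ▸ IsPrimitiveRoot.orderOf (z ^ k))
  calc ‖((((-1 : ℤ) ^ k * (i.choose k : ℤ) : ℤ)) : ℚ_[p])‖ * ‖tr (z ^ k)‖ ≤ 1 * 1 :=
        mul_le_mul (Padic.norm_int_le_one _) h2 (norm_nonneg _) zero_le_one
    _ = 1 := one_mul 1

/-- The normalised trace is bounded on the cyclotomic fields, uniformly. -/
theorem norm_tr_le {z : PadicAlgCl p} {n : ℕ} (hz : IsPrimitiveRoot z (p ^ (n + 1)))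
    (y : PadicAlgCl p) (hy : y ∈ ℚ_[p]⟮z⟯) : ‖tr y‖ ≤ p * ‖y‖ := by
  set φ := Nat.totient (p ^ (n + 1)) with hφ
  have hp0 : (0 : ℝ) < p := by exact_mod_cast hp.out.pos
  obtain ⟨hl0, hl1, hφ0⟩ := norm_lam hz
  -- coordinates
  have hint : IsIntegral ℚ_[p] (1 - z) := Algebra.IsIntegral.isIntegral _
  have hy' : y ∈ Algebra.adjoin ℚ_[p] {1 - z} := by
    have h1 : y ∈ ℚ_[p]⟮1 - z⟯ := by
      have h2 : ℚ_[p]⟮z⟯ ≤ ℚ_[p]⟮1 - z⟯ := by
        rw [adjoin_simple_le_iff]
        have h3 : z = 1 - (1 - z) := by ring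
        rw [h3]
        exact sub_mem (one_mem _) (by
          have := mem_adjoin_simple_self ℚ_[p] (1 - (1 - (1 - z)))
          have e : (1 : PadicAlgCl p) - (1 - (1 - z)) = 1 - z := by ring
          rwa [e] at this ⊢)
      exact h2 hy
    rwa [← IntermediateField.mem_toSubalgebra,
      adjoin_simple_toSubalgebra_of_isAlgebraic hint.isAlgebraic] at h1
  obtain ⟨f, hf⟩ := Algebra.adjoin_mem_exists_aeval ℚ_[p] (1 - z) hy'
  have hdegz : (minpoly ℚ_[p] (1 - z)).natDegree ≤ φ := by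
    have h1 : aeval (1 - z) ((cyclotomic (p ^ (n + 1)) ℚ_[p]).comp (1 - X)) = 0 := by
      rw [aeval_comp]
      have : aeval (1 - z) ((1 : ℚ_[p][X]) - X) = z := by simp
      rw [this, ← eval_map_algebraMap, map_cyclotomic]
      exact hz.isRoot_cyclotomic (pow_pos hp.out.pos _)
    have h2 : (cyclotomic (p ^ (n + 1)) ℚ_[p]).comp (1 - X) ≠ 0 := by
      intro h
      have h3 : ((cyclotomic (p ^ (n + 1)) ℚ_[p]).comp (1 - X)).comp (1 - X) = 0 := by
        rw [h, zero_comp]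
      rw [comp_assoc] at h3
      have h4 : ((1 : ℚ_[p][X]) - X).comp (1 - X) = X := by simp
      rw [h4, comp_X] at h3
      exact cyclotomic_ne_zero _ _ h3
    refine (natDegree_le_of_dvd (minpoly.dvd _ _ h1) h2).trans ?_
    refine natDegree_comp_le.trans ?_
    rw [natDegree_cyclotomic]
    have h5 : ((1 : ℚ_[p][X]) - X).natDegree ≤ 1 := by
      refine (natDegree_sub_le _ _).trans ?_
      simp
    calc φ * ((1 : ℚ_[p][X]) - X).natDegree ≤ φ * 1 := Nat.mul_le_mul_left _ h5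
      _ = φ := mul_one _
  set g := f %ₘ minpoly ℚ_[p] (1 - z) with hg
  have hgy : aeval (1 - z) g = y := by
    rw [hg, ← hf]
    exact aeval_modByMonic_eq_self_of_root (minpoly.aeval _ _)
  have hgdeg : g.natDegree < φ := by
    refine lt_of_lt_of_le (natDegree_modByMonic_lt f (minpoly.monic hint) ?_) hdegz
    exact minpoly.ne_one _ _
  have hsum : ∑ i ∈ Finset.range φ, algebraMap ℚ_[p] (PadicAlgCl p) (g.coeff i) * (1 - z) ^ i =
      y := by
    rw [← hgy, aeval_eq_sum_range' hgdeg]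
    exact Finset.sum_congr rfl fun i _ => by rw [Algebra.smul_def]
  have hb : ∀ i < φ, ‖g.coeff i‖ ≤ p * ‖y‖ := by
    intro i hi
    have h1 := ortho hz g.coeff i hi
    rw [← hφ, hsum] at h1
    have h2 : (p : ℝ)⁻¹ ≤ ‖1 - z‖ ^ i := by
      rw [← norm_one_sub hz]
      exact pow_le_pow_of_le_one hl0.le hl1 hi.le
    have h3 : ‖g.coeff i‖ * (p : ℝ)⁻¹ ≤ ‖y‖ :=
      (mul_le_mul_of_nonneg_left h2 (norm_nonneg _)).trans h1
    rw [← div_eq_mul_inv, div_le_iff₀ hp0] at h3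
    linarith
  rw [← hsum, tr, map_sum]
  refine IsUltrametricDist.norm_sum_le_of_forall_le_of_nonneg (by positivity) fun i hi => ?_
  rw [← Algebra.smul_def, map_smul, smul_eq_mul, norm_mul, hsum]
  calc ‖g.coeff i‖ * ‖tr ((1 - z) ^ i)‖ ≤ (p * ‖y‖) * 1 :=
        mul_le_mul (hb i (Finset.mem_range.1 hi)) (norm_tr_lam hz i) (norm_nonneg _)
          (by positivity)
    _ = p * ‖y‖ := mul_one _

end Pool.Agent.X291.DR
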