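import Pool.Agent.X291.DR.Eig
import Pool.Agent.Y802.Cyc

/-! Cyclotomic characters, local and global. -/

set_option autoImplicit false

open Polynomial

namespace Pool.Agent.X291.DR

open Pool.Agent.Y802

variable {p : ℕ} [hp : Fact p.Prime]

theorem chi_spec {K : Type} [Field K] [CharZero K] (σ : Gal(AlgebraicClosure K/K)) (n a : ℕ)
    (h : (p : ℤ_[p]) ^ n ∣ ((chi K p σ : ℤ_[p]ˣ) : ℤ_[p]) - a) (z : AlgebraicClosure K)
    (hz : z ^ (p ^ n) = 1) : σ z = z ^ a := by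
  have : CharZero (AlgebraicClosure K) := charZero_of_injective_algebraMap
    (algebraMap K (AlgebraicClosure K)).injective
  have h1 := cyclotomicCharacter.spec p
    (MulSemiringAction.toRingAut Gal(AlgebraicClosure K/K) (AlgebraicClosure K) σ) z hz
  change σ z = z ^ (PadicInt.toZModPow n ((chi K p σ : ℤ_[p]ˣ) : ℤ_[p])).val at h1
  have h2 : PadicInt.toZModPow n ((chi K p σ : ℤ_[p]ˣ) : ℤ_[p]) = (a : ZMod (p ^ n)) := by
    rw [← sub_eq_zero, ← map_natCast (PadicInt.toZModPow n), ← map_sub, ← RingHom.mem_ker,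
      PadicInt.ker_toZModPow, Ideal.mem_span_singleton]
    exact h
  rw [h1, h2, ZMod.val_natCast]
  conv_rhs => rw [← Nat.div_add_mod a (p ^ n), pow_add, pow_mul, hz, one_pow, one_mul]

/-- The local cyclotomic character. -/
noncomputable def cl (τ : Gp p) : ℤ_[p] := ((chi ℚ_[p] p τ : ℤ_[p]ˣ) : ℤ_[p])

theorem cycAt_cl (τ : Gp p) : CycAt τ (cl τ) := fun n a h z hz => chi_spec τ n a h z hz

theorem cl_ne_zero (τ : Gp p) : cl τ ≠ 0 := (chi ℚ_[p] p τ).ne_zero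

theorem cl_mul (σ τ : Gp p) : cl (σ * τ) = cl σ * cl τ := by
  rw [cl, cl, cl, map_mul, Units.val_mul]

theorem root_pow_inj {n a a' : ℕ} {z : PadicAlgCl p} (hu : IsPrimitiveRoot z (p ^ n))
    (h1 : z ^ a = z ^ a') : (p : ℤ_[p]) ^ n ∣ (a : ℤ_[p]) - a' := by
  have h2 : a ≡ a' [MOD p ^ n] := by
    have h3 := (hu.isUnit (pow_ne_zero _ hp.out.ne_zero))
    have h4 : (h3.unit) ^ a = (h3.unit) ^ a' := by
      apply Units.ext
      rw [Units.val_pow_eq_pow_val, Units.val_pow_eq_pow_val, IsUnit.unit_spec, h1]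
    have h5 := pow_eq_pow_iff_modEq.1 h4
    have h6 : orderOf h3.unit = p ^ n := by
      rw [← orderOf_units, IsUnit.unit_spec]
      exact hu.eq_orderOf.symm
    rwa [h6] at h5
  have h4 : (p ^ n : ℤ) ∣ (a : ℤ) - a' := by
    have h5 := (Nat.modEq_iff_dvd.1 h2.symm)
    exact_mod_cast h5
  have h6 := (PadicInt.pow_p_dvd_int_iff (p := p) n ((a : ℤ) - a')).2 h4
  push_cast at h6
  exact h6

theorem cycAt_unique {τ : Gp p} {c c' : ℤ_[p]} (h : CycAt τ c) (h' : CycAt τ c') : c = c' := by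
  rw [← sub_eq_zero]
  rw [← norm_le_zero_iff]
  refine ge_of_tendsto' (pow_inv_tendsto (p := p)) (fun n => ?_)
  obtain ⟨a, ha⟩ := exists_nat_approx c n
  obtain ⟨a', ha'⟩ := exists_nat_approx c' n
  have h1 : zf p n ^ a = zf p n ^ a' := by
    rw [← h n a ha _ (zf_prim n).pow_eq_one, ← h' n a' ha' _ (zf_prim n).pow_eq_one]
  have h3 := root_pow_inj (zf_prim n) h1
  have h4 : (p : ℤ_[p]) ^ n ∣ c - c' := by
    have h5 : c - c' = (c - a) + ((a : ℤ_[p]) - a') - (c' - a') := by ring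
    rw [h5]
    exact dvd_sub (dvd_add ha h3) ha'
  have h5 := (PadicInt.norm_le_pow_iff_mem_span_pow (c - c') n).2 (Ideal.mem_span_singleton.2 h4)
  rwa [zpow_neg, zpow_natCast, ← inv_pow] at h5

/-- There are elements of the Galois group which fix the `p ^ n`-th roots of unity and on which
the cyclotomic character is `1 + p ^ n` modulo `p ^ (n + 1)`. -/
theorem exists_gal (n : ℕ) (hn : n ≠ 0) :
    ∃ σ : Gp p, Fix n σ ∧ (p : ℤ_[p]) ^ (n + 1) ∣ cl σ - (1 + (p : ℤ_[p]) ^ n) := by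
  have hz := zf_prim (p := p) (n + 1)
  have hcop : Nat.Coprime (1 + p ^ n) (p ^ (n + 1)) := by
    apply Nat.Coprime.pow_right
    rw [Nat.coprime_comm, hp.out.coprime_iff_not_dvd]
    intro h
    have h1 : p ∣ p ^ n := dvd_pow_self p hn
    have h2 : p ∣ 1 := (Nat.dvd_add_left h1).1 h
    exact hp.out.one_lt.not_ge (Nat.le_of_dvd one_pos h2)
  have hz' := hz.pow_of_coprime _ hcop
  have hconj : IsConjRoot ℚ_[p] (zf p (n + 1) ^ (1 + p ^ n)) (zf p (n + 1)) := by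
    rw [IsConjRoot, minpoly_root hz, minpoly_root hz']
  obtain ⟨σ, hσ⟩ := hconj.exists_algEquiv
  refine ⟨σ, ?_, ?_⟩
  · intro z hzn
    have : NeZero (p ^ (n + 1)) := ⟨pow_ne_zero _ hp.out.ne_zero⟩
    have : NeZero (p ^ n) := ⟨pow_ne_zero _ hp.out.ne_zero⟩
    have h1 := zf_prim (p := p) n
    obtain ⟨i, -, hi⟩ := h1.eq_pow_of_pow_eq_one hzn
    rw [← hi, ← zf_succ, map_pow, map_pow, hσ, ← pow_mul, ← pow_mul, ← pow_mul]
    have h2 : (1 + p ^ n) * (p * i) = p * i + p ^ (n + 1) * i := by ring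
    rw [h2, pow_add, pow_mul _ (p ^ (n + 1)), hz.pow_eq_one, one_pow, mul_one]
  · obtain ⟨b, hb⟩ := exists_nat_approx (cl σ) (n + 1)
    have h1 := cycAt_cl σ (n + 1) b hb _ hz.pow_eq_one
    rw [hσ] at h1
    have h2 := root_pow_inj hz h1.symm
    have h3 : cl σ - (1 + (p : ℤ_[p]) ^ n) = (cl σ - b) + ((b : ℤ_[p]) - ((1 + p ^ n : ℕ) : ℤ_[p])) := by
      push_cast
      ring
    rw [h3]
    exact dvd_add hb h2

/-- A nonzero power of the cyclotomic character is not trivial on the elements fixing the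
`p ^ n`-th roots of unity. -/
theorem exists_pow_ne (n M : ℕ) (hM : M ≠ 0) : ∃ σ : Gp p, Fix n σ ∧ cl σ ^ M ≠ 1 := by
  obtain ⟨k, hk⟩ : ∃ k : ℕ, M < p ^ k := ⟨M, Nat.lt_pow_self hp.out.one_lt⟩
  set N := n + k + 1 with hN
  obtain ⟨σ, hσ1, hσ2⟩ := exists_gal (p := p) N (by omega)
  refine ⟨σ, ?_, ?_⟩
  · intro z hz
    apply hσ1
    rw [hN, add_assoc, pow_add, pow_mul, hz, one_pow]
  · intro h
    obtain ⟨d, hd⟩ := hσ2
    have h1 : cl σ = 1 + (p : ℤ_[p]) ^ N * (1 + p * d) := by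
      linear_combination hd
    obtain ⟨y, hy⟩ := one_add_pow_aux ((p : ℤ_[p]) ^ N * (1 + p * d)) M
    rw [← h1, h] at hy
    have hp0 : (p : ℤ_[p]) ^ N ≠ 0 := pow_ne_zero _ (by exact_mod_cast hp.out.ne_zero)
    have h2 : (p : ℤ_[p]) ^ N * (M * (1 + p * d)) =
        (p : ℤ_[p]) ^ N * ((p : ℤ_[p]) ^ N * (-(1 + p * d) ^ 2 * y)) := by
      linear_combination -hy
    have h3 := mul_left_cancel₀ hp0 h2
    have h4 : IsUnit (1 + (p : ℤ_[p]) * d) := by
      rcases IsLocalRing.isUnit_or_isUnit_of_add_one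
        (show (1 + (p : ℤ_[p]) * d) + (p : ℤ_[p]) * (-d) = 1 by ring) with h5 | h5
      · exact h5
      · exact absurd (isUnit_of_mul_isUnit_left h5) PadicInt.prime_p.not_unit
    have h5 : (p : ℤ_[p]) ^ N ∣ (M : ℤ_[p]) := by
      rw [← h4.dvd_mul_right, h3]
      exact Dvd.intro _ rfl
    have h6 := nat_dvd_of_padic h5
    have h7 := Nat.le_of_dvd (Nat.pos_of_ne_zero hM) h6
    have h8 : p ^ k ≤ p ^ N := Nat.pow_le_pow_right hp.out.pos (by omega)
    omega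

end Pool.Agent.X291.DR
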