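import Mathlib

/-! Functoriality of the period rings. -/

set_option autoImplicit false

open Ideal WittVector

namespace Pool.Agent.X291.DR

section completion

variable {A B : Type*} [CommRing A] [CommRing B]

theorem complMap_aux (I : Ideal A) (J : Ideal B) (g : A →+* B) (h : I ≤ J.comap g) {m n : ℕ}
    (hle : m ≤ n) :
    (Ideal.Quotient.factorPow J hle).comp ((Ideal.quotientMap (J ^ n) g
      ((Ideal.pow_right_mono h n).trans (Ideal.le_comap_pow g n))).comp
        (AdicCompletion.evalₐ I n : AdicCompletion I A →+* A ⧸ I ^ n)) =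
    (Ideal.quotientMap (J ^ m) g
      ((Ideal.pow_right_mono h m).trans (Ideal.le_comap_pow g m))).comp
        (AdicCompletion.evalₐ I m : AdicCompletion I A →+* A ⧸ I ^ m) := by
  ext x
  obtain ⟨a, rfl⟩ := AdicCompletion.mk_surjective I A x
  simp only [RingHom.comp_apply, RingHom.coe_coe, AdicCompletion.evalₐ_mk,
    Ideal.quotientMap_mk]
  rw [← Ideal.quotientMap_mk (J := I ^ m) (I := J ^ m) (f := g)
    (H := (Ideal.pow_right_mono h m).trans (Ideal.le_comap_pow g m))]
  rw [← AdicCompletion.Ideal.mk_eq_mk I hle a]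
  simp

/-- The map of adic completions induced by a ring homomorphism `g` with `g I ⊆ J`. -/
noncomputable def complMap (I : Ideal A) (J : Ideal B) (g : A →+* B) (h : I ≤ J.comap g) :
    AdicCompletion I A →+* AdicCompletion J B :=
  AdicCompletion.liftRingHom J
    (fun n => (Ideal.quotientMap (J ^ n) g
      ((Ideal.pow_right_mono h n).trans (Ideal.le_comap_pow g n))).comp
        (AdicCompletion.evalₐ I n : AdicCompletion I A →+* A ⧸ I ^ n))
    (complMap_aux I J g h)

theorem evalₐ_complMap (I : Ideal A) (J : Ideal B) (g : A →+* B) (h : I ≤ J.comap g) (n : ℕ)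
    (x : AdicCompletion I A) :
    AdicCompletion.evalₐ J n (complMap I J g h x) =
      Ideal.quotientMap (J ^ n) g ((Ideal.pow_right_mono h n).trans (Ideal.le_comap_pow g n))
        (AdicCompletion.evalₐ I n x) := by
  rw [complMap, AdicCompletion.evalₐ_liftRingHom _ _ (complMap_aux I J g h)]
  rfl

theorem complMap_of (I : Ideal A) (J : Ideal B) (g : A →+* B) (h : I ≤ J.comap g) (a : A) :
    complMap I J g h (AdicCompletion.of I A a) = AdicCompletion.of J B (g a) := by
  apply AdicCompletion.ext_evalₐ
  intro n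
  rw [evalₐ_complMap, AdicCompletion.evalₐ_of, AdicCompletion.evalₐ_of, Ideal.quotientMap_mk]

end completion

section bdr

variable {R : Type} [CommRing R] {p : ℕ} [hp : Fact p.Prime] [hu : Fact ¬IsUnit (p : R)]

/-- The map on `R / p` induced by a ring endomorphism of `R`. -/
noncomputable def modPMap (f : R →+* R) : ModP R p →+* ModP R p :=
  Ideal.quotientMap _ f (by
    rw [Ideal.span_le, Set.singleton_subset_iff]
    simp)

/-- The map on the tilt `R♭` induced by a ring endomorphism of `R`. -/
noncomputable def tiltMap (f : R →+* R) : PreTilt R p →+* PreTilt R p :=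
  Perfection.map p (modPMap f)

/-- The map on `A_inf = W(R♭)` induced by a ring endomorphism of `R`. -/
noncomputable def ainfMap (f : R →+* R) : WittVector p (PreTilt R p) →+* WittVector p (PreTilt R p) :=
  WittVector.map (tiltMap f)

variable (R p) in
/-- `A_inf[1/p]`. -/
abbrev AInf1 : Type := Localization.Away (p : WittVector p (PreTilt R p))

/-- The map on `A_inf[1/p]` induced by a ring endomorphism of `R`. -/
noncomputable def ainf1Map (f : R →+* R) : AInf1 R p →+* AInf1 R p :=
  Localization.awayLift ((algebraMap _ _).comp (ainfMap f)) (p : WittVector p (PreTilt R p))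
    (by simpa using IsLocalization.Away.algebraMap_isUnit (p : WittVector p (PreTilt R p)))

theorem ainf1Map_algebraMap (f : R →+* R) (x : WittVector p (PreTilt R p)) :
    ainf1Map f (algebraMap _ _ x) = algebraMap _ (AInf1 R p) (ainfMap f x) := by
  simp [ainf1Map, Localization.awayLift, IsLocalization.Away.lift_eq]

theorem mk_modPMap (f : R →+* R) (x : R) :
    modPMap (p := p) f (Ideal.Quotient.mk _ x) = Ideal.Quotient.mk _ (f x) := by
  rw [modPMap, Ideal.quotientMap_mk]

theorem coeff_tiltMap (f : R →+* R) (x : PreTilt R p) (n : ℕ) :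
    PreTilt.coeff n (tiltMap f x) = modPMap f (PreTilt.coeff n x) := rfl

theorem modPMap_comp (f g : R →+* R) (x : ModP R p) :
    modPMap f (modPMap g x) = modPMap (f.comp g) x := by
  obtain ⟨y, rfl⟩ := Ideal.Quotient.mk_surjective x
  rw [mk_modPMap, mk_modPMap, mk_modPMap]
  rfl

theorem modPMap_id (x : ModP R p) : modPMap (RingHom.id R) x = x := by
  obtain ⟨y, rfl⟩ := Ideal.Quotient.mk_surjective x
  rw [mk_modPMap]
  rfl

theorem tiltMap_comp (f g : R →+* R) (x : PreTilt R p) :
    tiltMap f (tiltMap g x) = tiltMap (f.comp g) x := by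
  apply Perfection.ext
  intro n
  exact modPMap_comp f g _

theorem tiltMap_id (x : PreTilt R p) : tiltMap (RingHom.id R) x = x := by
  apply Perfection.ext
  intro n
  exact modPMap_id _

theorem ainfMap_comp (f g : R →+* R) (x : WittVector p (PreTilt R p)) :
    ainfMap f (ainfMap g x) = ainfMap (f.comp g) x := by
  ext n
  rw [ainfMap, WittVector.map_coeff, ainfMap, WittVector.map_coeff, ainfMap, WittVector.map_coeff]
  exact tiltMap_comp f g _

theorem ainfMap_id (x : WittVector p (PreTilt R p)) : ainfMap (RingHom.id R) x = x := by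
  ext n
  rw [ainfMap, WittVector.map_coeff]
  exact tiltMap_id _

theorem ainf1Map_comp (f g : R →+* R) (x : AInf1 R p) :
    ainf1Map f (ainf1Map g x) = ainf1Map (f.comp g) x := by
  have h : ((ainf1Map f).comp (ainf1Map g) : AInf1 R p →+* AInf1 R p) = ainf1Map (f.comp g) := by
    apply IsLocalization.ringHom_ext (Submonoid.powers (p : WittVector p (PreTilt R p)))
    ext x
    simp only [RingHom.comp_apply]
    rw [ainf1Map_algebraMap, ainf1Map_algebraMap, ainf1Map_algebraMap, ainfMap_comp]
  exact congrArg (fun k : AInf1 R p →+* AInf1 R p => k x) h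

theorem ainf1Map_id (x : AInf1 R p) : ainf1Map (RingHom.id R) x = x := by
  have h : (ainf1Map (RingHom.id R) : AInf1 R p →+* AInf1 R p) = RingHom.id _ := by
    apply IsLocalization.ringHom_ext (Submonoid.powers (p : WittVector p (PreTilt R p)))
    ext x
    simp only [RingHom.comp_apply, RingHom.id_apply]
    rw [ainf1Map_algebraMap, ainfMap_id]
  exact congrArg (fun k : AInf1 R p →+* AInf1 R p => k x) h

variable [hc : IsAdicComplete (span {(p : R)}) R]

theorem untilt_tiltMap (f : R →+* R) (x : PreTilt R p) :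
    (tiltMap f x).untilt = f x.untilt := by
  obtain ⟨y, rfl⟩ := (Perfection.quotientMulEquiv p (span {(p : R)})).surjective x
  have h1 : tiltMap f (Perfection.quotientMulEquiv p (span {(p : R)}) y) =
      Perfection.quotientMulEquiv p (span {(p : R)}) (Perfection.mapMonoidHom p (f : R →* R) y) := by
    apply Perfection.ext
    intro n
    rfl
  rw [h1]
  change Perfection.teichmuller₀ p _ (Perfection.mapMonoidHom p _ _) =
    f (Perfection.teichmuller₀ p _ (Perfection.mapMonoidHom p _ _))
  rw [Perfection.teichmuller₀_mapMonoidHom_idealQuotientMk,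
    Perfection.teichmuller₀_mapMonoidHom_idealQuotientMk]
  rfl

theorem theta_ainfMap (f : R →+* R) (x : WittVector p (PreTilt R p)) :
    fontaineTheta R p (ainfMap f x) = f (fontaineTheta R p x) := by
  rw [IsHausdorff.eq_iff_smodEq (I := span {(p : R)})]
  intro n
  rw [smul_eq_mul, Ideal.mul_top]
  have h : ((Ideal.Quotient.mk (span {(p : R)} ^ n)).comp ((fontaineTheta R p).comp (ainfMap f))) =
      ((Ideal.Quotient.mk (span {(p : R)} ^ n)).comp (f.comp (fontaineTheta R p))) := by
    apply eq_of_apply_teichmuller_eq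
    · refine ⟨n, ?_⟩
      rw [← map_natCast (Ideal.Quotient.mk (span {(p : R)} ^ n)), ← map_pow,
        Ideal.Quotient.eq_zero_iff_mem]
      exact Ideal.pow_mem_pow (Ideal.mem_span_singleton_self _) _
    · intro y
      simp only [RingHom.comp_apply]
      rw [ainfMap, WittVector.map_teichmuller, fontaineTheta_teichmuller,
        fontaineTheta_teichmuller, untilt_tiltMap]
  exact congrArg (fun k : WittVector p (PreTilt R p) →+* R ⧸ (span {(p : R)} ^ n) => k x) h

variable (R p) in
/-- The kernel of the map `θ : A_inf[1/p] → R[1/p]`. -/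
noncomputable abbrev kerTheta : Ideal (AInf1 R p) := RingHom.ker (fontaineThetaInvertP R p)

theorem thetaInvertP_algebraMap (x : WittVector p (PreTilt R p)) :
    fontaineThetaInvertP R p (algebraMap _ _ x) = algebraMap _ _ (fontaineTheta R p x) := by
  simp [fontaineThetaInvertP, Localization.awayLift, IsLocalization.Away.lift_eq]

theorem kerTheta_le (f : R →+* R) : kerTheta R p ≤ (kerTheta R p).comap (ainf1Map f) := by
  intro x hx
  rw [RingHom.mem_ker] at hx
  rw [Ideal.mem_comap, RingHom.mem_ker]
  set F : Localization.Away (p : R) →+* Localization.Away (p : R) :=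
    Localization.awayLift ((algebraMap _ _).comp f) (p : R)
      (by simpa using IsLocalization.Away.algebraMap_isUnit (p : R)) with hF
  have h : (fontaineThetaInvertP R p).comp (ainf1Map f) = F.comp (fontaineThetaInvertP R p) := by
    apply IsLocalization.ringHom_ext (Submonoid.powers (p : WittVector p (PreTilt R p)))
    ext y
    simp only [RingHom.comp_apply]
    rw [ainf1Map_algebraMap, thetaInvertP_algebraMap, thetaInvertP_algebraMap, theta_ainfMap]
    simp [hF, Localization.awayLift, IsLocalization.Away.lift_eq]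
  have h2 := congrArg (fun k : AInf1 R p →+* Localization.Away (p : R) => k x) h
  simp only [RingHom.comp_apply] at h2
  rw [h2, hx, map_zero]

/-- The map on `B_dR⁺` induced by a ring endomorphism of `R`. -/
noncomputable def bdrPlusMap (f : R →+* R) : BDeRhamPlus R p →+* BDeRhamPlus R p :=
  complMap (kerTheta R p) (kerTheta R p) (ainf1Map f) (kerTheta_le f)

variable (R p) in
/-- The natural map `A_inf[1/p] → B_dR⁺`. -/
noncomputable def toPlus : AInf1 R p →+* BDeRhamPlus R p :=
  algebraMap (AInf1 R p) (AdicCompletion (kerTheta R p) (AInf1 R p))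

theorem bdrPlusMap_toPlus (f : R →+* R) (a : AInf1 R p) :
    bdrPlusMap f (toPlus R p a) = toPlus R p (ainf1Map f a) :=
  complMap_of _ _ _ _ _

variable (R p) in
/-- The multiplicative set of `B_dR⁺` inverted in `B_dR`. -/
noncomputable def bdrSubmonoid : Submonoid (BDeRhamPlus R p) :=
  Submonoid.closure (AdicCompletion.of (kerTheta R p) _ '' {a | kerTheta R p = Ideal.span {a}})

theorem toPlus_mem {a : AInf1 R p} (ha : kerTheta R p = Ideal.span {a}) :
    toPlus R p a ∈ bdrSubmonoid R p :=
  Submonoid.subset_closure ⟨a, ha, rfl⟩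

theorem bdrSubmonoid_le_of {S : Submonoid (BDeRhamPlus R p)}
    (h : ∀ a : AInf1 R p, kerTheta R p = Ideal.span {a} → toPlus R p a ∈ S) :
    bdrSubmonoid R p ≤ S := by
  refine (Submonoid.closure_le (M := BDeRhamPlus R p)).2 ?_
  rintro _ ⟨a, ha, rfl⟩
  exact h a ha

variable (R p) in
/-- The ring structure of `B_dR`, a localization of `B_dR⁺`. -/
noncomputable def ringBDeRham : CommRing (BDeRham R p) :=
  (inferInstance : CommRing (Localization (bdrSubmonoid R p)))

noncomputable instance instRingBDeRham : CommRing (BDeRham R p) := ringBDeRham R p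

variable (R p) in
/-- `B_dR` as an algebra over `B_dR⁺`. -/
noncomputable def algBDeRham : Algebra (BDeRhamPlus R p) (BDeRham R p) :=
  (inferInstance : Algebra (BDeRhamPlus R p) (Localization (bdrSubmonoid R p)))

noncomputable instance instAlgBDeRham : Algebra (BDeRhamPlus R p) (BDeRham R p) := algBDeRham R p

instance instLocBDeRham : IsLocalization (bdrSubmonoid R p) (BDeRham R p) :=
  (inferInstance : IsLocalization (bdrSubmonoid R p) (Localization (bdrSubmonoid R p)))

theorem generator_ainf1Map (f : R ≃+* R) {a : AInf1 R p} (ha : kerTheta R p = Ideal.span {a}) :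
    kerTheta R p = Ideal.span {ainf1Map (f : R →+* R) a} := by
  apply le_antisymm
  · intro x hx
    have h1 := kerTheta_le (f.symm : R →+* R) hx
    rw [Ideal.mem_comap, ha, Ideal.mem_span_singleton] at h1
    obtain ⟨c, hc⟩ := h1
    rw [Ideal.mem_span_singleton]
    refine ⟨ainf1Map (f : R →+* R) c, ?_⟩
    rw [← map_mul, ← hc, ainf1Map_comp]
    have h2 : ((f : R →+* R).comp (f.symm : R →+* R)) = RingHom.id R := by
      ext y
      simp
    rw [h2, ainf1Map_id]
  · rw [Ideal.span_le, Set.singleton_subset_iff]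
    have h3 : a ∈ kerTheta R p := by
      rw [ha]
      exact Ideal.mem_span_singleton_self a
    have h4 := kerTheta_le (f : R →+* R) h3
    rw [Ideal.mem_comap] at h4
    exact h4

theorem bdrSubmonoid_le (f : R ≃+* R) :
    bdrSubmonoid R p ≤ (bdrSubmonoid R p).comap (bdrPlusMap (f : R →+* R)) := by
  apply bdrSubmonoid_le_of
  intro a ha
  rw [Submonoid.mem_comap, bdrPlusMap_toPlus]
  exact toPlus_mem (generator_ainf1Map f ha)

/-- The map on `B_dR` induced by a ring automorphism of `R`. -/
noncomputable def bdrMap (f : R ≃+* R) : BDeRham R p →+* BDeRham R p :=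
  IsLocalization.map (BDeRham R p) (bdrPlusMap (f : R →+* R)) (bdrSubmonoid_le (p := p) f)

theorem bdrMap_algebraMap (f : R ≃+* R) (x : BDeRhamPlus R p) :
    bdrMap (p := p) f (algebraMap (BDeRhamPlus R p) (BDeRham R p) x) =
      algebraMap (BDeRhamPlus R p) (BDeRham R p) (bdrPlusMap (f : R →+* R) x) :=
  IsLocalization.map_eq (bdrSubmonoid_le (p := p) f) x

variable (R p) in
/-- The structure map `ℤ_p = W(𝔽_p) → W(R♭) = A_inf`. -/
noncomputable def zpHom : ℤ_[p] →+* WittVector p (PreTilt R p) :=
  (WittVector.map (ZMod.castHom (dvd_refl p) (PreTilt R p))).comp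
    ((WittVector.equiv p).symm : ℤ_[p] →+* WittVector p (ZMod p))

theorem ainfMap_zpHom (f : R →+* R) (a : ℤ_[p]) : ainfMap f (zpHom R p a) = zpHom R p a := by
  ext n
  rw [ainfMap, WittVector.map_coeff, zpHom, RingHom.comp_apply, WittVector.map_coeff]
  generalize ((WittVector.equiv p).symm : ℤ_[p] →+* WittVector p (ZMod p)) a = b
  have h : (tiltMap f).comp (ZMod.castHom (dvd_refl p) (PreTilt R p)) =
      ZMod.castHom (dvd_refl p) (PreTilt R p) := Subsingleton.elim _ _
  exact congrArg (fun k : ZMod p →+* PreTilt R p => k (b.coeff n)) h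

theorem isUnit_zpHom (y : nonZeroDivisors ℤ_[p]) :
    IsUnit (((algebraMap _ (AInf1 R p)).comp (zpHom R p)) (y : ℤ_[p])) := by
  have hy : (y : ℤ_[p]) ≠ 0 := nonZeroDivisors.ne_zero y.2
  rw [PadicInt.unitCoeff_spec hy, map_mul, map_pow]
  refine IsUnit.mul ((PadicInt.unitCoeff hy).isUnit.map _) (IsUnit.pow _ ?_)
  rw [map_natCast, ← map_natCast (algebraMap (WittVector p (PreTilt R p)) (AInf1 R p))]
  exact IsLocalization.Away.algebraMap_isUnit (p : WittVector p (PreTilt R p))

variable (R p) in
/-- The structure map `ℚ_p → A_inf[1/p]`. -/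
noncomputable def qpHom : ℚ_[p] →+* AInf1 R p :=
  IsLocalization.lift (M := nonZeroDivisors ℤ_[p]) (isUnit_zpHom (R := R))

theorem qpHom_coe (a : ℤ_[p]) : qpHom R p (a : ℚ_[p]) = algebraMap _ (AInf1 R p) (zpHom R p a) :=
  IsLocalization.lift_eq _ _

theorem ainf1Map_qpHom (f : R →+* R) (a : ℚ_[p]) : ainf1Map f (qpHom R p a) = qpHom R p a := by
  have h : ((ainf1Map f).comp (qpHom R p) : ℚ_[p] →+* AInf1 R p) = qpHom R p := by
    apply IsLocalization.ringHom_ext (nonZeroDivisors ℤ_[p])
    ext x
    change ainf1Map f (qpHom R p (x : ℚ_[p])) = qpHom R p (x : ℚ_[p])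
    rw [qpHom_coe, ainf1Map_algebraMap, ainfMap_zpHom]
  exact congrArg (fun k : ℚ_[p] →+* AInf1 R p => k a) h

variable (R p) in
/-- The structure map `ℚ_p → B_dR`. -/
noncomputable def qpBdR : ℚ_[p] →+* BDeRham R p :=
  (algebraMap (BDeRhamPlus R p) (BDeRham R p)).comp ((toPlus R p).comp (qpHom R p))

theorem bdrMap_qpBdR (f : R ≃+* R) (a : ℚ_[p]) : bdrMap f (qpBdR R p a) = qpBdR R p a := by
  rw [qpBdR, RingHom.comp_apply, RingHom.comp_apply, bdrMap_algebraMap, bdrPlusMap_toPlus,
    ainf1Map_qpHom]

end bdr

end Pool.Agent.X291.DR
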