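import Pool.Agent.X291.DR.Inst
import Pool.Agent.X291.DR.Fun

/-!
# De Rham representations, and the definitions used in the counterexample

`F` is a field (a number field in the applications) with algebraic closure `F̄` and absolute Galois
group `G_F`; `l` is a prime number, `PadicAlgCl l` is an algebraic closure of `ℚ_l`, and
`Gp l` is the absolute Galois group of `ℚ_l`.
-/

set_option autoImplicit false

open scoped TensorProduct
open NumberField

namespace Pool.Agent.X291.DR

section BdR

variable (l : ℕ) [Fact l.Prime]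

/-- The ring of integers of `ℂ_l`. -/
def OC : Type := 𝓞_ℂ_[l]

/-- The ring structure of `OC l`. -/
noncomputable def ringOC : CommRing (OC l) := (inferInstance : CommRing 𝓞_ℂ_[l])

noncomputable instance instRingOC : CommRing (OC l) := ringOC l

instance instFactOC : Fact ¬IsUnit (l : OC l) := instFactInt (p := l)

instance instComplOC : IsAdicComplete (Ideal.span {(l : OC l)}) (OC l) := instComplInt (p := l)

/-- The inclusion of the ring of integers into `ℂ_l`. -/
noncomputable def incl : OC l →+* ℂ_[l] := (PadicComplexInt l).subtype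

/-- Fontaine's ring `B_dR`: Mathlib's `BDeRham` for the ring of integers of `ℂ_l`. -/
def BdR : Type := BDeRham (OC l) l

/-- The ring structure of `B_dR`. -/
noncomputable def ringBdR : CommRing (BdR l) := ringBDeRham (OC l) l

noncomputable instance instRingBdR : CommRing (BdR l) := ringBdR l

/-- `B_dR` as a `ℚ_l`-algebra, through `ℤ_l = W(𝔽_l) → W(R♭) = A_inf`. -/
noncomputable instance instAlgBdR : Algebra ℚ_[l] (BdR l) :=
  RingHom.toAlgebra (qpBdR (OC l) l : ℚ_[l] →+* BdR l)

variable {l}

theorem incl_injective : Function.Injective (incl l) := Subtype.val_injective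

theorem exists_galOC (τ : Gp l) : ∃ f : OC l ≃+* OC l, ∀ x, incl l (f x) = gC τ (incl l x) :=
  ⟨gR τ, fun _ => rfl⟩

/-- The action of `τ ∈ G_{ℚ_l}` on the ring of integers of `ℂ_l`: the automorphism induced by the
continuous extension `gC τ` of `τ` to `ℂ_l`. -/
noncomputable def galOC (τ : Gp l) : OC l ≃+* OC l := (exists_galOC τ).choose

theorem incl_galOC (τ : Gp l) (x : OC l) : incl l (galOC τ x) = gC τ (incl l x) :=
  (exists_galOC τ).choose_spec x

/-- The action of `τ ∈ G_{ℚ_l}` on `B_dR`, obtained by functoriality from the action of `τ` on the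
ring of integers of `ℂ_l`, as a ring homomorphism. -/
noncomputable def galRing (τ : Gp l) : BdR l →+* BdR l := bdrMap (galOC τ)

theorem galRing_smul (τ : Gp l) (a : ℚ_[l]) (x : BdR l) : galRing τ (a • x) = a • galRing τ x := by
  rw [Algebra.smul_def, Algebra.smul_def, map_mul]
  congr 1
  exact bdrMap_qpBdR (R := OC l) _ _

/-- The action of `τ ∈ G_{ℚ_l}` on `B_dR` as a `ℚ_l`-linear map. -/
noncomputable def galBdR (τ : Gp l) : BdR l →ₗ[ℚ_[l]] BdR l :=
  { (galRing τ).toAddMonoidHom with map_smul' := galRing_smul τ }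

end BdR

section Global

/-- The absolute Galois group of `F`. -/
abbrev GF (F : Type) [Field F] : Type := Gal(AlgebraicClosure F/F)

variable {F : Type} [Field F] {l : ℕ} [Fact l.Prime]

/-- The decomposition group attached to an embedding `j : F̄ → ℚ̄_l`, that is, the absolute Galois
group `G_{F_v}` of the completion `F_v` of `F` at the place `v ∣ l` defined by `j`: it consists of
the pairs `(σ, τ)` with `σ ∈ G_F`, `τ ∈ G_{ℚ_l}` and `j ∘ σ = τ ∘ j`. (Both projections are
injective; the image in `G_{ℚ_l}` is the group of the elements which fix `j(F)`.) -/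
def decGroup (j : AlgebraicClosure F →+* PadicAlgCl l) : Subgroup (GF F × Gp l) where
  carrier := {g | ∀ x : AlgebraicClosure F, j (g.1 x) = g.2 (j x)}
  one_mem' := fun _ => rfl
  mul_mem' := by
    intro a b ha hb x
    change j (a.1 (b.1 x)) = a.2 (b.2 (j x))
    rw [ha, hb]
  inv_mem' := by
    intro a ha x
    have h1 := ha (a.1⁻¹ x)
    have h2 : a.1 (a.1⁻¹ x) = x := a.1.apply_symm_apply x
    rw [h2] at h1
    change j (a.1⁻¹ x) = a.2⁻¹ (j x)
    rw [h1]
    exact (a.2.symm_apply_apply _).symm

/-- The completion `F_v` of `F` at the place defined by `j`, realised as the subfield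
`ℚ_l(j(F))` of `ℚ̄_l`. -/
noncomputable def localField (j : AlgebraicClosure F →+* PadicAlgCl l) :
    IntermediateField ℚ_[l] (PadicAlgCl l) :=
  IntermediateField.adjoin ℚ_[l] (Set.range fun x : F => j (algebraMap F (AlgebraicClosure F) x))

variable {E : Type} [Field E] [Algebra ℚ_[l] E] {n : ℕ}

/-- `D_dR(ρ|_{G_{F_v}}) = (V ⊗ B_dR)^{G_{F_v}}` for `V = E ^ n` with the action `ρ`, where the tensor
product is taken over `ℚ_l`. -/
noncomputable def DdR (j : AlgebraicClosure F →+* PadicAlgCl l) (ρ : GF F →* GL (Fin n) E) :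
    Submodule E ((Fin n → E) ⊗[ℚ_[l]] BdR l) :=
  ⨅ g : decGroup j, LinearMap.eqLocus
    (TensorProduct.AlgebraTensorModule.map (Matrix.toLin' (ρ g.1.1 : Matrix (Fin n) (Fin n) E))
      (galBdR g.1.2)) LinearMap.id

/-- The dimension of `D_dR(ρ|_{G_{F_v}})` over `E`. -/
noncomputable def dimDdR (j : AlgebraicClosure F →+* PadicAlgCl l) (ρ : GF F →* GL (Fin n) E) :
    Cardinal := Module.rank E (DdR j ρ)

/-- `ρ|_{G_{F_v}}` is de Rham in the sense of Fontaine, where `v ∣ l` is the place of `F` defined by
the embedding `j` and `E` contains a finite extension of `ℚ_l` over which `ρ` is defined: the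
dimension of `D_dR(ρ|_{G_{F_v}})` over `E` is `n [F_v : ℚ_l]`. -/
def IsDeRhamAt (j : AlgebraicClosure F →+* PadicAlgCl l) (ρ : GF F →* GL (Fin n) E) : Prop :=
  dimDdR j ρ = n * Module.finrank ℚ_[l] (localField j)

end Global

section Frobenius

variable {F : Type} [Field F]

/-- `τ ∈ G_F` lies in the inertia group of the maximal ideal `P` of the ring of integers of `F̄`. -/
def InInertia (P : Ideal (𝓞 (AlgebraicClosure F))) (τ : GF F) : Prop :=
  ∀ x : 𝓞 (AlgebraicClosure F), τ • x - x ∈ P

/-- The cardinality of the residue field of `F` at the place below `P`. -/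
noncomputable def resCard (P : Ideal (𝓞 (AlgebraicClosure F))) : ℕ :=
  Nat.card (𝓞 F ⧸ P.comap (algebraMap (𝓞 F) (𝓞 (AlgebraicClosure F))))

/-- `σ ∈ G_F` is a geometric Frobenius element at the maximal ideal `P` of the ring of integers of
`F̄`: it induces the inverse of `x ↦ x ^ q` on the residue field of `P`, where `q` is the
cardinality of the residue field of `F` at the place below `P`. -/
def IsGeomFrob (P : Ideal (𝓞 (AlgebraicClosure F))) (σ : GF F) : Prop :=
  ∀ x : 𝓞 (AlgebraicClosure F), x - (σ • x) ^ resCard P ∈ P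

/-- `α` is an algebraic integer all of whose complex conjugates have absolute value
`q ^ (w / 2)`. -/
def IsWeilInteger {E : Type} [Field E] [CharZero E] (q : ℕ) (w : ℤ) (α : E) : Prop :=
  IsIntegral ℤ α ∧ ∀ z : ℂ, (Polynomial.aeval z) (minpoly ℚ α) = 0 → ‖z‖ = (q : ℝ) ^ ((w : ℝ) / 2)

/-- `ρ` is unramified at every finite place `v ∤ l` (so that the Weil–Deligne representation
attached to `ρ` at `v` is the restriction of `ρ` to the Weil group with `N = 0`), and for every such
`v` it is integral and pure of weight `w`: every eigenvalue of every geometric Frobenius element at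
`v` is an algebraic integer all of whose complex conjugates have absolute value `q_v ^ (w / 2)`. -/
def IsUnramifiedPure {E : Type} [Field E] [CharZero E] {n : ℕ} (l : ℕ) (w : ℤ)
    (ρ : GF F →* GL (Fin n) E) : Prop :=
  ∀ P : Ideal (𝓞 (AlgebraicClosure F)), P.IsMaximal → (l : 𝓞 (AlgebraicClosure F)) ∉ P →
    (∀ τ, InInertia P τ → ρ τ = 1) ∧
    ∀ σ, IsGeomFrob P σ → ∀ α : E,
      (ρ σ : Matrix (Fin n) (Fin n) E).charpoly.IsRoot α → IsWeilInteger (resCard P) w α

end Frobenius

end Pool.Agent.X291.DR
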