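import Pool.Agent.X291.DR.BdR

/-! Eigenvectors of the Galois group in `B_dR`. -/

set_option autoImplicit false

open Ideal WittVector

namespace Pool.Agent.X291.DR

variable {p : ℕ} [hp : Fact p.Prime]

theorem thC_qpHom (a : ℚ_[p]) : thC p (qpHom 𝓞_ℂ_[p] p a) = algebraMap ℚ_[p] ℂ_[p] a := by
  have h : (thC p).comp (qpHom 𝓞_ℂ_[p] p) = algebraMap ℚ_[p] ℂ_[p] := by
    apply IsLocalization.ringHom_ext (nonZeroDivisors ℤ_[p])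
    ext x
    change thC p (qpHom 𝓞_ℂ_[p] p (x : ℚ_[p])) = algebraMap ℚ_[p] ℂ_[p] (x : ℚ_[p])
    rw [qpHom_coe, thC_alg, th_zpHom]
  exact congrArg (fun k : ℚ_[p] →+* ℂ_[p] => k a) h

/-- The uniformiser `ζ_p - 1` entering the comparison. -/
noncomputable def pi1 (p : ℕ) [Fact p.Prime] : ℂ_[p] := ((zR p 1 - 1 : 𝓞_ℂ_[p]) : ℂ_[p])

theorem pi1_ne_zero : pi1 p ≠ 0 := by
  intro h
  exact zR_one_ne (Subtype.ext h)

theorem exists_u (σ : Gp p) (c : ℤ_[p]) (hc : CycAt σ c) :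
    ∃ u : A1 p, ainf1Map (gR σ : 𝓞_ℂ_[p] →+* 𝓞_ℂ_[p]) (O1 p) = u * O1 p ∧
      thC p u * gC σ (pi1 p) = algebraMap ℚ_[p] ℂ_[p] (c : ℚ_[p]) * pi1 p := by
  have h1 : th p (ainfMap (gR σ : 𝓞_ℂ_[p] →+* 𝓞_ℂ_[p]) (om p)) = 0 := by
    rw [th, theta_ainfMap, ← th, th_om, map_zero]
  obtain ⟨u, hu⟩ := om_dvd h1
  rw [mul_comm] at hu
  refine ⟨algebraMap _ _ u, ?_, ?_⟩
  · rw [O1, ainf1Map_algebraMap, hu, map_mul]
  · have h2 := act_om σ c hc u hu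
    have h3 := congrArg (fun z : 𝓞_ℂ_[p] => (z : ℂ_[p])) h2
    simp only [MulMemClass.coe_mul] at h3
    rw [thC_alg]
    rw [th_zpHom] at h3
    exact h3

theorem calc1 {A : Type*} [CommRing A] (O w q v u a' a v' : A) (k m n : ℕ) :
    O ^ (k + m + n) * (w * (q * v * u ^ n * a' - u ^ m * v' * a)) =
      O ^ k * w * (q * (O ^ m * v) * ((u * O) ^ n * a')) -
        O ^ k * w * ((u * O) ^ m * v' * (O ^ n * a)) := by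
  rw [mul_pow, mul_pow]
  ring

theorem calc2 {B : Type*} [CommRing B] (q b' s s' b : B) (h : q * b' = b) :
    q * s * (b' * s') = s' * (b * s) := by
  rw [← h]
  ring

theorem calc3 {K : Type*} [Field K] (X C U V l π σl σV σπ : K) (m n : ℕ)
    (hC : C ≠ 0) (hπ : π ≠ 0) (hσπ : σπ ≠ 0) (hV : V ≠ 0) (hσV : σV ≠ 0)
    (hU : U * σπ = C * π) (h : X * V * U ^ n * σl = U ^ m * σV * l) :
    X * C ^ ((n : ℤ) - m) * (σl / σV * σπ ^ ((m : ℤ) - n)) = l / V * π ^ ((m : ℤ) - n) := by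
  have hU0 : U ≠ 0 := by
    intro h1
    rw [h1, zero_mul] at hU
    exact (mul_ne_zero hC hπ) hU.symm
  have hU1 : U = C * π / σπ := by
    rw [eq_div_iff hσπ, hU]
  have e6 : X * (σl / σV) = U ^ ((m : ℤ) - n) * (l / V) := by
    rw [zpow_sub₀ hU0, zpow_natCast, zpow_natCast]
    field_simp
    linear_combination h
  calc X * C ^ ((n : ℤ) - m) * (σl / σV * σπ ^ ((m : ℤ) - n))
      = (X * (σl / σV)) * (C ^ ((n : ℤ) - m) * σπ ^ ((m : ℤ) - n)) := by ring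
    _ = (U ^ ((m : ℤ) - n) * (l / V)) * (C ^ ((n : ℤ) - m) * σπ ^ ((m : ℤ) - n)) := by rw [e6]
    _ = l / V * π ^ ((m : ℤ) - n) := by
      have h1 : (n : ℤ) - m = -((m : ℤ) - n) := by ring
      rw [h1, hU1, div_zpow, mul_zpow, zpow_neg]
      have h2 : C ^ ((m : ℤ) - n) ≠ 0 := zpow_ne_zero _ hC
      have h3 : σπ ^ ((m : ℤ) - n) ≠ 0 := zpow_ne_zero _ hσπ
      field_simp

/-- An eigenvector in `B_dR` gives an eigenvector in `ℂ_p`. -/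
theorem bdr_eigen (S : Set (Gp p)) (χ : Gp p → ℚ_[p]) (c : Gp p → ℤ_[p])
    (hc : ∀ σ, CycAt σ (c σ)) (hc0 : ∀ σ, c σ ≠ 0)
    (b : BDeRham 𝓞_ℂ_[p] p) (hb0 : b ≠ 0)
    (hb : ∀ σ ∈ S, qpBdR 𝓞_ℂ_[p] p (χ σ) * bdrMap (gR σ) b = b) :
    ∃ z : ℂ_[p], z ≠ 0 ∧ ∃ m : ℤ, ∀ σ ∈ S,
      algebraMap ℚ_[p] ℂ_[p] (χ σ) * algebraMap ℚ_[p] ℂ_[p] (c σ : ℚ_[p]) ^ m * gC σ z = z := by
  obtain ⟨⟨x, ⟨s, hs⟩⟩, hxs⟩ := IsLocalization.surj (bdrSubmonoid 𝓞_ℂ_[p] p) b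
  simp only at hxs
  have hx0 : x ≠ 0 := by
    rintro rfl
    rw [map_zero] at hxs
    exact hb0 (((IsLocalization.map_units (BDeRham 𝓞_ℂ_[p] p)
      (⟨s, hs⟩ : bdrSubmonoid 𝓞_ℂ_[p] p)).mul_left_eq_zero).1 hxs)
  obtain ⟨n, l, hl0, hl⟩ := leading x hx0
  obtain ⟨m, v, hv0, rfl⟩ := denom s hs
  set π := pi1 p with hπ
  have hπ0 : π ≠ 0 := pi1_ne_zero
  refine ⟨l / thC p v * π ^ ((m : ℤ) - n), ?_, (n : ℤ) - m, ?_⟩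
  · exact mul_ne_zero (div_ne_zero hl0 hv0) (zpow_ne_zero _ hπ0)
  intro σ hσS
  obtain ⟨u, hu1, hu2⟩ := exists_u σ (c σ) (hc σ)
  set f : 𝓞_ℂ_[p] →+* 𝓞_ℂ_[p] := (gR σ : 𝓞_ℂ_[p] →+* 𝓞_ℂ_[p]) with hf
  -- the equation in `B_dR`
  obtain ⟨q, hq⟩ : ∃ q : BDeRhamPlus 𝓞_ℂ_[p] p, q = toPlus _ p (qpHom _ p (χ σ)) := ⟨_, rfl⟩
  obtain ⟨s0, hs0⟩ : ∃ s0 : BDeRhamPlus 𝓞_ℂ_[p] p, s0 = toPlus _ p (O1 p ^ m * v) := ⟨_, rfl⟩
  rw [← hs0] at hxs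
  have e1 : algebraMap (BDeRhamPlus 𝓞_ℂ_[p] p) (BDeRham 𝓞_ℂ_[p] p) (q * s0 * bdrPlusMap f x) =
    algebraMap (BDeRhamPlus 𝓞_ℂ_[p] p) (BDeRham 𝓞_ℂ_[p] p) (bdrPlusMap f s0 * x) := by
    have h1 := congrArg (bdrMap (gR σ)) hxs
    rw [map_mul, bdrMap_algebraMap, bdrMap_algebraMap] at h1
    have h2 : qpBdR 𝓞_ℂ_[p] p (χ σ) =
        algebraMap (BDeRhamPlus 𝓞_ℂ_[p] p) (BDeRham 𝓞_ℂ_[p] p) q := by
      rw [hq]
      rfl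
    have h3 := hb σ hσS
    rw [h2] at h3
    rw [map_mul, map_mul, map_mul, ← h1, ← hxs]
    exact calc2 _ _ _ _ _ h3
  obtain ⟨⟨t, ht⟩, e2⟩ := IsLocalization.exists_of_eq (M := bdrSubmonoid 𝓞_ℂ_[p] p) e1
  simp only at e2
  obtain ⟨k, w, hw0, rfl⟩ := denom t ht
  obtain ⟨t0, ht0⟩ : ∃ t0 : BDeRhamPlus 𝓞_ℂ_[p] p, t0 = toPlus _ p (O1 p ^ k * w) := ⟨_, rfl⟩
  rw [← ht0] at e2
  obtain ⟨a, ha, hax⟩ := hl (k + m + n + 1) (by omega)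
  have a1 : ev (k + m + n + 1) q = Ideal.Quotient.mk _ (qpHom _ p (χ σ)) := by
    rw [hq, ev_toPlus]
  have a2 : ev (k + m + n + 1) s0 = Ideal.Quotient.mk _ (O1 p ^ m * v) := by
    rw [hs0, ev_toPlus]
  have a3 : ev (k + m + n + 1) t0 = Ideal.Quotient.mk _ (O1 p ^ k * w) := by
    rw [ht0, ev_toPlus]
  have a4 := ev_gal σ _ _ _ a2
  have a5 := ev_gal σ _ _ _ hax
  have e3 := congrArg (ev (k + m + n + 1)) e2
  rw [map_mul, map_mul, map_mul, map_mul, map_mul, a1, a2, a3, a4, a5, hax, ← map_mul, ← map_mul,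
    ← map_mul, ← map_mul, ← map_mul, Ideal.Quotient.eq, mem_pow_iff, map_mul, map_mul, map_pow,
    map_pow, hu1] at e3
  rw [← calc1, pow_succ] at e3
  have e5 := (mul_dvd_mul_iff_left (pow_ne_zero _ O1_ne_zero)).1 e3
  rw [O1_dvd_iff, map_mul, mul_eq_zero, or_iff_right hw0, map_sub, map_mul, map_mul, map_mul,
    map_mul, map_mul, map_pow, map_pow, thC_qpHom, thC_gal, thC_gal, ha, sub_eq_zero] at e5
  -- the final computation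
  have hC0 : algebraMap ℚ_[p] ℂ_[p] (c σ : ℚ_[p]) ≠ 0 := by
    have h1 : (c σ : ℚ_[p]) ≠ 0 := by
      intro h2
      exact hc0 σ (PadicInt.coe_eq_zero.1 h2)
    rwa [map_ne_zero]
  have hσπ : gC σ π ≠ 0 := by rwa [map_ne_zero]
  have hσV : gC σ (thC p v) ≠ 0 := by rwa [map_ne_zero]
  rw [map_mul, map_div₀, map_zpow₀]
  exact calc3 _ _ _ _ _ _ _ _ _ m n hC0 hπ0 hσπ hv0 hσV hu2 e5

end Pool.Agent.X291.DR
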