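import Mathlib

/-! A square root of the identity character of `ℤ_pˣ`, up to finite order. -/

set_option autoImplicit false

namespace Pool.Agent.X291.DR

theorem exists_extension {G A : Type*} [CommGroup G] [CommGroup A]
    (hA : ∀ n : ℕ, n ≠ 0 → Function.Surjective (fun a : A => a ^ n)) (H : Subgroup G)
    (f : H →* A) : ∃ g : G →* A, ∀ h : H, g h = f h := by
  have hB : Module.Baer ℤ (Additive A) := by
    let _ : DivisibleBy (Additive A) ℤ := divisibleByOfSMulRightSurj _ _ (by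
      intro n hn a
      have hn' : n.natAbs ≠ 0 := Int.natAbs_ne_zero.2 hn
      obtain ⟨b, hb⟩ := hA n.natAbs hn' (Additive.toMul a)
      rcases Int.natAbs_eq n with h | h
      · refine ⟨Additive.ofMul b, ?_⟩
        apply Additive.toMul.injective
        change (Additive.toMul (n • Additive.ofMul b)) = _
        rw [toMul_zsmul, toMul_ofMul, h, zpow_natCast]
        exact hb
      · refine ⟨Additive.ofMul b⁻¹, ?_⟩
        apply Additive.toMul.injective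
        change (Additive.toMul (n • Additive.ofMul b⁻¹)) = _
        rw [toMul_zsmul, toMul_ofMul, h, zpow_neg, inv_zpow, inv_inv, zpow_natCast]
        exact hb)
    exact Module.Baer.of_divisible _
  obtain ⟨g, hg⟩ := hB.extension_property_addMonoidHom (MonoidHom.toAdditive H.subtype)
    (by
      intro a b hab
      exact Subtype.coe_injective hab) (MonoidHom.toAdditive f)
  refine ⟨MonoidHom.toAdditive.symm g, fun h => ?_⟩
  have h1 := DFunLike.congr_fun hg (Additive.ofMul h)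
  exact h1

variable (p : ℕ) [hp : Fact p.Prime]

/-- The units congruent to `1` modulo `p ^ n`. -/
def V (n : ℕ) : Subgroup ℤ_[p]ˣ where
  carrier := {v | (p : ℤ_[p]) ^ n ∣ (v : ℤ_[p]) - 1}
  one_mem' := by simp
  mul_mem' := by
    intro a b ha hb
    rw [Set.mem_ofPred_eq] at ha hb ⊢
    have h : ((a * b : ℤ_[p]ˣ) : ℤ_[p]) - 1 = (a : ℤ_[p]) * ((b : ℤ_[p]) - 1) + ((a : ℤ_[p]) - 1) := by
      rw [Units.val_mul]
      ring
    rw [h]
    exact dvd_add (hb.mul_left _) ha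
  inv_mem' := by
    intro a ha
    rw [Set.mem_ofPred_eq] at ha ⊢
    have h : ((a⁻¹ : ℤ_[p]ˣ) : ℤ_[p]) - 1 = ((a⁻¹ : ℤ_[p]ˣ) : ℤ_[p]) * (-((a : ℤ_[p]) - 1)) := by
      rw [mul_neg, mul_sub, Units.inv_mul]
      ring
    rw [h]
    exact (ha.neg_right).mul_left _

variable {p}

theorem mem_V {n : ℕ} {v : ℤ_[p]ˣ} : v ∈ V p n ↔ (p : ℤ_[p]) ^ n ∣ (v : ℤ_[p]) - 1 := Iff.rfl

theorem norm_le_of_dvd {n : ℕ} {x : ℤ_[p]} : (p : ℤ_[p]) ^ n ∣ x ↔ ‖x‖ ≤ (p : ℝ)⁻¹ ^ n := by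
  rw [← Ideal.mem_span_singleton, ← PadicInt.norm_le_pow_iff_mem_span_pow, zpow_neg, zpow_natCast,
    inv_pow]

theorem not_dvd_two : ¬ (p : ℤ_[p]) ^ 2 ∣ 2 := by
  intro h
  have h1 : (p : ℤ_[p]) ^ 2 ∣ ((2 : ℤ) : ℤ_[p]) := by exact_mod_cast h
  rw [PadicInt.pow_p_dvd_int_iff] at h1
  have h2 : p ^ 2 ∣ 2 := by exact_mod_cast h1
  have h3 := Nat.le_of_dvd (by norm_num) h2
  have h4 := hp.out.two_le
  nlinarith

theorem V_index : (V p 5).FiniteIndex := by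
  have h : (Units.map ((PadicInt.toZModPow 5 : ℤ_[p] →+* ZMod (p ^ 5)) : ℤ_[p] →* ZMod (p ^ 5))).ker ≤
      V p 5 := by
    intro v hv
    rw [MonoidHom.mem_ker] at hv
    have h1 := congrArg Units.val hv
    rw [mem_V]
    rw [Units.coe_map, Units.val_one] at h1
    rw [← Ideal.mem_span_singleton, ← PadicInt.ker_toZModPow, RingHom.mem_ker, map_sub, map_one,
      sub_eq_zero]
    exact h1
  have : NeZero (p ^ 5) := ⟨pow_ne_zero _ hp.out.ne_zero⟩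
  have h2 : (Units.map ((PadicInt.toZModPow 5 : ℤ_[p] →+* ZMod (p ^ 5)) :
    ℤ_[p] →* ZMod (p ^ 5))).ker.FiniteIndex := inferInstance
  exact Subgroup.finiteIndex_of_le h

theorem norm_two_gt : (p : ℝ)⁻¹ ^ 2 < ‖(2 : ℤ_[p])‖ := by
  by_contra h
  push Not at h
  exact not_dvd_two (norm_le_of_dvd.2 h)

theorem norm_add_one {z : ℤ_[p]} (h : ‖z - 1‖ < ‖(2 : ℤ_[p])‖) : ‖z + 1‖ = ‖(2 : ℤ_[p])‖ := by
  have h1 : z + 1 = 2 + (z - 1) := by ring
  rw [h1, PadicInt.norm_add_eq_max_of_ne h.ne', max_eq_left h.le]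

/-- Squaring on the units congruent to `1` modulo `p ^ 2`. -/
noncomputable def sqHom (p : ℕ) [Fact p.Prime] : V p 2 →* ℤ_[p]ˣ := (powMonoidHom 2).comp (V p 2).subtype

theorem sqHom_apply (v : V p 2) : sqHom p v = (v : ℤ_[p]ˣ) ^ 2 := rfl

theorem norm_sub_one_lt (v : V p 2) : ‖((v : ℤ_[p]ˣ) : ℤ_[p]) - 1‖ < ‖(2 : ℤ_[p])‖ :=
  (norm_le_of_dvd.1 v.2).trans_lt norm_two_gt

theorem sqHom_injective : Function.Injective (sqHom p) := by
  rw [injective_iff_map_eq_one]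
  intro v hv
  rw [sqHom_apply] at hv
  have h1 := congrArg Units.val hv
  rw [Units.val_pow_eq_pow_val, Units.val_one] at h1
  have h2 : (((v : ℤ_[p]ˣ) : ℤ_[p]) - 1) * (((v : ℤ_[p]ˣ) : ℤ_[p]) + 1) = 0 := by
    linear_combination h1
  rcases mul_eq_zero.1 h2 with h3 | h3
  · apply Subtype.ext
    apply Units.ext
    exact sub_eq_zero.1 h3
  · exfalso
    have h4 := norm_add_one (norm_sub_one_lt v)
    rw [h3, norm_zero] at h4
    have h5 : (2 : ℤ_[p]) = 0 := norm_eq_zero.1 h4.symm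
    exact two_ne_zero h5

theorem exists_sqrt {u : ℤ_[p]ˣ} (hu : u ∈ V p 5) : ∃ v : V p 2, sqHom p v = u := by
  have hp1 : (1 : ℝ) < p := by exact_mod_cast hp.out.one_lt
  have hinv : (0 : ℝ) < (p : ℝ)⁻¹ := by positivity
  have hinv1 : (p : ℝ)⁻¹ < 1 := inv_lt_one_of_one_lt₀ hp1
  have h2 := norm_two_gt (p := p)
  have hu' := norm_le_of_dvd.1 hu
  set F : Polynomial ℤ_[p] := Polynomial.X ^ 2 - Polynomial.C (u : ℤ_[p]) with hF
  have hder : F.derivative.aeval (1 : ℤ_[p]) = 2 := by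
    simp [hF]
    norm_num
  have hev : F.aeval (1 : ℤ_[p]) = 1 - (u : ℤ_[p]) := by
    simp [hF]
  have hnorm : ‖F.aeval (1 : ℤ_[p])‖ < ‖F.derivative.aeval (1 : ℤ_[p])‖ ^ 2 := by
    rw [hder, hev, norm_sub_rev]
    refine hu'.trans_lt ?_
    have h3 : ((p : ℝ)⁻¹ ^ 2) ^ 2 < ‖(2 : ℤ_[p])‖ ^ 2 := by
      apply pow_lt_pow_left₀ h2 (by positivity) (by norm_num)
    have h4 : (p : ℝ)⁻¹ ^ 5 ≤ ((p : ℝ)⁻¹ ^ 2) ^ 2 := by
      rw [← pow_mul]
      exact pow_le_pow_of_le_one hinv.le hinv1.le (by norm_num)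
    linarith
  obtain ⟨z, hz1, hz2, -, -⟩ := hensels_lemma hnorm
  rw [hder] at hz2
  have hz3 : z ^ 2 = (u : ℤ_[p]) := by
    have h3 : F.aeval z = z ^ 2 - (u : ℤ_[p]) := by simp [hF]
    rw [h3] at hz1
    exact sub_eq_zero.1 hz1
  have hz4 := norm_add_one hz2
  have hz5 : ‖z - 1‖ * ‖(2 : ℤ_[p])‖ = ‖(u : ℤ_[p]) - 1‖ := by
    rw [← hz4, ← norm_mul, ← hz3]
    congr 1
    ring
  have hz6 : (p : ℤ_[p]) ^ 2 ∣ z - 1 := by
    rw [norm_le_of_dvd]
    by_contra h3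
    push Not at h3
    have h4 : (p : ℝ)⁻¹ ^ 2 * (p : ℝ)⁻¹ ^ 2 < ‖z - 1‖ * ‖(2 : ℤ_[p])‖ := by
      apply mul_lt_mul'' h3 h2 (by positivity) (by positivity)
    rw [hz5, ← pow_add] at h4
    have h5 : (p : ℝ)⁻¹ ^ 5 ≤ (p : ℝ)⁻¹ ^ (2 + 2) :=
      pow_le_pow_of_le_one hinv.le hinv1.le (by norm_num)
    linarith
  have hz7 : IsUnit z := by
    have h3 : IsUnit (z ^ 2) := by
      rw [hz3]
      exact u.isUnit
    exact (isUnit_pow_iff (by norm_num)).1 h3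
  obtain ⟨v, hv⟩ := hz7
  refine ⟨⟨v, ?_⟩, ?_⟩
  · rw [mem_V, hv]
    exact hz6
  · rw [sqHom_apply]
    apply Units.ext
    rw [Units.val_pow_eq_pow_val, hv]
    exact hz3

/-- The units of `ℤ_p` as units of the algebraic closure. -/
noncomputable def coeU (p : ℕ) [Fact p.Prime] : ℤ_[p]ˣ →* (PadicAlgCl p)ˣ :=
  Units.map (((algebraMap ℚ_[p] (PadicAlgCl p)).comp PadicInt.Coe.ringHom : ℤ_[p] →+* PadicAlgCl p) :
    ℤ_[p] →* PadicAlgCl p)

theorem coeU_val (u : ℤ_[p]ˣ) :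
    ((coeU p u : (PadicAlgCl p)ˣ) : PadicAlgCl p) =
      algebraMap ℚ_[p] (PadicAlgCl p) (((u : ℤ_[p]) : ℚ_[p])) := rfl

/-- The character `s` with `s ^ (2 N) = id ^ N`. -/
theorem exists_s (p : ℕ) [hp : Fact p.Prime] : ∃ s : ℤ_[p]ˣ →* (PadicAlgCl p)ˣ, Continuous s ∧
    (∃ N : ℕ, N ≠ 0 ∧ ∀ u, s u ^ (2 * N) = coeU p u ^ N) ∧
    ∃ U : Subgroup ℤ_[p]ˣ, U.FiniteIndex ∧ ∀ u ∈ U, ∃ v : ℤ_[p]ˣ, s u = coeU p v := by
  have hp1 : (1 : ℝ) < p := by exact_mod_cast hp.out.one_lt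
  -- the partial inverse of squaring
  let e := MonoidHom.ofInjective (sqHom_injective (p := p))
  obtain ⟨s, hs⟩ := exists_extension (A := (PadicAlgCl p)ˣ) (by
    intro n hn a
    obtain ⟨z, hz⟩ := IsAlgClosed.exists_pow_nat_eq (a : PadicAlgCl p) (Nat.pos_of_ne_zero hn)
    have hz0 : z ≠ 0 := by
      rintro rfl
      rw [zero_pow hn] at hz
      exact a.ne_zero hz.symm
    exact ⟨Units.mk0 z hz0, Units.ext hz⟩) (sqHom p).range
    (((coeU p).comp (V p 2).subtype).comp (e.symm : (sqHom p).range →* V p 2))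
  have hs1 : ∀ v : V p 2, s (sqHom p v) = coeU p v := by
    intro v
    have h := hs ⟨sqHom p v, v, rfl⟩
    rw [h]
    change coeU p ((e.symm ⟨sqHom p v, v, rfl⟩ : V p 2) : ℤ_[p]ˣ) = _
    congr 2
    rw [MulEquiv.symm_apply_eq]
    rfl
  have hnorm : ∀ v : V p 2, ‖((v : ℤ_[p]ˣ) : ℤ_[p]) - 1‖ * ‖(2 : ℤ_[p])‖ =
      ‖((sqHom p v : ℤ_[p]ˣ) : ℤ_[p]) - 1‖ := by
    intro v
    rw [← norm_add_one (norm_sub_one_lt v), ← norm_mul, sqHom_apply, Units.val_pow_eq_pow_val]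
    congr 1
    ring
  have h20 : (0 : ℝ) < ‖(2 : ℤ_[p])‖ := norm_pos_iff.2 two_ne_zero
  refine ⟨s, ?_, ?_, ?_⟩
  · apply continuous_of_continuousAt_one s
    rw [ContinuousAt, map_one, Units.isEmbedding_val₀.tendsto_nhds_iff]
    rw [Metric.tendsto_nhds]
    intro ε hε
    have h1 : Filter.Tendsto (fun u : ℤ_[p]ˣ => ‖(u : ℤ_[p]) - 1‖) (nhds 1) (nhds 0) := by
      have h2 : Continuous (fun u : ℤ_[p]ˣ => ‖(u : ℤ_[p]) - 1‖) :=
        (Units.continuous_val.sub continuous_const).norm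
      have h3 := h2.tendsto 1
      simpa using h3
    have hδ : (0 : ℝ) < min ((p : ℝ)⁻¹ ^ 5) (ε * ‖(2 : ℤ_[p])‖) := by
      apply lt_min
      · positivity
      · positivity
    filter_upwards [h1.eventually (gt_mem_nhds hδ)] with u hu
    have hu5 : u ∈ V p 5 := norm_le_of_dvd.2 (hu.le.trans (min_le_left _ _))
    obtain ⟨v, rfl⟩ := exists_sqrt hu5
    have h4 : ‖((v : ℤ_[p]ˣ) : ℤ_[p]) - 1‖ < ε := by
      have h5 := hu.trans_le (min_le_right _ _)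
      rw [← hnorm] at h5
      exact lt_of_mul_lt_mul_right h5 h20.le
    rw [Function.comp_apply, hs1, dist_eq_norm, coeU_val]
    have h6 : algebraMap ℚ_[p] (PadicAlgCl p) ((((v : ℤ_[p]ˣ) : ℤ_[p]) : ℚ_[p])) -
        ((1 : (PadicAlgCl p)ˣ) : PadicAlgCl p) =
        algebraMap ℚ_[p] (PadicAlgCl p) (((((v : ℤ_[p]ˣ) : ℤ_[p]) - 1 : ℤ_[p]) : ℚ_[p])) := by
      rw [PadicInt.coe_sub, map_sub, PadicInt.coe_one, map_one, Units.val_one]
    rw [h6, PadicAlgCl.norm_extends]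
    exact h4
  · have : (V p 5).FiniteIndex := V_index
    refine ⟨(V p 5).index, Subgroup.FiniteIndex.index_ne_zero, fun u => ?_⟩
    have h1 : u ^ (V p 5).index ∈ V p 5 := Subgroup.pow_index_mem (V p 5) u
    obtain ⟨v, hv⟩ := exists_sqrt h1
    rw [mul_comm, pow_mul, ← map_pow, ← hv, hs1, ← map_pow, ← map_pow, ← hv]
    rfl
  · refine ⟨V p 5, V_index, ?_⟩
    intro u hu
    obtain ⟨v, rfl⟩ := exists_sqrt hu
    exact ⟨v, hs1 v⟩

end Pool.Agent.X291.DR
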