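import Pool.Agent.X291.DR.Cyclo
import Pool.Agent.X291.DR.Sq

/-! Non-existence of eigenvectors for nonzero powers of the cyclotomic character. -/

set_option autoImplicit false

namespace Pool.Agent.X291.DR

variable {p : ℕ} [hp : Fact p.Prime]

/-- The cyclotomic character with values in `ℂ_p`. -/
noncomputable def cC (τ : Gp p) : ℂ_[p] := algebraMap ℚ_[p] ℂ_[p] (cl τ : ℚ_[p])

theorem cC_ne_zero (τ : Gp p) : cC τ ≠ 0 := by
  rw [cC]
  have h1 : (cl τ : ℚ_[p]) ≠ 0 := fun h2 => cl_ne_zero τ (PadicInt.coe_eq_zero.1 h2)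
  rwa [map_ne_zero]

theorem cC_mul (σ τ : Gp p) : cC (σ * τ) = cC σ * cC τ := by
  rw [cC, cC, cC, cl_mul, PadicInt.coe_mul, map_mul]

theorem gC_cC (σ τ : Gp p) : gC σ (cC τ) = cC τ := gC_algebraMap σ _

theorem no_eigen (H : Subgroup (Gp p)) [hH : H.FiniteIndex] (M : ℤ) (hM : M ≠ 0) (z : ℂ_[p])
    (hz : z ≠ 0) (h : ∀ σ ∈ H, cC σ ^ M * gC σ z = z) : False := by
  classical
  -- the norm
  let f : Gp p → ℂ_[p] := fun τ => cC τ ^ M * gC τ z
  have hf : ∀ a b : Gp p, QuotientGroup.leftRel H a b → f a = f b := by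
    intro a b hab
    rw [QuotientGroup.leftRel_apply] at hab
    have h1 := h _ hab
    have h2 : b = a * (a⁻¹ * b) := by group
    change cC a ^ M * gC a z = cC b ^ M * gC b z
    conv_rhs => rw [h2, cC_mul, ← gC_comp]
    conv_lhs => rw [← h1]
    rw [map_mul, map_zpow₀, gC_cC, mul_zpow]
    ring
  let F : Gp p ⧸ H → ℂ_[p] := Quotient.lift f hf
  have hF : ∀ τ : Gp p, F (QuotientGroup.mk τ) = f τ := fun τ => rfl
  have hfin : Finite (Gp p ⧸ H) := Subgroup.finite_quotient_of_finiteIndex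
  have := Fintype.ofFinite (Gp p ⧸ H)
  set x : ℂ_[p] := ∏ q : Gp p ⧸ H, F q with hx
  have hF0 : ∀ q, F q ≠ 0 := by
    intro q
    obtain ⟨τ, rfl⟩ := QuotientGroup.mk_surjective q
    rw [hF]
    refine mul_ne_zero (zpow_ne_zero _ (cC_ne_zero τ)) ?_
    rwa [map_ne_zero]
  have hx0 : x ≠ 0 := Finset.prod_ne_zero_iff.2 fun q _ => hF0 q
  have hact : ∀ (σ : Gp p) (q : Gp p ⧸ H), cC σ ^ M * gC σ (F q) = F (σ • q) := by
    intro σ q
    obtain ⟨τ, rfl⟩ := QuotientGroup.mk_surjective q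
    have h1 : σ • (QuotientGroup.mk τ : Gp p ⧸ H) = QuotientGroup.mk (σ * τ) := rfl
    rw [h1, hF, hF]
    change cC σ ^ M * gC σ (cC τ ^ M * gC τ z) = cC (σ * τ) ^ M * gC (σ * τ) z
    rw [map_mul, map_zpow₀, gC_cC, cC_mul, mul_zpow, ← gC_comp]
    ring
  set d := Fintype.card (Gp p ⧸ H) with hd
  have hd0 : d ≠ 0 := Fintype.card_ne_zero
  have hxσ : ∀ σ : Gp p, cC σ ^ (M * d) * gC σ x = x := by
    intro σ
    have h1 : cC σ ^ (M * d) = ∏ _q : Gp p ⧸ H, cC σ ^ M := by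
      rw [Finset.prod_const, zpow_mul, zpow_natCast, Finset.card_univ]
    rw [hx, map_prod, h1, ← Finset.prod_mul_distrib]
    simp only [hact]
    exact Equiv.prod_comp (MulAction.toPerm σ) F
  -- Tate's theorem
  have hx2 : ∀ σ : Gp p, gC σ x =
      algebraMap ℚ_[p] ℂ_[p] ((cl σ : ℚ_[p]) ^ (-(M * d))) * x := by
    intro σ
    have h1 := hxσ σ
    rw [map_zpow₀]
    change gC σ x = cC σ ^ (-(M * d)) * x
    conv_rhs => rw [← h1]
    rw [zpow_neg, ← mul_assoc, inv_mul_cancel₀ (zpow_ne_zero _ (cC_ne_zero σ)), one_mul]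
  obtain ⟨n, hn⟩ := tate x hx0 (fun σ => (cl σ : ℚ_[p]) ^ (-(M * d))) hx2 (by
    intro σ hσ
    have h1 : cl σ = 1 := by
      apply cycAt_unique (cycAt_cl σ)
      intro n a ha z hz
      rw [hσ n z hz]
      have h2 : (p ^ n : ℤ) ∣ (a : ℤ) - 1 := by
        rw [← PadicInt.pow_p_dvd_int_iff (p := p)]
        push_cast
        have h3 := dvd_neg.2 ha
        rwa [neg_sub] at h3
      have h3 : a ≡ 1 [MOD p ^ n] := by
        apply Nat.ModEq.symm
        rw [Nat.modEq_iff_dvd]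
        exact_mod_cast h2
      rw [Nat.ModEq] at h3
      have h4 : z ^ a = z ^ (a % p ^ n) := by
        conv_lhs => rw [← Nat.div_add_mod a (p ^ n), pow_add, pow_mul, hz, one_pow, one_mul]
      have h5 : z ^ 1 = z ^ (1 % p ^ n) := by
        conv_lhs => rw [← Nat.div_add_mod 1 (p ^ n), pow_add, pow_mul, hz, one_pow, one_mul]
      rw [h4, h3, ← h5, pow_one]
    rw [h1, PadicInt.coe_one, one_zpow])
  have hMd : (M * d).natAbs ≠ 0 := by
    rw [Int.natAbs_ne_zero]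
    exact mul_ne_zero hM (by exact_mod_cast hd0)
  obtain ⟨σ, hσ1, hσ2⟩ := exists_pow_ne (p := p) n (M * d).natAbs hMd
  apply hσ2
  have h1 := hn σ hσ1
  rw [zpow_neg, inv_eq_one] at h1
  have h2 : (cl σ : ℚ_[p]) ^ (M * d).natAbs = 1 := by
    rcases Int.natAbs_eq (M * d) with h3 | h3
    · rw [h3, zpow_natCast] at h1
      exact h1
    · rw [h3, zpow_neg, inv_eq_one, zpow_natCast] at h1
      exact h1
  apply PadicInt.ext
  push_cast
  exact h2

end Pool.Agent.X291.DR
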