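import Pool.Agent.X291.DR.Defs
import Pool.Agent.X291.DR.Loc

/-! The counterexample: the character `⟨ε⟩ ^ (-1/2)`. -/

set_option autoImplicit false

open scoped TensorProduct
open NumberField IntermediateField

namespace Pool.Agent.X291.DR

open Pool.Agent.Y802

section restrict

variable {F : Type} [Field F] {p : ℕ} [hp : Fact p.Prime]

/-- An element of `G_{ℚ_p}` which fixes `j(F)` restricts to `F̄`. -/
theorem exists_restrict (j : AlgebraicClosure F →+* PadicAlgCl p) (τ : Gp p)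
    (hτ : ∀ x : F, τ (j (algebraMap F _ x)) = j (algebraMap F _ x)) :
    ∃ σ : GF F, (σ, τ) ∈ decGroup j := by
  let _ : Algebra F (PadicAlgCl p) := (j.comp (algebraMap F (AlgebraicClosure F))).toAlgebra
  let _ : Algebra (AlgebraicClosure F) (PadicAlgCl p) := j.toAlgebra
  have : IsScalarTower F (AlgebraicClosure F) (PadicAlgCl p) :=
    IsScalarTower.of_algebraMap_eq (fun _ => rfl)
  let τF : PadicAlgCl p ≃ₐ[F] PadicAlgCl p :=
    AlgEquiv.ofRingEquiv (f := (τ : PadicAlgCl p ≃+* PadicAlgCl p)) hτ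
  refine ⟨τF.restrictNormal (AlgebraicClosure F), ?_⟩
  intro x
  exact AlgEquiv.restrictNormal_commutes τF (AlgebraicClosure F) x

theorem fin_localField [NumberField F] (j : AlgebraicClosure F →+* PadicAlgCl p) :
    FiniteDimensional ℚ_[p] (localField j) := by
  obtain ⟨θ, hθ⟩ := Field.exists_primitive_element ℚ F
  have h1 : localField j ≤ ℚ_[p]⟮j (algebraMap F (AlgebraicClosure F) θ)⟯ := by
    rw [localField, IntermediateField.adjoin_le_iff]
    rintro _ ⟨x, rfl⟩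
    have hx : x ∈ ℚ⟮θ⟯ := by
      rw [hθ]
      exact IntermediateField.mem_top
    induction hx using IntermediateField.adjoin_induction with
    | mem y hy =>
      rw [Set.mem_singleton_iff.1 hy]
      exact mem_adjoin_simple_self _ _
    | algebraMap y =>
      have h2 : j (algebraMap F (AlgebraicClosure F) (algebraMap ℚ F y)) =
          algebraMap ℚ_[p] (PadicAlgCl p) (y : ℚ_[p]) := by
        rw [eq_ratCast, map_ratCast, map_ratCast, map_ratCast]
      change j (algebraMap F (AlgebraicClosure F) (algebraMap ℚ F y)) ∈ _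
      rw [h2]
      exact _root_.algebraMap_mem _ _
    | add y w _ _ h1 h2 =>
      change j (algebraMap F (AlgebraicClosure F) (y + w)) ∈ _
      rw [map_add, map_add]
      exact add_mem h1 h2
    | inv y _ h1 =>
      change j (algebraMap F (AlgebraicClosure F) (y⁻¹)) ∈ _
      rw [map_inv₀, map_inv₀]
      exact inv_mem h1
    | mul y w _ _ h1 h2 =>
      change j (algebraMap F (AlgebraicClosure F) (y * w)) ∈ _
      rw [map_mul, map_mul]
      exact mul_mem h1 h2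
  have h2 : FiniteDimensional ℚ_[p] ℚ_[p]⟮j (algebraMap F (AlgebraicClosure F) θ)⟯ :=
    IntermediateField.adjoin.finiteDimensional
      (Algebra.IsAlgebraic.isAlgebraic (R := ℚ_[p]) _).isIntegral
  exact Submodule.finiteDimensional_of_le (S₁ := (localField j).toSubalgebra.toSubmodule)
    (S₂ := (ℚ_[p]⟮j (algebraMap F (AlgebraicClosure F) θ)⟯).toSubalgebra.toSubmodule) h1

theorem finIndex_fixing [NumberField F] (j : AlgebraicClosure F →+* PadicAlgCl p) :
    (localField j).fixingSubgroup.FiniteIndex := by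
  have := fin_localField j
  constructor
  rw [← finrank_eq_fixingSubgroup_index]
  exact Module.finrank_pos.ne'

theorem chi_eq [CharZero F] (j : AlgebraicClosure F →+* PadicAlgCl p) {σ : GF F} {τ : Gp p}
    (h : (σ, τ) ∈ decGroup j) : chi F p σ = chi ℚ_[p] p τ := by
  apply Units.ext
  have : CharZero (AlgebraicClosure F) := charZero_of_injective_algebraMap
    (algebraMap F (AlgebraicClosure F)).injective
  refine cycAt_unique (τ := τ) ?_ (cycAt_cl τ)
  intro n a ha z hz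
  have hne : NeZero (p ^ n) := ⟨pow_ne_zero _ hp.out.ne_zero⟩
  have : NeZero ((p ^ n : ℕ) : AlgebraicClosure F) := ⟨by
    exact_mod_cast pow_ne_zero _ hp.out.ne_zero⟩
  have := IsSepClosed.hasEnoughRootsOfUnity (AlgebraicClosure F) (p ^ n)
  obtain ⟨w, hw⟩ := HasEnoughRootsOfUnity.exists_primitiveRoot (AlgebraicClosure F) (p ^ n)
  have hjw : IsPrimitiveRoot (j w) (p ^ n) := hw.map_of_injective j.injective
  obtain ⟨i, -, hi⟩ := hjw.eq_pow_of_pow_eq_one hz
  rw [← map_pow] at hi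
  have hwi : (w ^ i) ^ (p ^ n) = 1 := by
    rw [← pow_mul, mul_comm, pow_mul, hw.pow_eq_one, one_pow]
  rw [← hi, ← h (w ^ i)]
  change j (σ (w ^ i)) = _
  rw [chi_spec σ n a ha (w ^ i) hwi, map_pow j (w ^ i)]

end restrict

section tensor

variable {K : Type*} [Field K] {M N : Type*} [AddCommGroup M] [Module K M] [AddCommGroup N]
  [Module K N] {ι : Type*} [DecidableEq ι]

theorem basis_map (ℬ : Module.Basis ι K M) (f : M →ₗ[K] M) (q : K) (hf : ∀ m, f m = q • m)
    (g : N →ₗ[K] N) (x : M ⊗[K] N) (i : ι) :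
    TensorProduct.equivFinsuppOfBasisLeft ℬ (TensorProduct.map f g x) i =
      q • g (TensorProduct.equivFinsuppOfBasisLeft ℬ x i) := by
  induction x with
  | zero => simp
  | add x y hx hy => rw [map_add, map_add, Finsupp.add_apply, hx, hy, map_add, Finsupp.add_apply,
      map_add, smul_add]
  | tmul m n =>
    rw [TensorProduct.map_tmul, TensorProduct.equivFinsuppOfBasisLeft_apply_tmul_apply,
      TensorProduct.equivFinsuppOfBasisLeft_apply_tmul_apply, hf, map_smul, map_smul,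
      Finsupp.smul_apply, smul_eq_mul, mul_smul]

end tensor

section transfer

variable {p : ℕ} [hp : Fact p.Prime]

theorem galOC_eq (τ : Gp p) : galOC τ = (gR τ : OC p ≃+* OC p) := by
  apply RingEquiv.ext
  intro x
  apply Subtype.ext
  exact incl_galOC τ x

/-- The eigenvector theorem in terms of `BdR`. -/
theorem bdr_eigen' (S : Set (Gp p)) (χ : Gp p → ℚ_[p]) (c : Gp p → ℤ_[p])
    (hc : ∀ σ, CycAt σ (c σ)) (hc0 : ∀ σ, c σ ≠ 0)
    (b : BdR p) (hb0 : b ≠ 0)
    (hb : ∀ σ ∈ S, χ σ • galBdR σ b = b) :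
    ∃ z : ℂ_[p], z ≠ 0 ∧ ∃ m : ℤ, ∀ σ ∈ S,
      algebraMap ℚ_[p] ℂ_[p] (χ σ) * algebraMap ℚ_[p] ℂ_[p] (c σ : ℚ_[p]) ^ m * gC σ z = z := by
  refine bdr_eigen S χ c hc hc0 b hb0 ?_
  intro σ hσ
  have h1 := hb σ hσ
  rw [Algebra.smul_def] at h1
  have h2 : galBdR σ b = (bdrMap (p := p) (gR σ : OC p ≃+* OC p) b : BdR p) := by
    rw [← galOC_eq]
    rfl
  rw [h2] at h1
  exact h1

end transfer

section main

variable {F : Type} [Field F] {p : ℕ} [hp : Fact p.Prime]

/-- The scalar matrix of size one attached to a unit. -/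
noncomputable def gl1 (p : ℕ) [Fact p.Prime] : (PadicAlgCl p)ˣ →* GL (Fin 1) (PadicAlgCl p) :=
  Units.map ((Matrix.scalar (Fin 1) : PadicAlgCl p →+* Matrix (Fin 1) (Fin 1) (PadicAlgCl p)) :
    PadicAlgCl p →* Matrix (Fin 1) (Fin 1) (PadicAlgCl p))

theorem gl1_val (u : (PadicAlgCl p)ˣ) :
    ((gl1 p u : GL (Fin 1) (PadicAlgCl p)) : Matrix (Fin 1) (Fin 1) (PadicAlgCl p)) =
      Matrix.scalar (Fin 1) (u : PadicAlgCl p) := rfl

/-- The character `s(ε)⁻¹`. -/
noncomputable def chr (F : Type) [Field F] (s : ℤ_[p]ˣ →* (PadicAlgCl p)ˣ) :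
    GF F →* GL (Fin 1) (PadicAlgCl p) :=
  (gl1 p).comp ((invMonoidHom : (PadicAlgCl p)ˣ →* (PadicAlgCl p)ˣ).comp (s.comp (chi F p)))

theorem chr_apply (s : ℤ_[p]ˣ →* (PadicAlgCl p)ˣ) (σ : GF F) :
    chr F s σ = gl1 p (s (chi F p σ))⁻¹ := rfl

theorem coeU_injective : Function.Injective (coeU p) := by
  intro a b h
  have h1 := congrArg Units.val h
  rw [coeU_val, coeU_val] at h1
  apply Units.ext
  apply PadicInt.ext
  exact (algebraMap ℚ_[p] (PadicAlgCl p)).injective h1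

theorem DdR_eq_bot [NumberField F] (s : ℤ_[p]ˣ →* (PadicAlgCl p)ˣ) (N : ℕ) (hN : N ≠ 0)
    (hs : ∀ u, s u ^ (2 * N) = coeU p u ^ N) (U : Subgroup ℤ_[p]ˣ) [hU : U.FiniteIndex]
    (hU2 : ∀ u ∈ U, ∃ v : ℤ_[p]ˣ, s u = coeU p v) (j : AlgebraicClosure F →+* PadicAlgCl p) :
    DdR j (chr F s) = ⊥ := by
  classical
  rw [eq_bot_iff]
  intro x hx
  rw [Submodule.mem_bot]
  by_contra hx0
  -- the subgroup
  set H : Subgroup (Gp p) := (localField j).fixingSubgroup ⊓ U.comap (chi ℚ_[p] p) with hH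
  have hfin : H.FiniteIndex := by
    have h1 := finIndex_fixing j
    have h2 : (U.comap (chi ℚ_[p] p)).FiniteIndex := by
      constructor
      rw [Subgroup.index_comap]
      exact Subgroup.FiniteIndex.index_ne_zero (H := U.subgroupOf (chi ℚ_[p] p).range)
    rw [hH]
    exact inferInstanceAs ((localField j).fixingSubgroup ⊓ U.comap (chi ℚ_[p] p)).FiniteIndex
  -- the character on `H`
  have hq : ∀ τ ∈ H, ∃ q : ℚ_[p], q ^ (2 * N) * (cl τ : ℚ_[p]) ^ N = 1 ∧ ∃ σ : GF F,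
      (σ, τ) ∈ decGroup j ∧
        (s (chi F p σ) : (PadicAlgCl p)ˣ)⁻¹.val = algebraMap ℚ_[p] (PadicAlgCl p) q := by
    intro τ hτ
    obtain ⟨hτ1, hτ2⟩ := hτ
    obtain ⟨σ, hσ⟩ := exists_restrict j τ (by
      intro y
      exact hτ1 ⟨_, IntermediateField.subset_adjoin _ _ ⟨y, rfl⟩⟩)
    obtain ⟨v, hv⟩ := hU2 _ hτ2
    have hv2 : v ^ (2 * N) = (chi ℚ_[p] p τ) ^ N := by
      apply coeU_injective
      rw [map_pow, map_pow, ← hv, hs]
    refine ⟨(((v⁻¹ : ℤ_[p]ˣ) : ℤ_[p]) : ℚ_[p]), ?_, σ, hσ, ?_⟩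
    · have h1 : (v⁻¹) ^ (2 * N) * (chi ℚ_[p] p τ) ^ N = 1 := by
        rw [inv_pow, hv2, inv_mul_cancel]
      have h2 := congrArg Units.val h1
      rw [Units.val_mul, Units.val_pow_eq_pow_val, Units.val_pow_eq_pow_val, Units.val_one] at h2
      have h3 := congrArg (fun z : ℤ_[p] => (z : ℚ_[p])) h2
      simp only [PadicInt.coe_mul, PadicInt.coe_pow, PadicInt.coe_one] at h3
      exact h3
    · rw [chi_eq j hσ, hv, ← map_inv, coeU_val]
  choose! q hq1 hq2 using hq
  -- decompose with respect to a basis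
  let ℬ := Module.Basis.ofVectorSpace ℚ_[p] (Fin 1 → PadicAlgCl p)
  set e := TensorProduct.equivFinsuppOfBasisLeft (N := BdR p) ℬ with he
  have hex : e x ≠ 0 := by
    rwa [Ne, LinearEquiv.map_eq_zero_iff]
  obtain ⟨i, hi⟩ := Finsupp.ne_iff.1 hex
  rw [Finsupp.zero_apply] at hi
  have hb : ∀ τ ∈ H, (q τ) • galBdR τ (e x i) = e x i := by
    intro τ hτ
    obtain ⟨σ, hσ1, hσ2⟩ := hq2 τ hτ
    have h1 := (Submodule.mem_iInf _).1 hx ⟨(σ, τ), hσ1⟩
    rw [LinearMap.mem_eqLocus, LinearMap.id_apply] at h1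
    set f : (Fin 1 → PadicAlgCl p) →ₗ[PadicAlgCl p] (Fin 1 → PadicAlgCl p) :=
      Matrix.toLin' (chr F s σ : Matrix (Fin 1) (Fin 1) (PadicAlgCl p)) with hf
    have h2 : TensorProduct.map (f.restrictScalars ℚ_[p]) (galBdR τ) x = x := h1
    have h3 : ∀ m, (f.restrictScalars ℚ_[p]) m = q τ • m := by
      intro m
      change f m = q τ • m
      rw [hf, chr_apply, gl1_val, hσ2, Matrix.toLin'_apply]
      ext k
      rw [Matrix.scalar_apply, Matrix.mulVec_diagonal, Pi.smul_apply, Algebra.smul_def]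
    have h4 := basis_map (N := BdR p) ℬ (f.restrictScalars ℚ_[p]) (q τ) h3 (galBdR τ) x i
    rw [h2] at h4
    exact h4.symm
  obtain ⟨z, hz0, m, hz⟩ := bdr_eigen' (H : Set (Gp p)) q cl cycAt_cl cl_ne_zero (e x i) hi hb
  apply no_eigen H (2 * N * m - N) ?_ (z ^ (2 * N)) (pow_ne_zero _ hz0)
  · intro τ hτ
    have h1 := congrArg (fun y : ℂ_[p] => y ^ (2 * N)) (hz τ hτ)
    have h2 : (algebraMap ℚ_[p] ℂ_[p] (q τ)) ^ (2 * N) * cC τ ^ N = 1 := by
      rw [cC, ← map_pow, ← map_pow, ← map_mul, hq1 τ hτ, map_one]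
    have h3 : (algebraMap ℚ_[p] ℂ_[p] (q τ)) ^ (2 * N) = (cC τ ^ N)⁻¹ :=
      eq_inv_of_mul_eq_one_left h2
    change (algebraMap ℚ_[p] ℂ_[p] (q τ) * cC τ ^ m * gC τ z) ^ (2 * N) = z ^ (2 * N) at h1
    rw [mul_pow, mul_pow, h3] at h1
    rw [zpow_sub₀ (cC_ne_zero τ), map_pow, zpow_natCast, div_eq_mul_inv,
      mul_comm (cC τ ^ (2 * (N : ℤ) * m))]
    have h4 : cC τ ^ (2 * (N : ℤ) * m) = (cC τ ^ m) ^ (2 * N) := by
      rw [← zpow_natCast (cC τ ^ m), ← zpow_mul]
      congr 1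
      push_cast
      ring
    rw [h4]
    exact h1
  · intro h1
    have h2 : (N : ℤ) * (2 * m - 1) = 0 := by
      linear_combination h1
    rcases mul_eq_zero.1 h2 with h3 | h3
    · exact hN (by exact_mod_cast h3)
    · omega

end main

end Pool.Agent.X291.DR
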