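import Pool.Agent.X291.DR.Fin

/-! The global properties of the character `⟨ε⟩ ^ (-1/2)`. -/

set_option autoImplicit false

open NumberField

namespace Pool.Agent.X291.DR

open Pool.Agent.Y802

variable {F : Type} [Field F] {p : ℕ} [hp : Fact p.Prime]

theorem continuous_gl1 : Continuous (gl1 p) := by
  apply Continuous.units_map
  refine continuous_matrix fun i j => ?_
  simp only [MonoidHom.coe_coe, Matrix.scalar_apply]
  rcases eq_or_ne i j with h | h
  · subst h
    simp only [Matrix.diagonal_apply_eq]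
    exact continuous_id
  · simpa [Matrix.diagonal_apply_ne _ h] using continuous_const

theorem continuous_chr (s : ℤ_[p]ˣ →* (PadicAlgCl p)ˣ) (hs : Continuous s) :
    Continuous (chr F s) := by
  have h : Continuous fun σ : GF F => (s (chi F p σ))⁻¹ :=
    (hs.comp (continuous_chi F p)).inv
  exact continuous_gl1.comp h

theorem chr_inertia [NumberField F] (s : ℤ_[p]ˣ →* (PadicAlgCl p)ˣ)
    {P : Ideal (𝓞 (AlgebraicClosure F))} (hP : P.IsMaximal)
    (hpP : (p : 𝓞 (AlgebraicClosure F)) ∉ P) {τ : GF F} (hτ : InInertia P τ) :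
    chr F s τ = 1 := by
  have h1 : chi F p τ = 1 := by
    apply Units.ext
    have h2 := chi_frob' (K := F) (p := p) (q := 1) hP.isPrime hpP (σ := τ) (by
      intro z
      rw [pow_one]
      exact hτ z)
    rw [Nat.cast_one] at h2
    exact h2
  rw [chr_apply, h1, map_one, inv_one, map_one]

theorem chi_geomFrob [NumberField F] {P : Ideal (𝓞 (AlgebraicClosure F))} (hP : P.IsMaximal)
    (hpP : (p : 𝓞 (AlgebraicClosure F)) ∉ P) {σ : GF F} (hσ : IsGeomFrob P σ) :
    (((chi F p σ)⁻¹ : ℤ_[p]ˣ) : ℤ_[p]) = (resCard P : ℕ) := by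
  have h1 := chi_frob' (K := F) (p := p) (q := resCard P) hP.isPrime hpP (σ := σ⁻¹) (by
    intro z
    have h2 := hσ (σ⁻¹ • z)
    rwa [smul_inv_smul] at h2)
  rwa [map_inv] at h1

theorem isWeilInteger_of_pow {α : PadicAlgCl p} {q N : ℕ} (hN : N ≠ 0)
    (h : α ^ (2 * N) = (q : PadicAlgCl p) ^ N) : IsWeilInteger q 1 α := by
  have hN2 : 2 * N ≠ 0 := by omega
  refine ⟨?_, ?_⟩
  · apply IsIntegral.of_pow (Nat.pos_of_ne_zero hN2)
    rw [h]
    exact (isIntegral_natCast q).pow _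
  · intro z hz
    have h1 : minpoly ℚ α ∣ Polynomial.X ^ (2 * N) - Polynomial.C ((q : ℚ) ^ N) := by
      apply minpoly.dvd
      rw [map_sub, map_pow, Polynomial.aeval_X, Polynomial.aeval_C, h, map_pow, map_natCast,
        sub_self]
    obtain ⟨g, hg⟩ := h1
    have h2 : z ^ (2 * N) = (q : ℂ) ^ N := by
      have h3 := congrArg (Polynomial.aeval z) hg
      rw [map_mul, hz, zero_mul, map_sub, map_pow, Polynomial.aeval_X, Polynomial.aeval_C,
        map_pow, map_natCast, sub_eq_zero] at h3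
      exact h3
    have h3 : ‖z‖ ^ (2 * N) = (q : ℝ) ^ N := by
      rw [← norm_pow, h2, norm_pow, Complex.norm_natCast]
    have h4 : ((q : ℝ) ^ (((1 : ℤ) : ℝ) / 2)) ^ (2 * N) = (q : ℝ) ^ N := by
      rw [← Real.rpow_natCast, ← Real.rpow_mul (Nat.cast_nonneg q), ← Real.rpow_natCast (q : ℝ) N]
      congr 1
      push_cast
      ring
    rw [← pow_left_inj₀ (norm_nonneg _) (Real.rpow_nonneg (Nat.cast_nonneg q) _) hN2, h3, h4]

theorem chr_pure [NumberField F] (s : ℤ_[p]ˣ →* (PadicAlgCl p)ˣ) (N : ℕ) (hN : N ≠ 0)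
    (hs : ∀ u, s u ^ (2 * N) = coeU p u ^ N) : IsUnramifiedPure p 1 (chr F s) := by
  intro P hP hpP
  refine ⟨fun τ hτ => chr_inertia s hP hpP hτ, ?_⟩
  intro σ hσ α hα
  have h1 : α = (((s (chi F p σ))⁻¹ : (PadicAlgCl p)ˣ) : PadicAlgCl p) := by
    rw [chr_apply, gl1_val, Matrix.charpoly, Polynomial.IsRoot, Matrix.det_fin_one] at hα
    rw [Matrix.charmatrix_apply_eq, Polynomial.eval_sub, Polynomial.eval_X, Polynomial.eval_C,
      Matrix.scalar_apply, Matrix.diagonal_apply_eq, sub_eq_zero] at hα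
    exact hα
  apply isWeilInteger_of_pow hN
  have h2 : ((s (chi F p σ))⁻¹) ^ (2 * N) = coeU p ((chi F p σ)⁻¹) ^ N := by
    rw [inv_pow, hs, map_inv, inv_pow]
  have h3 := congrArg Units.val h2
  rw [Units.val_pow_eq_pow_val, Units.val_pow_eq_pow_val, coeU_val, chi_geomFrob hP hpP hσ,
    PadicInt.coe_natCast, map_natCast] at h3
  rw [h1]
  exact h3

theorem exists_embedding (F : Type) [Field F] [NumberField F] (p : ℕ) [Fact p.Prime] :
    Nonempty (AlgebraicClosure F →+* PadicAlgCl p) := by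
  have h1 : Algebra.IsAlgebraic ℚ (AlgebraicClosure F) :=
    Algebra.IsAlgebraic.trans ℚ F (AlgebraicClosure F)
  exact ⟨(IsAlgClosed.lift (R := ℚ) (S := AlgebraicClosure F) (M := PadicAlgCl p)).toRingHom⟩

end Pool.Agent.X291.DR
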