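import Pool.Agent.X291.DR.Tate

/-! The ring of integers of `ℂ_p`. -/

set_option autoImplicit false

open Ideal

open scoped NNReal

namespace Pool.Agent.X291.DR

variable {p : ℕ} [hp : Fact p.Prime]

theorem norm_eq_v (x : ℂ_[p]) : ‖x‖ = ((Valued.v x : ℝ≥0) : ℝ) := by
  rw [PadicComplex.norm_eq_norm]
  simp only [Valuation.norm_def, PadicComplex.RankOne.hom_eq_embedding]
  rw [Valuation.embedding_restrict (PadicComplex.valued p).v x]

theorem mem_int_iff (x : ℂ_[p]) : x ∈ 𝓞_ℂ_[p] ↔ ‖x‖ ≤ 1 := by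
  rw [PadicComplexInt, Valuation.mem_valuationSubring_iff, norm_eq_v]
  exact_mod_cast Iff.rfl

theorem norm_le_one (x : 𝓞_ℂ_[p]) : ‖(x : ℂ_[p])‖ ≤ 1 := (mem_int_iff _).1 x.2

theorem norm_natC_p : ‖(p : ℂ_[p])‖ = (p : ℝ)⁻¹ := by
  rw [norm_eq_v, PadicComplex.valuation_p]
  simp

theorem pow_dvd_iff (x : 𝓞_ℂ_[p]) (n : ℕ) : (p : 𝓞_ℂ_[p]) ^ n ∣ x ↔ ‖(x : ℂ_[p])‖ ≤ (p : ℝ)⁻¹ ^ n := by
  have hp0 : (p : ℂ_[p]) ≠ 0 := by exact_mod_cast hp.out.ne_zero
  have hpr : (0 : ℝ) < (p : ℝ)⁻¹ ^ n := by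
    have : (0 : ℝ) < p := by exact_mod_cast hp.out.pos
    positivity
  constructor
  · rintro ⟨y, rfl⟩
    push_cast
    rw [norm_mul, norm_pow, norm_natC_p]
    exact mul_le_of_le_one_right hpr.le (norm_le_one y)
  · intro h
    refine ⟨⟨(x : ℂ_[p]) / (p : ℂ_[p]) ^ n, ?_⟩, ?_⟩
    · rw [mem_int_iff, norm_div, norm_pow, norm_natC_p]
      exact (div_le_one hpr).2 h
    · apply Subtype.ext
      push_cast
      field_simp

theorem pow_inv_tendsto : Filter.Tendsto (fun n : ℕ => (p : ℝ)⁻¹ ^ n) Filter.atTop (nhds 0) := by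
  have h1 : (1 : ℝ) < p := by exact_mod_cast hp.out.one_lt
  apply tendsto_pow_atTop_nhds_zero_of_lt_one
  · positivity
  · exact inv_lt_one_of_one_lt₀ h1

theorem eq_zero_of_pow_dvd (x : 𝓞_ℂ_[p]) (h : ∀ n : ℕ, (p : 𝓞_ℂ_[p]) ^ n ∣ x) : x = 0 := by
  apply Subtype.ext
  rw [ZeroMemClass.coe_zero, ← norm_le_zero_iff]
  exact ge_of_tendsto' pow_inv_tendsto (fun n => (pow_dvd_iff x n).1 (h n))

instance instFactInt : Fact ¬IsUnit (p : 𝓞_ℂ_[p]) := ⟨by
  intro h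
  rw [isUnit_iff_exists_inv] at h
  obtain ⟨y, hy⟩ := h
  have h1 := congrArg (fun z : 𝓞_ℂ_[p] => ‖(z : ℂ_[p])‖) hy
  simp only [MulMemClass.coe_mul, norm_mul] at h1
  have h2 : ((p : 𝓞_ℂ_[p]) : ℂ_[p]) = (p : ℂ_[p]) := by push_cast; rfl
  have h3 : ((1 : 𝓞_ℂ_[p]) : ℂ_[p]) = 1 := rfl
  rw [h2, h3, norm_natC_p, norm_one] at h1
  have h4 : (p : ℝ)⁻¹ < 1 := inv_lt_one_of_one_lt₀ (by exact_mod_cast hp.out.one_lt)
  have h5 := norm_le_one y
  have h6 : (0 : ℝ) < (p : ℝ)⁻¹ := by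
    have : (0 : ℝ) < p := by exact_mod_cast hp.out.pos
    positivity
  nlinarith⟩

instance instComplInt : IsAdicComplete (span {(p : 𝓞_ℂ_[p])}) 𝓞_ℂ_[p] where
  haus' x hx := by
    apply eq_zero_of_pow_dvd
    intro n
    have h := hx n
    rw [smul_eq_mul, Ideal.mul_top, SModEq.zero, Ideal.span_singleton_pow,
      Ideal.mem_span_singleton] at h
    exact h
  prec' f hf := by
    have h1 : ∀ {m n : ℕ}, m ≤ n → ‖(f m : ℂ_[p]) - (f n : ℂ_[p])‖ ≤ (p : ℝ)⁻¹ ^ m := by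
      intro m n hmn
      have h := hf hmn
      rw [smul_eq_mul, Ideal.mul_top, SModEq.sub_mem, Ideal.span_singleton_pow,
        Ideal.mem_span_singleton, pow_dvd_iff] at h
      exact h
    have h2 : CauchySeq (fun n => (f n : ℂ_[p])) := by
      rw [Metric.cauchySeq_iff']
      intro ε hε
      obtain ⟨N, hN⟩ := ((pow_inv_tendsto (p := p)).eventually (gt_mem_nhds hε)).exists
      refine ⟨N, fun n hn => ?_⟩
      rw [dist_comm, dist_eq_norm]
      exact (h1 hn).trans_lt hN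
    obtain ⟨L, hL⟩ := cauchySeq_tendsto_of_complete h2
    have h3 : ∀ m, ‖(f m : ℂ_[p]) - L‖ ≤ (p : ℝ)⁻¹ ^ m := by
      intro m
      have h4 : Filter.Tendsto (fun n => ‖(f m : ℂ_[p]) - (f n : ℂ_[p])‖) Filter.atTop
          (nhds ‖(f m : ℂ_[p]) - L‖) := (tendsto_const_nhds.sub hL).norm
      exact le_of_tendsto h4 (Filter.eventually_atTop.2 ⟨m, fun n hn => h1 hn⟩)
    have h5 : L ∈ 𝓞_ℂ_[p] := by
      rw [mem_int_iff]
      exact le_of_tendsto hL.norm (Filter.Eventually.of_forall fun n => norm_le_one (f n))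
    refine ⟨⟨L, h5⟩, fun n => ?_⟩
    rw [smul_eq_mul, Ideal.mul_top, SModEq.sub_mem, Ideal.span_singleton_pow,
      Ideal.mem_span_singleton, pow_dvd_iff]
    exact h3 n

theorem gC_comp (σ τ : Gp p) (x : ℂ_[p]) : gC σ (gC τ x) = gC (σ * τ) x := by
  induction x using UniformSpace.Completion.induction_on with
  | hp => exact isClosed_eq ((gC_continuous σ).comp (gC_continuous τ)) (gC_continuous _)
  | ih a => rw [gC_coe, gC_coe, gC_coe]; rfl

theorem gC_one (x : ℂ_[p]) : gC (1 : Gp p) x = x := by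
  induction x using UniformSpace.Completion.induction_on with
  | hp => exact isClosed_eq (gC_continuous _) continuous_id
  | ih a => rw [gC_coe]; rfl

/-- The action of the Galois group on the ring of integers of `ℂ_p`. -/
noncomputable def gR (σ : Gp p) : 𝓞_ℂ_[p] ≃+* 𝓞_ℂ_[p] where
  toFun x := ⟨gC σ x, by rw [mem_int_iff, norm_gC]; exact norm_le_one x⟩
  invFun x := ⟨gC σ⁻¹ x, by rw [mem_int_iff, norm_gC]; exact norm_le_one x⟩
  left_inv x := by
    apply Subtype.ext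
    change gC σ⁻¹ (gC σ x) = x
    rw [gC_comp, inv_mul_cancel, gC_one]
  right_inv x := by
    apply Subtype.ext
    change gC σ (gC σ⁻¹ x) = x
    rw [gC_comp, mul_inv_cancel, gC_one]
  map_mul' x y := Subtype.ext (map_mul (gC σ) _ _)
  map_add' x y := Subtype.ext (map_add (gC σ) _ _)

theorem coe_gR (σ : Gp p) (x : 𝓞_ℂ_[p]) : ((gR σ x : 𝓞_ℂ_[p]) : ℂ_[p]) = gC σ x := rfl

end Pool.Agent.X291.DR
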