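import Pool.Agent.X291.DR.Cyc

/-!
# Tate's theorem: eigenvectors of the Galois group in `ℂ_p`

The absolute Galois group of `ℚ_p` acts on `ℂ_p`. If `x ≠ 0` is an eigenvector for a function `ψ`
with values in `ℚ_p` which is trivial on the Galois group of the cyclotomic tower, then `ψ` is
trivial on an open subgroup.
-/

set_option autoImplicit false

open Polynomial IntermediateField Module

namespace Pool.Agent.X291.DR

variable {p : ℕ} [hp : Fact p.Prime]

/-- the absolute Galois group of `ℚ_p` -/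
abbrev Gp (p : ℕ) [Fact p.Prime] : Type := Gal(PadicAlgCl p/ℚ_[p])

theorem gal_continuous (σ : Gp p) :
    Continuous ((σ : PadicAlgCl p ≃+* PadicAlgCl p) : PadicAlgCl p →+* PadicAlgCl p) := by
  have h : Isometry (fun x : PadicAlgCl p => σ x) := by
    refine Isometry.of_dist_eq fun x y => ?_
    rw [dist_eq_norm, dist_eq_norm, ← map_sub, norm_gal']
  exact h.continuous

/-- the action of the Galois group on `ℂ_p` -/
noncomputable def gC (σ : Gp p) : ℂ_[p] →+* ℂ_[p] :=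
  UniformSpace.Completion.mapRingHom
    ((σ : PadicAlgCl p ≃+* PadicAlgCl p) : PadicAlgCl p →+* PadicAlgCl p) (gal_continuous σ)

theorem gC_coe (σ : Gp p) (a : PadicAlgCl p) : gC σ (a : ℂ_[p]) = ((σ a : PadicAlgCl p) : ℂ_[p]) :=
  UniformSpace.Completion.mapRingHom_coe (gal_continuous σ) a

theorem gC_continuous (σ : Gp p) : Continuous (gC σ) := by
  rw [gC, UniformSpace.Completion.coe_mapRingHom]
  exact UniformSpace.Completion.continuous_map

theorem norm_gC (σ : Gp p) (x : ℂ_[p]) : ‖gC σ x‖ = ‖x‖ := by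
  induction x using UniformSpace.Completion.induction_on with
  | hp => exact isClosed_eq (continuous_norm.comp (gC_continuous σ)) continuous_norm
  | ih a => rw [gC_coe, PadicComplex.norm_extends, PadicComplex.norm_extends, norm_gal']

theorem gC_algebraMap (σ : Gp p) (a : ℚ_[p]) :
    gC σ (algebraMap ℚ_[p] ℂ_[p] a) = algebraMap ℚ_[p] ℂ_[p] a := by
  have h : algebraMap ℚ_[p] ℂ_[p] a = ((algebraMap ℚ_[p] (PadicAlgCl p) a : PadicAlgCl p) : ℂ_[p]) :=
    rfl
  rw [h, gC_coe, σ.commutes]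

/-- the field generated by all roots of unity of `p`-power order -/
noncomputable def Kinf (p : ℕ) [Fact p.Prime] : IntermediateField ℚ_[p] (PadicAlgCl p) :=
  IntermediateField.adjoin ℚ_[p] {z | ∃ n : ℕ, z ^ (p ^ n) = 1}

theorem mem_Kinf {a : PadicAlgCl p} (ha : a ∈ Kinf p) :
    ∃ N : ℕ, ∀ n ≥ N, ∀ z : PadicAlgCl p, IsPrimitiveRoot z (p ^ (n + 1)) → a ∈ ℚ_[p]⟮z⟯ := by
  induction ha using IntermediateField.adjoin_induction with
  | mem x hx =>
    obtain ⟨m, hm⟩ := hx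
    refine ⟨m, fun n hn z hz => ?_⟩
    have h1 : x ^ (p ^ (n + 1)) = 1 := by
      obtain ⟨k, hk⟩ := pow_dvd_pow p (show m ≤ n + 1 by omega)
      rw [hk, pow_mul, hm, one_pow]
    have : NeZero (p ^ (n + 1)) := ⟨pow_ne_zero _ hp.out.ne_zero⟩
    obtain ⟨i, -, hi⟩ := hz.eq_pow_of_pow_eq_one h1
    rw [← hi]
    exact pow_mem (mem_adjoin_simple_self _ _) i
  | algebraMap x => exact ⟨0, fun n _ z _ => _root_.algebraMap_mem _ _⟩
  | add x y _ _ h1 h2 =>
    obtain ⟨N1, h1⟩ := h1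
    obtain ⟨N2, h2⟩ := h2
    exact ⟨max N1 N2, fun n hn z hz => add_mem (h1 n (le_of_max_le_left hn) z hz)
      (h2 n (le_of_max_le_right hn) z hz)⟩
  | inv x _ h1 =>
    obtain ⟨N1, h1⟩ := h1
    exact ⟨N1, fun n hn z hz => inv_mem (h1 n hn z hz)⟩
  | mul x y _ _ h1 h2 =>
    obtain ⟨N1, h1⟩ := h1
    obtain ⟨N2, h2⟩ := h2
    exact ⟨max N1 N2, fun n hn z hz => mul_mem (h1 n (le_of_max_le_left hn) z hz)
      (h2 n (le_of_max_le_right hn) z hz)⟩

theorem Kinf_stable (σ : Gp p) {a : PadicAlgCl p} (ha : a ∈ Kinf p) : σ a ∈ Kinf p := by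
  induction ha using IntermediateField.adjoin_induction with
  | mem x hx =>
    obtain ⟨m, hm⟩ := hx
    exact IntermediateField.subset_adjoin _ _ ⟨m, by rw [← map_pow, hm, map_one]⟩
  | algebraMap x =>
    rw [σ.commutes]
    exact _root_.algebraMap_mem _ _
  | add x y _ _ h1 h2 => rw [map_add]; exact add_mem h1 h2
  | inv x _ h1 => rw [map_inv₀]; exact inv_mem h1
  | mul x y _ _ h1 h2 => rw [map_mul]; exact mul_mem h1 h2

theorem fix_of_gen (σ : Gp p) {z : PadicAlgCl p} (h3 : σ z = z) {a : PadicAlgCl p}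
    (h2 : a ∈ ℚ_[p]⟮z⟯) : σ a = a := by
  induction h2 using IntermediateField.adjoin_induction with
  | mem y hy => rw [Set.mem_singleton_iff.1 hy, h3]
  | algebraMap y => exact σ.commutes y
  | add y w _ _ h1 h2 => rw [map_add, h1, h2]
  | inv y _ h1 => rw [map_inv₀, h1]
  | mul y w _ _ h1 h2 => rw [map_mul, h1, h2]

theorem exists_prim (n : ℕ) : ∃ z : PadicAlgCl p, IsPrimitiveRoot z (p ^ n) := by
  have : NeZero ((p ^ n : ℕ) : PadicAlgCl p) := ⟨by
    exact_mod_cast pow_ne_zero _ hp.out.ne_zero⟩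
  have := IsSepClosed.hasEnoughRootsOfUnity (PadicAlgCl p) (p ^ n)
  exact HasEnoughRootsOfUnity.exists_primitiveRoot _ _

/-- the elements `σ` which fix all `p ^ n`-th roots of unity -/
def Fix (n : ℕ) (σ : Gp p) : Prop := ∀ z : PadicAlgCl p, z ^ (p ^ n) = 1 → σ z = z

theorem approx (x : ℂ_[p]) (hx : ∀ σ : Gp p, (∀ n, Fix n σ) → gC σ x = x) (ε : ℝ) (hε : 0 < ε) :
    ∃ a ∈ Kinf p, ‖x - (a : ℂ_[p])‖ ≤ ε := by
  have hp0 : (0 : ℝ) < p := by exact_mod_cast hp.out.pos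
  have hε' : 0 < ε / (p : ℝ) ^ 2 := by positivity
  have hle : ε / (p : ℝ) ^ 2 ≤ ε := by
    have h1 : (1 : ℝ) ≤ (p : ℝ) ^ 2 := by
      have : (1 : ℝ) ≤ p := by exact_mod_cast hp.out.one_lt.le
      nlinarith
    exact div_le_self hε.le h1
  obtain ⟨y, hy⟩ : ∃ y : PadicAlgCl p, ‖x - (y : ℂ_[p])‖ ≤ ε / (p : ℝ) ^ 2 := by
    have := UniformSpace.Completion.denseRange_coe (α := PadicAlgCl p) x
    obtain ⟨_, ⟨y, rfl⟩, hy⟩ := Metric.mem_closure_iff.1 this _ hε'
    rw [dist_eq_norm] at hy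
    exact ⟨y, hy.le⟩
  obtain ⟨a, ha, hya⟩ := ax (Kinf p) y (ε / (p : ℝ) ^ 2) hε'.le (by
    intro σ
    have h1 : gC (σ.restrictScalars ℚ_[p]) x = x := by
      apply hx
      intro n z hz
      have hz' : z ∈ Kinf p := IntermediateField.subset_adjoin _ _ ⟨n, hz⟩
      exact σ.commutes ⟨z, hz'⟩
    have h2 : ‖σ y - y‖ = ‖gC (σ.restrictScalars ℚ_[p]) (y : ℂ_[p]) - (y : ℂ_[p])‖ := by
      rw [gC_coe, ← UniformSpace.Completion.coe_sub, PadicComplex.norm_extends]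
      rfl
    rw [h2]
    have h3 : gC (σ.restrictScalars ℚ_[p]) (y : ℂ_[p]) - (y : ℂ_[p]) =
        (x - y) - gC (σ.restrictScalars ℚ_[p]) (x - y) := by
      rw [map_sub, h1]
      ring
    rw [h3]
    refine norm_sub_le_of hy ?_
    rw [norm_gC]
    exact hy)
  refine ⟨a, ha, ?_⟩
  have h4 : x - (a : ℂ_[p]) = (x - y) + ((y - a : PadicAlgCl p) : ℂ_[p]) := by
    rw [UniformSpace.Completion.coe_sub]
    ring
  rw [h4]
  refine norm_add_le_of (hy.trans hle) ?_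
  rw [PadicComplex.norm_extends]
  refine hya.trans (le_of_eq ?_)
  field_simp

theorem norm_eq_of_close {x a : ℂ_[p]} (h : ‖x - a‖ < ‖x‖) : ‖a‖ = ‖x‖ := by
  have h1 : ‖x + -a‖ < max ‖x‖ ‖-a‖ := by
    rw [← sub_eq_add_neg]
    exact lt_of_lt_of_le h (le_max_left _ _)
  have h2 := IsUltrametricDist.norm_eq_of_add_norm_lt_max h1
  rw [norm_neg] at h2
  exact h2.symm

theorem norm_algebraMapC (c : ℚ_[p]) : ‖algebraMap ℚ_[p] ℂ_[p] c‖ = ‖c‖ :=
  PadicComplex.norm_extends' p c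

/-- **Tate's theorem.** -/
theorem tate (x : ℂ_[p]) (hx0 : x ≠ 0) (ψ : Gp p → ℚ_[p])
    (hx : ∀ σ, gC σ x = algebraMap ℚ_[p] ℂ_[p] (ψ σ) * x)
    (h1 : ∀ σ, (∀ n, Fix n σ) → ψ σ = 1) :
    ∃ n : ℕ, ∀ σ, Fix n σ → ψ σ = 1 := by
  have hp1 : (1 : ℝ) < p := by exact_mod_cast hp.out.one_lt
  have hp0 : (0 : ℝ) < p := by linarith
  have hnx : 0 < ‖x‖ := norm_pos_iff.2 hx0
  have hfix : ∀ σ : Gp p, (∀ n, Fix n σ) → gC σ x = x := by
    intro σ hσ
    rw [hx, h1 σ hσ, map_one, one_mul]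
  have hψ : ∀ σ, ‖ψ σ‖ = 1 := by
    intro σ
    have h2 := congrArg norm (hx σ)
    rw [norm_gC, norm_mul, norm_algebraMapC] at h2
    exact (mul_eq_right₀ hnx.ne').1 h2.symm
  have hp2 : (1 : ℝ) < (p : ℝ) ^ 2 := one_lt_pow₀ hp1 two_ne_zero
  obtain ⟨a, haK, hxa⟩ := approx x hfix (‖x‖ / (p : ℝ) ^ 2) (by positivity)
  have hlt : ‖x‖ / (p : ℝ) ^ 2 < ‖x‖ := div_lt_self hnx hp2
  have hna : ‖a‖ = ‖x‖ := by
    rw [← PadicComplex.norm_extends p a]
    exact norm_eq_of_close (lt_of_le_of_lt hxa hlt)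
  have ha0 : a ≠ 0 := by
    rintro rfl
    rw [norm_zero] at hna
    exact hnx.ne hna
  obtain ⟨n₀, hn₀⟩ := mem_Kinf haK
  refine ⟨n₀ + 1, fun σ hσ => ?_⟩
  have hσa : σ a = a := by
    obtain ⟨z, hz⟩ := exists_prim (p := p) (n₀ + 1)
    have h2 := hn₀ n₀ le_rfl z hz
    exact fix_of_gen σ (hσ z hz.pow_eq_one) h2
  -- the key estimate
  have key : ∀ δ : ℝ, 0 < δ → δ ≤ 1 / (p : ℝ) ^ 2 → ‖1 - ψ σ‖ ≤ p * δ := by
    intro δ hδ hδ2
    obtain ⟨b', hb'K, hxb'⟩ := approx x hfix (δ * ‖x‖) (by positivity)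
    set b := a⁻¹ * b' with hb
    have hbK : b ∈ Kinf p := mul_mem (inv_mem haK) hb'K
    have hσbK : σ b ∈ Kinf p := Kinf_stable σ hbK
    obtain ⟨N1, hN1⟩ := mem_Kinf hbK
    obtain ⟨N2, hN2⟩ := mem_Kinf hσbK
    obtain ⟨z, hz⟩ := exists_prim (p := p) (max N1 N2 + 1)
    have hbz := hN1 _ (le_max_left N1 N2) z hz
    have hσbz := hN2 _ (le_max_right N1 N2) z hz
    -- `b` is close to `1`
    have hb1 : ‖b - 1‖ ≤ 1 / (p : ℝ) ^ 2 := by
      have h2 : ‖b' - a‖ ≤ ‖x‖ / (p : ℝ) ^ 2 := by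
        have h3 : ((b' - a : PadicAlgCl p) : ℂ_[p]) = (x - a) - (x - b') := by
          rw [UniformSpace.Completion.coe_sub]
          ring
        rw [← PadicComplex.norm_extends p, h3]
        refine norm_sub_le_of hxa (hxb'.trans ?_)
        calc δ * ‖x‖ ≤ (1 / (p : ℝ) ^ 2) * ‖x‖ := mul_le_mul_of_nonneg_right hδ2 hnx.le
          _ = _ := by ring
      have h4 : b - 1 = a⁻¹ * (b' - a) := by
        rw [hb, mul_sub, inv_mul_cancel₀ ha0]
      rw [h4, norm_mul, norm_inv, hna, inv_mul_le_iff₀ hnx]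
      refine h2.trans (le_of_eq ?_)
      ring
    have htrb : ‖tr b‖ = 1 := by
      have h2 : ‖tr (b - 1)‖ ≤ p * ‖b - 1‖ := norm_tr_le hz _ (sub_mem hbz (one_mem _))
      have h3 : tr (b - 1) = tr b - 1 := by
        rw [tr, map_sub]
        exact congrArg _ tr_one
      have h4 : ‖tr b - 1‖ < 1 := by
        rw [← h3]
        calc ‖tr (b - 1)‖ ≤ p * ‖b - 1‖ := h2
          _ ≤ p * (1 / (p : ℝ) ^ 2) := mul_le_mul_of_nonneg_left hb1 hp0.le
          _ = 1 / p := by field_simp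
          _ < 1 := by
            rw [div_lt_one hp0]
            exact hp1
      have h5 : ‖tr b + -1‖ < max ‖tr b‖ ‖(-1 : ℚ_[p])‖ := by
        rw [← sub_eq_add_neg]
        refine lt_of_lt_of_le h4 ?_
        rw [norm_neg, norm_one]
        exact le_max_right _ _
      have h6 := IsUltrametricDist.norm_eq_of_add_norm_lt_max h5
      rwa [norm_neg, norm_one] at h6
    -- `σ b` is close to `ψ σ b`
    have hclose : ‖σ b - algebraMap ℚ_[p] (PadicAlgCl p) (ψ σ) * b‖ ≤ δ := by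
      have h2 : ‖σ b' - algebraMap ℚ_[p] (PadicAlgCl p) (ψ σ) * b'‖ ≤ δ * ‖x‖ := by
        have h3 : ((σ b' - algebraMap ℚ_[p] (PadicAlgCl p) (ψ σ) * b' : PadicAlgCl p) : ℂ_[p]) =
            algebraMap ℚ_[p] ℂ_[p] (ψ σ) * (x - b') - gC σ (x - b') := by
          rw [UniformSpace.Completion.coe_sub, UniformSpace.Completion.coe_mul, ← gC_coe,
            map_sub, hx]
          have : ((algebraMap ℚ_[p] (PadicAlgCl p) (ψ σ) : PadicAlgCl p) : ℂ_[p]) =
            algebraMap ℚ_[p] ℂ_[p] (ψ σ) := rfl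
          rw [this]
          ring
        rw [← PadicComplex.norm_extends p, h3]
        refine norm_sub_le_of ?_ ?_
        · rw [norm_mul, norm_algebraMapC, hψ, one_mul]
          exact hxb'
        · rw [norm_gC]
          exact hxb'
      have h4 : σ b - algebraMap ℚ_[p] (PadicAlgCl p) (ψ σ) * b =
          a⁻¹ * (σ b' - algebraMap ℚ_[p] (PadicAlgCl p) (ψ σ) * b') := by
        rw [hb, map_mul, map_inv₀, hσa]
        ring
      rw [h4, norm_mul, norm_inv, hna, inv_mul_le_iff₀ hnx, mul_comm ‖x‖]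
      exact h2
    have h7 : tr (σ b - algebraMap ℚ_[p] (PadicAlgCl p) (ψ σ) * b) = (1 - ψ σ) * tr b := by
      rw [← Algebra.smul_def, tr, map_sub, map_smul]
      have := tr_gal σ b
      rw [tr] at this
      rw [this, smul_eq_mul]
      ring
    have h8 := norm_tr_le hz (σ b - algebraMap ℚ_[p] (PadicAlgCl p) (ψ σ) * b)
      (sub_mem hσbz (mul_mem (_root_.algebraMap_mem _ _) hbz))
    rw [h7, norm_mul, htrb, mul_one] at h8
    exact h8.trans (mul_le_mul_of_nonneg_left hclose hp0.le)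
  have hzero : ‖1 - ψ σ‖ ≤ 0 := by
    by_contra hcon
    push Not at hcon
    set t := ‖1 - ψ σ‖ with ht
    have h2 := key (min (t / (2 * p)) (1 / (p : ℝ) ^ 2)) (lt_min (by positivity) (by positivity))
      (min_le_right _ _)
    have h3 : p * min (t / (2 * p)) (1 / (p : ℝ) ^ 2) ≤ p * (t / (2 * p)) :=
      mul_le_mul_of_nonneg_left (min_le_left _ _) hp0.le
    have h4 : (p : ℝ) * (t / (2 * p)) = t / 2 := by field_simp
    linarith
  have h9 := norm_le_zero_iff.1 hzero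
  exact (sub_eq_zero.1 h9).symm

end Pool.Agent.X291.DR
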