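import Pool.Agent.X291.DR.Inst
import Pool.Agent.X291.DR.Fun

/-! The kernel of `θ` is principal, and the Galois action on a generator. -/

set_option autoImplicit false

open Ideal WittVector

namespace Pool.Agent.X291.DR

variable {p : ℕ} [hp : Fact p.Prime]

/-- The tilt as a monoid. -/
noncomputable def T : Perfection 𝓞_ℂ_[p] p ≃* PreTilt 𝓞_ℂ_[p] p :=
  Perfection.quotientMulEquiv p (span {(p : 𝓞_ℂ_[p])})

theorem untilt_T (f : Perfection 𝓞_ℂ_[p] p) :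
    (T f).untilt = Perfection.coeffMonoidHom 𝓞_ℂ_[p] p 0 f := by
  change Perfection.teichmuller₀ p _ (Perfection.mapMonoidHom p _ _) = _
  rw [Perfection.teichmuller₀_mapMonoidHom_idealQuotientMk]

theorem norm_coeff_pow (f : Perfection 𝓞_ℂ_[p] p) (n : ℕ) :
    ‖((Perfection.coeffMonoidHom 𝓞_ℂ_[p] p n f : 𝓞_ℂ_[p]) : ℂ_[p])‖ ^ p ^ n =
      ‖((Perfection.coeffMonoidHom 𝓞_ℂ_[p] p 0 f : 𝓞_ℂ_[p]) : ℂ_[p])‖ := by
  rw [← norm_pow]
  congr 1
  rw [← Perfection.coeffMonoidHom_pow_p_pow_self f n]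
  push_cast
  rfl

theorem dvd_of_untilt {x y : PreTilt 𝓞_ℂ_[p] p} (hy : ‖((y.untilt : 𝓞_ℂ_[p]) : ℂ_[p])‖ ≠ 0)
    (h : ‖((x.untilt : 𝓞_ℂ_[p]) : ℂ_[p])‖ ≤ ‖((y.untilt : 𝓞_ℂ_[p]) : ℂ_[p])‖) : y ∣ x := by
  obtain ⟨f, rfl⟩ := T.surjective x
  obtain ⟨g, rfl⟩ := T.surjective y
  rw [untilt_T] at hy h
  rw [untilt_T] at h
  have hp0 : ∀ n, p ^ n ≠ 0 := fun n => pow_ne_zero _ hp.out.ne_zero
  have hg : ∀ n, ((Perfection.coeffMonoidHom 𝓞_ℂ_[p] p n g : 𝓞_ℂ_[p]) : ℂ_[p]) ≠ 0 := by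
    intro n h0
    apply hy
    rw [← norm_coeff_pow g n, h0, norm_zero, zero_pow (hp0 n)]
  have hle : ∀ n, ‖((Perfection.coeffMonoidHom 𝓞_ℂ_[p] p n f : 𝓞_ℂ_[p]) : ℂ_[p])‖ ≤
      ‖((Perfection.coeffMonoidHom 𝓞_ℂ_[p] p n g : 𝓞_ℂ_[p]) : ℂ_[p])‖ := by
    intro n
    rw [← pow_le_pow_iff_left₀ (norm_nonneg _) (norm_nonneg _) (hp0 n), norm_coeff_pow,
      norm_coeff_pow]
    exact h
  let w : Perfection 𝓞_ℂ_[p] p := ⟨fun n => ⟨
    ((Perfection.coeffMonoidHom 𝓞_ℂ_[p] p n f : 𝓞_ℂ_[p]) : ℂ_[p]) /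
      ((Perfection.coeffMonoidHom 𝓞_ℂ_[p] p n g : 𝓞_ℂ_[p]) : ℂ_[p]), by
      rw [mem_int_iff, norm_div]
      exact div_le_one_of_le₀ (hle n) (norm_nonneg _)⟩, by
      intro n
      apply Subtype.ext
      rw [SubmonoidClass.coe_pow, div_pow, ← SubmonoidClass.coe_pow, ← SubmonoidClass.coe_pow,
        Perfection.coeffMonoidHom_pow_p', Perfection.coeffMonoidHom_pow_p']⟩
  refine ⟨T w, ?_⟩
  rw [← map_mul]
  congr 1
  apply Perfection.extMonoid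
  intro n
  rw [map_mul]
  apply Subtype.ext
  rw [MulMemClass.coe_mul]
  change _ = _ * (_ / _)
  rw [mul_div_cancel₀ _ (hg n)]

instance instDomTilt : IsDomain (PreTilt 𝓞_ℂ_[p] p) :=
  PreTilt.isDomain ℂ_[p] (PadicComplex.valued p).v 𝓞_ℂ_[p] (PadicComplexInt.integers p) p

/-- `A_inf` -/
abbrev Ai (p : ℕ) [Fact p.Prime] : Type := WittVector p (PreTilt 𝓞_ℂ_[p] p)

/-- `θ` -/
noncomputable abbrev th (p : ℕ) [Fact p.Prime] : Ai p →+* 𝓞_ℂ_[p] := fontaineTheta 𝓞_ℂ_[p] p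

theorem p_ne_zero_int : (p : 𝓞_ℂ_[p]) ≠ 0 := by
  intro h
  have h1 := congrArg (fun z : 𝓞_ℂ_[p] => (z : ℂ_[p])) h
  have h2 : ((p : 𝓞_ℂ_[p]) : ℂ_[p]) = (p : ℂ_[p]) := by push_cast; rfl
  rw [h2] at h1
  have h3 : (p : ℂ_[p]) ≠ 0 := by exact_mod_cast hp.out.ne_zero
  exact h3 h1

/-- A generator criterion for the kernel of `θ`. -/
theorem dvd_of_theta {ω : Ai p} (hω : th p ω = 0)
    (hn : ‖(((ω.coeff 0).untilt : 𝓞_ℂ_[p]) : ℂ_[p])‖ = (p : ℝ)⁻¹) (x : Ai p) (hx : th p x = 0) :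
    ω ∣ x := by
  have hp0 : (0 : ℝ) < p := by exact_mod_cast hp.out.pos
  have hinv : (0 : ℝ) < (p : ℝ)⁻¹ := by positivity
  -- the division step
  have step : ∀ z : Ai p, th p z = 0 → ∃ y z' : Ai p, z = ω * y + p * z' ∧ th p z' = 0 := by
    intro z hz
    have h1 : (p : 𝓞_ℂ_[p]) ^ 1 ∣ (z.coeff 0).untilt := by
      have h2 := mk_fontaineTheta (R := 𝓞_ℂ_[p]) (p := p) z
      change Ideal.Quotient.mk _ (th p z) = _ at h2
      rw [hz, map_zero, ← PreTilt.mk_untilt_eq_coeff_zero, eq_comm,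
        Ideal.Quotient.eq_zero_iff_mem, Ideal.mem_span_singleton] at h2
      rwa [pow_one]
    rw [pow_dvd_iff, pow_one] at h1
    obtain ⟨y, hy⟩ := dvd_of_untilt (x := z.coeff 0) (y := ω.coeff 0) (by rw [hn]; exact hinv.ne')
      (by rw [hn]; exact h1)
    have h3 : z - ω * teichmuller p y ∈ Ideal.span {(p : Ai p)} := by
      rw [mem_span_p_iff_coeff_zero_eq_zero]
      have h4 : ∀ w : Ai p, w.coeff 0 = constantCoeff w := fun w => rfl
      rw [h4, map_sub, map_mul, ← h4, ← h4, ← h4, teichmuller_coeff_zero, hy, sub_self]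
    rw [Ideal.mem_span_singleton] at h3
    obtain ⟨z', hz'⟩ := h3
    refine ⟨teichmuller p y, z', ?_, ?_⟩
    · rw [← hz']
      ring
    · have h5 : (p : 𝓞_ℂ_[p]) * th p z' = 0 := by
        rw [← map_natCast (th p), ← map_mul, ← hz', map_sub, map_mul, hz, hω, zero_mul, sub_zero]
      exact (mul_eq_zero.1 h5).resolve_left p_ne_zero_int
  choose! Y Z hYZ hZ using step
  let zs : ℕ → Ai p := fun n => Z^[n] x
  have hzs : ∀ n, th p (zs n) = 0 := by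
    intro n
    induction n with
    | zero => exact hx
    | succ n ih =>
      change th p (Z^[n + 1] x) = 0
      rw [Function.iterate_succ_apply']
      exact hZ _ ih
  have hrec : ∀ n, zs n = ω * Y (zs n) + p * zs (n + 1) := by
    intro n
    have h := hYZ (zs n) (hzs n)
    have h2 : zs (n + 1) = Z (zs n) := Function.iterate_succ_apply' _ _ _
    rw [h2]
    exact h
  let s : ℕ → Ai p := fun n => ∑ i ∈ Finset.range n, (p : Ai p) ^ i * Y (zs i)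
  have hs : ∀ n, x = ω * s n + (p : Ai p) ^ n * zs n := by
    intro n
    induction n with
    | zero => simp [s, zs]
    | succ n ih =>
      have h1 : s (n + 1) = s n + (p : Ai p) ^ n * Y (zs n) := Finset.sum_range_succ _ _
      rw [h1, mul_add, pow_succ]
      conv_lhs => rw [ih, hrec n]
      ring
  have hcomp : IsAdicComplete (Ideal.span {(p : Ai p)}) (Ai p) := inferInstance
  obtain ⟨L, hL⟩ := hcomp.toIsPrecomplete.prec' s (by
    intro m n hmn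
    rw [smul_eq_mul, Ideal.mul_top, SModEq.sub_mem, Ideal.span_singleton_pow,
      Ideal.mem_span_singleton, ← dvd_neg, neg_sub]
    change _ ∣ (∑ i ∈ Finset.range n, (p : Ai p) ^ i * Y (zs i)) -
      ∑ i ∈ Finset.range m, (p : Ai p) ^ i * Y (zs i)
    rw [Finset.sum_range_sub_sum_range hmn]
    refine Finset.dvd_sum fun i hi => ?_
    rw [Finset.mem_filter] at hi
    exact (pow_dvd_pow _ hi.2).mul_right _)
  refine ⟨L, ?_⟩
  rw [IsHausdorff.eq_iff_smodEq (I := Ideal.span {(p : Ai p)})]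
  intro n
  have h := hL n
  rw [smul_eq_mul, Ideal.mul_top, SModEq.sub_mem, Ideal.span_singleton_pow,
    Ideal.mem_span_singleton] at h ⊢
  obtain ⟨c, hc⟩ := h
  refine ⟨zs n + ω * c, ?_⟩
  rw [mul_add, mul_left_comm, ← hc]
  conv_lhs => rw [hs n]
  ring

theorem exists_next (n : ℕ) (z : PadicAlgCl p) (hz : IsPrimitiveRoot z (p ^ n)) :
    ∃ z' : PadicAlgCl p, IsPrimitiveRoot z' (p ^ (n + 1)) ∧ z' ^ p = z := by
  obtain ⟨w, hw⟩ := exists_prim (p := p) (n + 1)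
  have hw1 : IsPrimitiveRoot (w ^ p) (p ^ n) :=
    hw.pow (pow_pos hp.out.pos _) (by rw [pow_succ, mul_comm])
  rcases Nat.eq_zero_or_pos n with h0 | h0
  · subst h0
    refine ⟨w, hw, ?_⟩
    rw [pow_zero] at hz hw1
    rw [IsPrimitiveRoot.one_right_iff] at hz hw1
    rw [hz, hw1]
  · have : NeZero (p ^ n) := ⟨pow_ne_zero _ hp.out.ne_zero⟩
    obtain ⟨i, -, hi, hi2⟩ := (hw1.isPrimitiveRoot_iff).1 hz
    refine ⟨w ^ i, ?_, ?_⟩
    · apply hw.pow_of_coprime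
      apply Nat.Coprime.pow_right
      rwa [Nat.coprime_pow_right_iff h0] at hi
    · rw [← hi2, ← pow_mul, ← pow_mul, mul_comm]

/-- A compatible system of primitive roots of unity of `p`-power order. -/
noncomputable def zs (p : ℕ) [Fact p.Prime] : ∀ n : ℕ, {z : PadicAlgCl p // IsPrimitiveRoot z (p ^ n)}
  | 0 => ⟨1, by rw [pow_zero]; exact IsPrimitiveRoot.one⟩
  | n + 1 => ⟨(exists_next n (zs p n).1 (zs p n).2).choose,
      (exists_next n (zs p n).1 (zs p n).2).choose_spec.1⟩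

/-- The `n`-th root of unity in the system. -/
noncomputable def zf (p : ℕ) [Fact p.Prime] (n : ℕ) : PadicAlgCl p := (zs p n).1

theorem zf_prim (n : ℕ) : IsPrimitiveRoot (zf p n) (p ^ n) := (zs p n).2

theorem zf_succ (n : ℕ) : zf p (n + 1) ^ p = zf p n :=
  (exists_next n (zs p n).1 (zs p n).2).choose_spec.2

theorem zf_zero : zf p 0 = 1 := rfl

theorem norm_zf (n : ℕ) : ‖zf p n‖ = 1 := by
  have h1 : ‖zf p n‖ ^ (p ^ n) = 1 := by
    rw [← norm_pow, (zf_prim n).pow_eq_one, norm_one]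
  exact (pow_eq_one_iff_of_nonneg (norm_nonneg _) (pow_ne_zero _ hp.out.ne_zero)).1 h1

/-- The `n`-th root of unity in the ring of integers. -/
noncomputable def zR (p : ℕ) [Fact p.Prime] (n : ℕ) : 𝓞_ℂ_[p] :=
  ⟨((zf p n : PadicAlgCl p) : ℂ_[p]), by
    rw [mem_int_iff, PadicComplex.norm_extends, norm_zf]⟩

theorem coe_zR (n : ℕ) : ((zR p n : 𝓞_ℂ_[p]) : ℂ_[p]) = ((zf p n : PadicAlgCl p) : ℂ_[p]) := rfl

theorem coe_pow_C (x : PadicAlgCl p) (n : ℕ) :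
    ((x ^ n : PadicAlgCl p) : ℂ_[p]) = (x : ℂ_[p]) ^ n := by
  rw [PadicComplex.coe_eq, map_pow]
  rfl

theorem zR_succ (n : ℕ) : zR p (n + 1) ^ p = zR p n := by
  apply Subtype.ext
  rw [SubmonoidClass.coe_pow, coe_zR, coe_zR, ← zf_succ n, coe_pow_C]

theorem zR_zero : zR p 0 = 1 := by
  apply Subtype.ext
  rw [coe_zR, zf_zero]
  rfl

/-- `ε` -/
noncomputable def eps (p : ℕ) [Fact p.Prime] : Perfection 𝓞_ℂ_[p] p := ⟨zR p, zR_succ⟩

/-- `ε ^ (1 / p)` -/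
noncomputable def eps1 (p : ℕ) [Fact p.Prime] : Perfection 𝓞_ℂ_[p] p :=
  ⟨fun n => zR p (n + 1), fun n => zR_succ (n + 1)⟩

theorem coeff_eps (n : ℕ) : Perfection.coeffMonoidHom 𝓞_ℂ_[p] p n (eps p) = zR p n := rfl

theorem coeff_eps1 (n : ℕ) : Perfection.coeffMonoidHom 𝓞_ℂ_[p] p n (eps1 p) = zR p (n + 1) := rfl

theorem eps1_pow : eps1 p ^ p = eps p := by
  apply Perfection.extMonoid
  intro n
  rw [map_pow, coeff_eps, coeff_eps1, zR_succ]

/-- The generator `ω` of the kernel of `θ`. -/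
noncomputable def om (p : ℕ) [Fact p.Prime] : Ai p :=
  ∑ i ∈ Finset.range p, (teichmuller p (T (eps1 p))) ^ i

theorem th_teich (f : Perfection 𝓞_ℂ_[p] p) :
    th p (teichmuller p (T f)) = Perfection.coeffMonoidHom 𝓞_ℂ_[p] p 0 f := by
  rw [th, fontaineTheta_teichmuller, untilt_T]

theorem zR_one_ne : zR p 1 - 1 ≠ 0 := by
  intro h
  have h1 := congrArg (fun z : 𝓞_ℂ_[p] => (z : ℂ_[p])) (sub_eq_zero.1 h)
  change ((zf p 1 : PadicAlgCl p) : ℂ_[p]) = ((1 : PadicAlgCl p) : ℂ_[p]) at h1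
  have h2 : zf p 1 = 1 := UniformSpace.Completion.coe_injective _ h1
  have h3 := zf_prim (p := p) 1
  rw [h2, pow_one] at h3
  have h4 := h3.dvd_of_pow_eq_one 1 (by simp)
  exact hp.out.one_lt.not_ge (Nat.le_of_dvd one_pos h4)

theorem th_om : th p (om p) = 0 := by
  have h1 : th p (om p) * (zR p 1 - 1) = 0 := by
    rw [om, map_sum]
    simp only [map_pow, th_teich, coeff_eps1, zero_add]
    rw [geom_sum_mul, zR_succ, zR_zero, sub_self]
  exact (mul_eq_zero.1 h1).resolve_right zR_one_ne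

theorem norm_untilt_sub : ‖(((T (eps1 p) - 1).untilt : 𝓞_ℂ_[p]) : ℂ_[p])‖ ^ (p - 1) = (p : ℝ)⁻¹ := by
  have hp0 : (0 : ℝ) < p := by exact_mod_cast hp.out.pos
  have hp1 : (1 : ℝ) < p := by exact_mod_cast hp.out.one_lt
  have hinv : (0 : ℝ) < (p : ℝ)⁻¹ := by positivity
  have hinv1 : (p : ℝ)⁻¹ < 1 := inv_lt_one_of_one_lt₀ hp1
  -- the approximation
  obtain ⟨y, hy⟩ : ∃ y : 𝓞_ℂ_[p], y = zR p 2 - 1 := ⟨_, rfl⟩
  have h1 : Ideal.Quotient.mk (span {(p : 𝓞_ℂ_[p])}) y = PreTilt.coeff 1 (T (eps1 p) - 1) := by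
    rw [map_sub, map_one, hy, map_sub, map_one]
    rfl
  have h2 := Perfection.teichmuller₀_sModEq (x := (T (eps1 p) - 1 : PreTilt 𝓞_ℂ_[p] p)) h1
  rw [SModEq.sub_mem, Ideal.span_singleton_pow, Ideal.mem_span_singleton, pow_dvd_iff] at h2
  change ‖(((T (eps1 p) - 1).untilt - y ^ p ^ 1 : 𝓞_ℂ_[p]) : ℂ_[p])‖ ≤ _ at h2
  rw [AddSubgroupClass.coe_sub, pow_one, SubmonoidClass.coe_pow] at h2
  set u : ℂ_[p] := (((T (eps1 p) - 1).untilt : 𝓞_ℂ_[p]) : ℂ_[p]) with hu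
  have h3 : ‖(y : ℂ_[p]) ^ p‖ ^ (p - 1) = (p : ℝ)⁻¹ := by
    have h4 := norm_one_sub (n := 1) (zf_prim (p := p) 2)
    rw [Nat.totient_prime_pow hp.out (by norm_num), show 1 + 1 - 1 = 1 from rfl, pow_one, pow_mul] at h4
    have h5 : ‖(y : ℂ_[p])‖ = ‖1 - zf p 2‖ := by
      have h6 : (y : ℂ_[p]) = ((zf p 2 - 1 : PadicAlgCl p) : ℂ_[p]) := by
        rw [hy, UniformSpace.Completion.coe_sub]
        rfl
      rw [h6, PadicComplex.norm_extends, norm_sub_rev]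
    rw [norm_pow, h5]
    exact h4
  have h7 : (p : ℝ)⁻¹ ^ (1 + 1) < ‖(y : ℂ_[p]) ^ p‖ := by
    by_contra hcon
    push Not at hcon
    have h8 : ‖(y : ℂ_[p]) ^ p‖ ^ (p - 1) ≤ ((p : ℝ)⁻¹ ^ (1 + 1)) ^ (p - 1) :=
      pow_le_pow_left₀ (norm_nonneg _) hcon _
    have h9 : ((p : ℝ)⁻¹ ^ (1 + 1)) ^ (p - 1) ≤ (p : ℝ)⁻¹ ^ (1 + 1) := by
      apply pow_le_of_le_one (by positivity)
      · exact pow_le_one₀ hinv.le hinv1.le
      · have := hp.out.two_le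
        omega
    rw [h3] at h8
    have h10 : (p : ℝ)⁻¹ ^ (1 + 1) < (p : ℝ)⁻¹ := by
      rw [pow_succ, pow_one]
      nlinarith
    linarith
  have h8 : ‖u‖ = ‖(y : ℂ_[p]) ^ p‖ := by
    apply norm_eq_of_close
    rw [norm_sub_rev]
    exact h2.trans_lt h7
  rw [h8, h3]

theorem coeff_zero_om : (om p).coeff 0 = (T (eps1 p) - 1) ^ (p - 1) := by
  have h1 : (om p).coeff 0 = ∑ i ∈ Finset.range p, (T (eps1 p)) ^ i := by
    change constantCoeff (om p) = _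
    rw [om, map_sum]
    refine Finset.sum_congr rfl fun i _ => ?_
    rw [map_pow]
    congr 1
  have hne : T (eps1 p) - 1 ≠ 0 := by
    intro h
    have h2 := norm_untilt_sub (p := p)
    have h3 : PreTilt.untilt (0 : PreTilt 𝓞_ℂ_[p] p) = 0 := Perfection.teichmuller_zero
    have h4 : p - 1 ≠ 0 := by
      have := hp.out.two_le
      omega
    have h5 : (0 : ℝ) < (p : ℝ)⁻¹ := by
      have : (0 : ℝ) < p := by exact_mod_cast hp.out.pos
      positivity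
    rw [h, h3, ZeroMemClass.coe_zero, norm_zero, zero_pow h4] at h2
    exact h5.ne h2
  rw [h1]
  apply mul_right_cancel₀ hne
  rw [geom_sum_mul, ← pow_succ]
  have h6 : p - 1 + 1 = p := Nat.succ_pred_prime hp.out
  rw [h6, sub_pow_char, one_pow]

theorem norm_untilt_om : ‖((((om p).coeff 0).untilt : 𝓞_ℂ_[p]) : ℂ_[p])‖ = (p : ℝ)⁻¹ := by
  rw [coeff_zero_om, map_pow, SubmonoidClass.coe_pow, norm_pow, norm_untilt_sub]

theorem om_dvd {x : Ai p} (hx : th p x = 0) : om p ∣ x :=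
  dvd_of_theta th_om norm_untilt_om x hx

theorem th_eq_zero_iff {x : Ai p} : th p x = 0 ↔ om p ∣ x :=
  ⟨om_dvd, fun ⟨y, hy⟩ => by rw [hy, map_mul, th_om, zero_mul]⟩

theorem om_ne_zero : om p ≠ 0 := by
  intro h
  have h1 := norm_untilt_om (p := p)
  have h3 : PreTilt.untilt (0 : PreTilt 𝓞_ℂ_[p] p) = 0 := Perfection.teichmuller_zero
  have h5 : (0 : ℝ) < (p : ℝ)⁻¹ := by
    have : (0 : ℝ) < p := by exact_mod_cast hp.out.pos
    positivity
  rw [h, WittVector.zero_coeff, h3, ZeroMemClass.coe_zero, norm_zero] at h1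
  exact h5.ne h1

/-- `σ` acts on the roots of unity of `p`-power order through `c`. -/
def CycAt (σ : Gp p) (c : ℤ_[p]) : Prop :=
  ∀ (n : ℕ) (a : ℕ), (p : ℤ_[p]) ^ n ∣ c - a → ∀ z : PadicAlgCl p, z ^ (p ^ n) = 1 → σ z = z ^ a

end Pool.Agent.X291.DR
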